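import Pool.Agent.XDB.Defs

/-!
# XDB, row B: the ranks of the matrices of distinct letters, over every field

For a column `(a, ν)` let `c = scR ν a` be the number of successes of the greedy scan of the rows
`< a`. The alternating combination `uu` of the columns over the permutations of the `c + 1` rows
(the `c` success rows and `a`) is unitriangular, is mapped to zero in every state `b' < c`, and is
mapped, in the state `c`, to an alternating sum with the leading monomial `ν + e_(a, c)`. So the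
rank of the first `b` states is the number of the columns with `c < b`.
-/

set_option autoImplicit false

namespace Pool.XDB

open Finset Matrix Pool.XD

namespace Gen

/-- triangular families are linearly independent -/
theorem li_of_key {K ι X L : Type*} [Field K] [LinearOrder L] (v : ι → X → K) (p : ι → X)
    (key : ι → L) (hd : ∀ i, v i (p i) ≠ 0)
    (ho : ∀ i j, i ≠ j → v j (p i) ≠ 0 → key i < key j) : LinearIndependent K v := by
  classical
  rw [linearIndependent_iff']
  intro s g hg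
  by_contra hne
  push Not at hne
  obtain ⟨i0, hi0, hgi0⟩ := hne
  obtain ⟨i, hi, hmax⟩ := exists_max_image (s.filter fun i => g i ≠ 0) key
    ⟨i0, by simp [hi0, hgi0]⟩
  rw [mem_filter] at hi
  have h := congrFun hg (p i)
  rw [Finset.sum_apply, sum_eq_single i] at h
  · simp only [Pi.smul_apply, smul_eq_mul, Pi.zero_apply, mul_eq_zero] at h
    rcases h with h | h
    · exact hi.2 h
    · exact hd i h
  · intro j hj hji
    simp only [Pi.smul_apply, smul_eq_mul, mul_eq_zero]
    by_contra hh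
    push Not at hh
    have h1 := ho i j (Ne.symm hji) hh.2
    have h2 := hmax j (by simp [hj, hh.1])
    exact absurd h1 (not_lt.mpr h2)
  · intro hn
    exact absurd hi.1 hn

section mono

variable {W : ℕ}

/-- the weight of an exponent vector -/
def wt (μ : Ex W) : ℕ := ∑ p, μ p * (p.1.1 * p.2.1)

/-- the degree of an exponent vector -/
def dg (μ : Ex W) : ℕ := ∑ p, μ p

theorem wt_add (μ ν : Ex W) : wt (μ + ν) = wt μ + wt ν := by
  simp [wt, add_mul, sum_add_distrib]

theorem dg_add (μ ν : Ex W) : dg (μ + ν) = dg μ + dg ν := by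
  simp [dg, sum_add_distrib]

theorem wt_single (a b : Fin W) : wt (Pi.single (a, b) 1) = a.1 * b.1 := by
  unfold wt
  rw [sum_eq_single (a, b)]
  · simp
  · intro p _ hp
    simp [hp]
  · simp

theorem dg_single (a b : Fin W) : dg (Pi.single (a, b) 1) = 1 := by
  unfold dg
  rw [sum_eq_single (a, b)]
  · simp
  · intro p _ hp
    simp [hp]
  · simp

theorem wt_sum {ι : Type*} (s : Finset ι) (f : ι → Ex W) :
    wt (∑ i ∈ s, f i) = ∑ i ∈ s, wt (f i) := by
  classical
  induction s using Finset.induction_on with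
  | empty => simp [wt]
  | insert a s ha ih => rw [sum_insert ha, sum_insert ha, wt_add, ih]

theorem dg_sum {ι : Type*} (s : Finset ι) (f : ι → Ex W) :
    dg (∑ i ∈ s, f i) = ∑ i ∈ s, dg (f i) := by
  classical
  induction s using Finset.induction_on with
  | empty => simp [dg]
  | insert a s ha ih => rw [sum_insert ha, sum_insert ha, dg_add, ih]

/-- the row monomial of the permutation `σ` -/
def mm {c : ℕ} (ν' : Ex W) (B f : Fin (c + 1) → Fin W) (σ : Equiv.Perm (Fin (c + 1))) : Ex W :=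
  ν' + ∑ j, Pi.single (B (σ j), f j) 1

/-- the column monomial of the permutation `σ` -/
def cm {c : ℕ} (ν' : Ex W) (B f : Fin (c + 1) → Fin W) (σ : Equiv.Perm (Fin (c + 1))) : Ex W :=
  ν' + ∑ j : Fin c, Pi.single (B (σ j.castSucc), f j.castSucc) 1

theorem mm_eq {c : ℕ} (ν' : Ex W) (B f : Fin (c + 1) → Fin W) (σ : Equiv.Perm (Fin (c + 1))) :
    mm ν' B f σ = cm ν' B f σ + Pi.single (B (σ (Fin.last c)), f (Fin.last c)) 1 := by
  unfold mm cm
  rw [Fin.sum_univ_castSucc, add_assoc]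

/-- the column letters, the last one `b'` -/
def cl {c : ℕ} (hc : c + 1 ≤ W) (b' : Fin W) : Fin (c + 1) → Fin W :=
  Function.update (Fin.castLE hc) (Fin.last c) b'

theorem mm_cl {c : ℕ} (hc : c + 1 ≤ W) (ν' : Ex W) (B : Fin (c + 1) → Fin W) (b' : Fin W)
    (σ : Equiv.Perm (Fin (c + 1))) :
    mm ν' B (cl hc b') σ = cm ν' B (Fin.castLE hc) σ + Pi.single (B (σ (Fin.last c)), b') 1 := by
  rw [mm_eq]
  congr 1
  · unfold cm cl
    congr 1
    refine sum_congr rfl fun j _ => ?_
    rw [Function.update_of_ne (Fin.castSucc_lt_last j).ne]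
  · unfold cl
    rw [Function.update_self]

theorem cl_self {c : ℕ} (hc : c + 1 ≤ W) (b' : Fin W) (h : b'.1 = c) :
    cl hc b' = Fin.castLE hc := by
  funext j
  unfold cl
  by_cases hj : j = Fin.last c
  · subst hj
    rw [Function.update_self]
    exact Fin.ext h
  · rw [Function.update_of_ne hj]

theorem mm_swap {c : ℕ} (ν' : Ex W) (B f : Fin (c + 1) → Fin W) (σ τ : Equiv.Perm (Fin (c + 1)))
    (hτ : ∀ j, f (τ j) = f j) : mm ν' B f (σ * τ) = mm ν' B f σ := by
  unfold mm
  congr 1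
  rw [← Equiv.sum_comp τ (fun j => (Pi.single (B (σ j), f j) 1 : Ex W))]
  refine sum_congr rfl fun j _ => ?_
  rw [hτ j, Equiv.Perm.mul_apply]

theorem alt_zero {K : Type*} [CommRing K] {c : ℕ} (hc : c + 1 ≤ W) (ν' : Ex W)
    (B : Fin (c + 1) → Fin W) (b' : Fin W) (hb : b'.1 < c) (G : Ex W → K) :
    ∑ σ : Equiv.Perm (Fin (c + 1)), ((Equiv.Perm.sign σ : ℤ) : K) * G (mm ν' B (cl hc b') σ) =
      0 := by
  have hne : (⟨b'.1, by omega⟩ : Fin (c + 1)) ≠ Fin.last c := by
    intro h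
    have := congrArg Fin.val h
    simp at this
    omega
  set τ : Equiv.Perm (Fin (c + 1)) := Equiv.swap ⟨b'.1, by omega⟩ (Fin.last c) with hτ
  have hfix : ∀ j, cl hc b' (τ j) = cl hc b' j := by
    intro j
    unfold cl
    by_cases hj : j = Fin.last c
    · subst hj
      rw [hτ, Equiv.swap_apply_right, Function.update_of_ne hne, Function.update_self]
      rfl
    · by_cases hj' : j = ⟨b'.1, by omega⟩
      · subst hj'
        rw [hτ, Equiv.swap_apply_left, Function.update_of_ne hne, Function.update_self]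
        rfl
      · rw [hτ, Equiv.swap_apply_of_ne_of_ne hj' hj]
  refine Finset.sum_involution (fun σ _ => σ * τ) ?_ ?_ ?_ ?_
  · intro σ _
    rw [mm_swap _ _ _ _ _ hfix, Equiv.Perm.sign_mul, hτ, Equiv.Perm.sign_swap hne]
    simp
  · intro σ _ _ h
    have h1 : τ = 1 := by
      have := congrArg (fun x => σ⁻¹ * x) h
      simpa using this
    rw [hτ] at h1
    have := congrArg (fun x : Equiv.Perm (Fin (c + 1)) => x (Fin.last c)) h1
    simp only [Equiv.swap_apply_right, Equiv.Perm.one_apply] at this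
    exact hne this
  · intro σ _
    exact mem_univ _
  · intro σ _
    rw [mul_assoc, hτ, Equiv.swap_mul_self, mul_one]

theorem wt_mm_lt {c : ℕ} (hc : c + 1 ≤ W) (ν' : Ex W) (B : Fin (c + 1) → Fin W)
    (hB : StrictMono B) (σ : Equiv.Perm (Fin (c + 1))) (hσ : σ ≠ 1) :
    wt (mm ν' B (Fin.castLE hc) σ) < wt (mm ν' B (Fin.castLE hc) 1) := by
  unfold mm
  rw [wt_add, wt_add, wt_sum, wt_sum]
  refine Nat.add_lt_add_left ?_ _
  simp only [wt_single, Equiv.Perm.one_apply, Fin.val_castLE]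
  have hm : Monovary (fun j : Fin (c + 1) => (B j).1) (fun j : Fin (c + 1) => j.1) := by
    intro i j hij
    exact (hB (show i < j from hij)).le
  have := (Monovary.sum_comp_perm_mul_lt_sum_mul_iff (σ := σ) hm).2 ?_
  · exact this
  · intro hmv
    apply hσ
    have h1 : StrictMono (σ : Fin (c + 1) → Fin (c + 1)) := by
      intro i j hij
      have h2 : (B (σ i)).1 ≤ (B (σ j)).1 := hmv (show i.1 < j.1 from hij)
      have h3 : σ i ≤ σ j := by
        by_contra h4
        have h5 := hB (not_le.mp h4)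
        exact absurd h5 (not_lt.mpr h2)
      exact lt_of_le_of_ne h3 fun h => hij.ne (σ.injective h)
    have h2 : (σ : Fin (c + 1) → Fin (c + 1)) = id := by
      refine (StrictMono.range_inj h1 strictMono_id).1 ?_
      rw [σ.surjective.range_eq, Set.range_id]
    ext j
    rw [h2]
    rfl

end mono

section tests

variable {W : ℕ}

theorem scR_mono (μ : Ex W) : Monotone (scR μ) :=
  monotone_nat_of_le_succ fun n => by
    rw [scR]
    exact Nat.le_add_right _ _

theorem scR_le (μ : Ex W) (a : ℕ) : scR μ a ≤ a := by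
  induction a with
  | zero => simp [scR]
  | succ a ih =>
    rw [scR]
    split_ifs <;> omega

theorem scR_congr (μ ν : Ex W) (m : ℕ) (h : ∀ a < m, ∀ b, vl μ a b = vl ν a b) :
    scR μ m = scR ν m := by
  induction m with
  | zero => simp [scR]
  | succ m ih =>
    have h1 := ih fun a ha b => h a (by omega) b
    rw [scR, scR, h1, h m (by omega)]

theorem scR_pos (ν : Ex W) (m i : ℕ) (h : i < scR ν m) :
    ∃ p < m, scR ν p = i ∧ 1 ≤ vl ν p i := by
  induction m with
  | zero => simp [scR] at h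
  | succ m ih =>
    by_cases h1 : i < scR ν m
    · obtain ⟨p, hp, hp'⟩ := ih h1
      exact ⟨p, by omega, hp'⟩
    · rw [scR] at h
      have h2 : 1 ≤ vl ν m (scR ν m) := by
        by_contra h3
        rw [if_neg h3] at h
        omega
      rw [if_pos h2] at h
      have h3 : scR ν m = i := by omega
      rw [h3] at h2
      exact ⟨m, by omega, h3, h2⟩

theorem vl_pos {μ : Ex W} {a b : ℕ} (h : 1 ≤ vl μ a b) : ∃ h : a < W ∧ b < W,
    1 ≤ μ (⟨a, h.1⟩, ⟨b, h.2⟩) := by
  unfold vl at h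
  by_cases h1 : a < W ∧ b < W
  · rw [dif_pos h1] at h
    exact ⟨h1, h⟩
  · rw [dif_neg h1] at h
    omega

theorem vl_add (ν : Ex W) (a b : Fin W) (x y : ℕ) :
    vl (ν + Pi.single (a, b) 1) x y = vl ν x y + if x = a.1 ∧ y = b.1 then 1 else 0 := by
  unfold vl
  by_cases h : x < W ∧ y < W
  · rw [dif_pos h, dif_pos h, Pi.add_apply, Pi.single_apply]
    congr 1
    refine if_congr ?_ rfl rfl
    rw [Prod.mk.injEq, Fin.ext_iff, Fin.ext_iff]
  · rw [dif_neg h, dif_neg h, if_neg]
    rintro ⟨h1, h2⟩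
    exact h ⟨h1 ▸ a.2, h2 ▸ b.2⟩

theorem scR_add (ν : Ex W) (a b : Fin W) {m : ℕ} (hm : m ≤ a.1) :
    scR (ν + Pi.single (a, b) 1) m = scR ν m := by
  refine scR_congr _ _ _ fun x hx y => ?_
  rw [vl_add, if_neg, add_zero]
  rintro ⟨h, _⟩
  omega

theorem scR_succ (ν : Ex W) (a b : Fin W) (hb : b.1 = scR ν a.1) :
    scR (ν + Pi.single (a, b) 1) (a.1 + 1) = scR ν a.1 + 1 := by
  rw [scR, scR_add ν a b le_rfl, vl_add, if_pos]
  rw [if_pos ⟨rfl, hb.symm⟩]
  omega

theorem inj_aux (ν ν' : Ex W) (a a' c : Fin W) (h : c.1 = scR ν a.1) (h' : c.1 = scR ν' a'.1)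
    (he : ν + Pi.single (a, c) 1 = ν' + Pi.single (a', c) 1) (hlt : a.1 < a'.1) : False := by
  have h1 := scR_succ ν a c h
  have h2 := scR_add ν' a' c le_rfl
  rw [he] at h1
  have h3 := scR_mono (ν' + Pi.single (a', c) 1) (show a.1 + 1 ≤ a'.1 from hlt)
  omega

theorem inj_pair (ν ν' : Ex W) (a a' c : Fin W) (h : c.1 = scR ν a.1) (h' : c.1 = scR ν' a'.1)
    (he : ν + Pi.single (a, c) 1 = ν' + Pi.single (a', c) 1) : a = a' ∧ ν = ν' := by
  have h1 : a = a' := by
    apply Fin.ext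
    rcases lt_trichotomy a.1 a'.1 with h1 | h1 | h1
    · exact (inj_aux ν ν' a a' c h h' he h1).elim
    · exact h1
    · exact (inj_aux ν' ν a' a c h' h he.symm h1).elim
  subst h1
  exact ⟨rfl, add_right_cancel he⟩

theorem exists_data (ν : Ex W) (a : Fin W) : ∃ (c : ℕ) (hc : c + 1 ≤ W) (ν' : Ex W)
    (B : Fin (c + 1) → Fin W), c = scR ν a.1 ∧ StrictMono B ∧ B (Fin.last c) = a ∧
      cm ν' B (Fin.castLE hc) 1 = ν := by
  obtain ⟨c, hc0⟩ : ∃ c, c = scR ν a.1 := ⟨_, rfl⟩
  have hca : c ≤ a.1 := hc0 ▸ scR_le ν a.1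
  have hc : c + 1 ≤ W := by
    have := a.2
    omega
  have hp : ∀ i : Fin c, ∃ p : Fin W, p.1 < a.1 ∧ scR ν p.1 = i.1 ∧
      1 ≤ ν (p, ⟨i.1, by omega⟩) := by
    intro i
    obtain ⟨p, hpa, hps, hpv⟩ := scR_pos ν a.1 i.1 (by omega)
    obtain ⟨hW, hv⟩ := vl_pos hpv
    exact ⟨⟨p, hW.1⟩, hpa, hps, hv⟩
  choose P hPa hPs hPv using hp
  have hmono : ∀ i j : Fin c, i < j → P i < P j := by
    intro i j hij
    by_contra h
    have h1 := scR_mono ν (show (P j).1 ≤ (P i).1 from not_lt.mp h)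
    rw [hPs, hPs] at h1
    have h2 : i.1 < j.1 := hij
    omega
  have hle : (∑ j : Fin c, (Pi.single (P j, Fin.castLE hc j.castSucc) 1 : Ex W)) ≤ ν := by
    intro p
    rw [Finset.sum_apply]
    by_cases h : ∃ j : Fin c, p = (P j, Fin.castLE hc j.castSucc)
    · obtain ⟨j, rfl⟩ := h
      rw [sum_eq_single j]
      · rw [Pi.single_eq_same]
        exact hPv j
      · intro j' _ hj'
        rw [Pi.single_apply, if_neg]
        intro h
        have h2 := congrArg (fun x => x.2.1) h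
        simp only [Fin.val_castLE, Fin.val_castSucc] at h2
        exact hj' (Fin.ext h2.symm)
      · intro h
        exact absurd (mem_univ _) h
    · rw [sum_eq_zero]
      · exact Nat.zero_le _
      · intro j _
        rw [Pi.single_apply, if_neg]
        intro hh
        exact h ⟨j, hh⟩
  refine ⟨c, hc, ν - ∑ j : Fin c, (Pi.single (P j, Fin.castLE hc j.castSucc) 1 : Ex W),
    Fin.snoc P a, hc0, ?_, Fin.snoc_last _ _, ?_⟩
  · intro i j hij
    induction j using Fin.lastCases with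
    | last =>
      induction i using Fin.lastCases with
      | last => exact absurd hij (lt_irrefl _)
      | cast i =>
        rw [Fin.snoc_last, Fin.snoc_castSucc]
        exact hPa i
    | cast j =>
      induction i using Fin.lastCases with
      | last => exact absurd hij (not_lt.mpr (Fin.le_last _))
      | cast i =>
        rw [Fin.snoc_castSucc, Fin.snoc_castSucc]
        exact hmono i j (by simpa using hij)
  · unfold cm
    simp only [Equiv.Perm.one_apply, Fin.snoc_castSucc]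
    exact tsub_add_cancel_of_le hle

end tests

section general

variable {K : Type*} [Field K] {R C : Type*} {W k b n : ℕ}

theorem dg_cm {c : ℕ} (ν' : Ex W) (B f : Fin (c + 1) → Fin W) (σ : Equiv.Perm (Fin (c + 1))) :
    dg (cm ν' B f σ) = dg ν' + c := by
  unfold cm
  rw [dg_add, dg_sum]
  simp [dg_single]

/-- the combination of the columns -/
noncomputable def uu (K : Type*) [Field K] {c : ℕ} (hc : c + 1 ≤ W) (ν' : Ex W)
    (B : Fin (c + 1) → Fin W) (j : C → Ex W) (x : {a : Fin W // a.1 < n} × C) : K := by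
  classical
  exact ∑ σ : Equiv.Perm (Fin (c + 1)), ((Equiv.Perm.sign σ : ℤ) : K) *
    if B (σ (Fin.last c)) = x.1.1 ∧ cm ν' B (Fin.castLE hc) σ = j x.2 then 1 else 0

theorem uu_self {c : ℕ} (hc : c + 1 ≤ W) (ν' : Ex W) (B : Fin (c + 1) → Fin W)
    (hB : StrictMono B) (j : C → Ex W) (y : {a : Fin W // a.1 < n} × C)
    (h1 : B (Fin.last c) = y.1.1) (h2 : cm ν' B (Fin.castLE hc) 1 = j y.2) :
    uu K hc ν' B j y = 1 := by
  classical
  unfold uu
  rw [sum_eq_single 1]
  · rw [if_pos ⟨by rw [Equiv.Perm.one_apply]; exact h1, h2⟩]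
    simp
  · intro σ _ hσ
    rw [if_neg, mul_zero]
    rintro ⟨h3, h4⟩
    have h5 := wt_mm_lt hc ν' B hB σ hσ
    rw [mm_eq, mm_eq, h3, h4, h2, Equiv.Perm.one_apply, h1] at h5
    exact lt_irrefl _ h5
  · intro h
    exact absurd (mem_univ _) h

theorem uu_ne {c : ℕ} (hc : c + 1 ≤ W) (ν' : Ex W) (B : Fin (c + 1) → Fin W)
    (hB : StrictMono B) (j : C → Ex W) (hj : Function.Injective j)
    (x y : {a : Fin W // a.1 < n} × C)
    (h1 : B (Fin.last c) = y.1.1) (h2 : cm ν' B (Fin.castLE hc) 1 = j y.2)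
    (hx : uu K hc ν' B j x ≠ 0) (hxy : x ≠ y) :
    toLex (x.1.1, wt (j x.2)) < toLex (y.1.1, wt (j y.2)) := by
  classical
  unfold uu at hx
  obtain ⟨σ, _, hσ⟩ := exists_ne_zero_of_sum_ne_zero hx
  have h3 : B (σ (Fin.last c)) = x.1.1 ∧ cm ν' B (Fin.castLE hc) σ = j x.2 := by
    by_contra h
    rw [if_neg h, mul_zero] at hσ
    exact hσ rfl
  have hle : x.1.1 ≤ y.1.1 := by
    rw [← h3.1, ← h1]
    exact hB.monotone (Fin.le_last _)
  rw [Prod.Lex.toLex_lt_toLex]
  rcases hle.lt_or_eq with h | h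
  · exact Or.inl h
  · refine Or.inr ⟨h, ?_⟩
    by_cases hσ1 : σ = 1
    · exfalso
      apply hxy
      rw [hσ1, h2] at h3
      exact Prod.ext (Subtype.ext h) (hj h3.2.symm)
    · have h5 := wt_mm_lt hc ν' B hB σ hσ1
      rw [mm_eq, mm_eq, h3.1, h3.2, h2, Equiv.Perm.one_apply, h1, h, wt_add, wt_add] at h5
      exact Nat.lt_of_add_lt_add_right h5

theorem mulVec_uu [Fintype C] {c : ℕ} (hc : c + 1 ≤ W) (ν' : Ex W) (B : Fin (c + 1) → Fin W)
    (hB : StrictMono B) (i : R → Ex W) (j : C → Ex W) (hj : Function.Injective j)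
    (hC : ∀ x : Ex W, dg x + 1 = k → ∃ ν, j ν = x) (hCd : ∀ ν, dg (j ν) + 1 = k)
    (M : Matrix ({b' : Fin W // b'.1 < b} × R) ({a : Fin W // a.1 < n} × C) K)
    (hM1 : ∀ x y, i x.2 = j y.2 + Pi.single (y.1.1, x.1.1) 1 → M x y = 1)
    (hM0 : ∀ x y, i x.2 ≠ j y.2 + Pi.single (y.1.1, x.1.1) 1 → M x y = 0)
    (y : {a : Fin W // a.1 < n} × C)
    (h1 : B (Fin.last c) = y.1.1) (h2 : cm ν' B (Fin.castLE hc) 1 = j y.2)
    (x : {b' : Fin W // b'.1 < b} × R) (G : Ex W → K) (hG1 : G (i x.2) = 1)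
    (hG0 : ∀ z, z ≠ i x.2 → G z = 0) :
    M.mulVec (uu K hc ν' B j) x = ∑ σ : Equiv.Perm (Fin (c + 1)),
      ((Equiv.Perm.sign σ : ℤ) : K) * G (mm ν' B (cl hc x.1.1) σ) := by
  classical
  unfold uu
  rw [Matrix.mulVec, dotProduct]
  simp_rw [mul_sum]
  rw [sum_comm]
  refine sum_congr rfl fun σ _ => ?_
  have hlt : (B (σ (Fin.last c))).1 < n := by
    have h3 : B (σ (Fin.last c)) ≤ B (Fin.last c) := hB.monotone (Fin.le_last _)
    have h4 : (B (σ (Fin.last c))).1 ≤ y.1.1.1 := by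
      rw [h1] at h3
      exact h3
    exact lt_of_le_of_lt h4 y.1.2
  obtain ⟨z, hz⟩ := hC (cm ν' B (Fin.castLE hc) σ) (by
    rw [dg_cm, ← dg_cm ν' B (Fin.castLE hc) 1, h2]
    exact hCd _)
  rw [sum_eq_single (⟨⟨B (σ (Fin.last c)), hlt⟩, z⟩ : {a : Fin W // a.1 < n} × C)]
  · rw [if_pos ⟨rfl, hz.symm⟩, mul_one, mul_comm]
    congr 1
    rw [mm_cl, ← hz]
    by_cases h : i x.2 = j z + Pi.single (B (σ (Fin.last c)), x.1.1) 1
    · rw [← h, hG1, hM1 _ _ h]
    · rw [hG0 _ (Ne.symm h), hM0 _ _ h]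
  · intro w _ hw
    rw [if_neg, mul_zero, mul_zero]
    rintro ⟨h3, h4⟩
    apply hw
    refine Prod.ext (Subtype.ext h3.symm) (hj ?_)
    rw [← h4, hz]
  · intro h
    exact absurd (mem_univ _) h

theorem gen_rank [Fintype R] [Fintype C] (i : R → Ex W) (j : C → Ex W) (hj : Function.Injective j) (hR : ∀ x : Ex W, dg x = k → ∃ μ, i μ = x)
    (hC : ∀ x : Ex W, dg x + 1 = k → ∃ ν, j ν = x) (hCd : ∀ ν, dg (j ν) + 1 = k)
    (M : Matrix ({b' : Fin W // b'.1 < b} × R) ({a : Fin W // a.1 < n} × C) K)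
    (hM1 : ∀ x y, i x.2 = j y.2 + Pi.single (y.1.1, x.1.1) 1 → M x y = 1)
    (hM0 : ∀ x y, i x.2 ≠ j y.2 + Pi.single (y.1.1, x.1.1) 1 → M x y = 0) :
    M.rank = (univ.filter fun y : {a : Fin W // a.1 < n} × C =>
      scR (j y.2) y.1.1.1 < b).card := by
  classical
  have hdata := fun y : {a : Fin W // a.1 < n} × C => exists_data (j y.2) y.1.1
  choose c hc ν' B hcs hB hBl hcm using hdata
  set U : ({a : Fin W // a.1 < n} × C) → ({a : Fin W // a.1 < n} × C) → K :=
    fun y => uu K (hc y) (ν' y) (B y) j with hU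
  -- the vectors `U y` form a basis
  have hli : LinearIndependent K U := by
    refine li_of_key U id (fun y => toLex (y.1.1, wt (j y.2))) ?_ ?_
    · intro y
      have h := uu_self (K := K) (hc y) (ν' y) (B y) (hB y) j y (hBl y) (hcm y)
      show uu K (hc y) (ν' y) (B y) j y ≠ 0
      rw [h]
      exact one_ne_zero
    · intro x y hxy hx
      exact uu_ne (hc y) (ν' y) (B y) (hB y) j hj x y (hBl y) (hcm y) hx hxy
  have hspan : Submodule.span K (Set.range U) = ⊤ := by
    apply hli.span_eq_top_of_card_eq_finrank'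
    rw [Module.finrank_fintype_fun_eq_card]
  -- their images
  set V : {y : {a : Fin W // a.1 < n} × C // scR (j y.2) y.1.1.1 < b} →
    ({b' : Fin W // b'.1 < b} × R) → K := fun y => M.mulVec (U y.1) with hV
  have hval : ∀ y x (G : Ex W → K) (_ : G (i x.2) = 1) (_ : ∀ z, z ≠ i x.2 → G z = 0),
      M.mulVec (U y) x = ∑ σ : Equiv.Perm (Fin (c y + 1)),
      ((Equiv.Perm.sign σ : ℤ) : K) * G (mm (ν' y) (B y) (cl (hc y) x.1.1) σ) := by
    intro y x G hG1 hG0
    exact mulVec_uu (hc y) (ν' y) (B y) (hB y) i j hj hC hCd M hM1 hM0 y (hBl y) (hcm y) x G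
      hG1 hG0
  have hzero : ∀ y x, x.1.1.1 < c y → M.mulVec (U y) x = 0 := by
    intro y x hx
    have h1 := hval y x (fun z => if z = i x.2 then 1 else 0) (if_pos rfl)
      (fun z hz => if_neg hz)
    have h2 := alt_zero (K := K) (hc y) (ν' y) (B y) x.1.1 hx
      (fun z => if z = i x.2 then 1 else 0)
    exact h1.trans h2
  have hvalc : ∀ y x, x.1.1.1 = c y → M.mulVec (U y) x = ∑ σ : Equiv.Perm (Fin (c y + 1)),
      ((Equiv.Perm.sign σ : ℤ) : K) *
        if mm (ν' y) (B y) (Fin.castLE (hc y)) σ = i x.2 then 1 else 0 := by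
    intro y x hx
    have h1 := hval y x (fun z => if z = i x.2 then 1 else 0) (if_pos rfl)
      (fun z hz => if_neg hz)
    rw [cl_self (hc y) x.1.1 hx] at h1
    exact h1
  -- the positions
  have hpos : ∀ y : {y : {a : Fin W // a.1 < n} × C // scR (j y.2) y.1.1.1 < b},
      ∃ μ : R, i μ = mm (ν' y.1) (B y.1) (Fin.castLE (hc y.1)) 1 := by
    intro y
    obtain ⟨μ, hμ⟩ := hR (mm (ν' y.1) (B y.1) (Fin.castLE (hc y.1)) 1) (by
      rw [mm_eq, dg_add, dg_single, hcm]
      exact hCd _)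
    exact ⟨μ, hμ⟩
  choose μ hμ using hpos
  have hμ' : ∀ y, i (μ y) = j y.1.2 + Pi.single (y.1.1.1,
      (⟨c y.1, by have := hc y.1; omega⟩ : Fin W)) 1 := by
    intro y
    rw [hμ y, mm_eq, hcm, Equiv.Perm.one_apply, hBl]
    rfl
  have hliV : LinearIndependent K V := by
    refine li_of_key V (fun y => (⟨⟨⟨c y.1, by have := hc y.1; omega⟩,
      lt_of_eq_of_lt (hcs y.1) y.2⟩, μ y⟩ : {b' : Fin W // b'.1 < b} × R))
      (fun y => toLex (OrderDual.toDual (c y.1), wt (i (μ y)))) ?_ ?_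
    · intro y
      rw [hV]
      show M.mulVec (U y.1) _ ≠ 0
      rw [hvalc y.1 _ rfl, sum_eq_single 1]
      · rw [if_pos (hμ y).symm]
        simp
      · intro σ _ hσ
        rw [if_neg, mul_zero]
        intro h
        have h5 := wt_mm_lt (hc y.1) (ν' y.1) (B y.1) (hB y.1) σ hσ
        rw [h, ← hμ y] at h5
        exact lt_irrefl _ h5
      · intro h
        exact absurd (mem_univ _) h
    · intro y z hyz hne
      have hne' : M.mulVec (U z.1) (⟨⟨⟨c y.1, by have := hc y.1; omega⟩,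
        lt_of_eq_of_lt (hcs y.1) y.2⟩, μ y⟩ : {b' : Fin W // b'.1 < b} × R) ≠ 0 := hne
      have hle : c z.1 ≤ c y.1 := by
        by_contra h
        exact hne' (hzero z.1 _ (not_le.mp h))
      rw [Prod.Lex.toLex_lt_toLex]
      rcases hle.lt_or_eq with h | h
      · exact Or.inl (OrderDual.toDual_lt_toDual.mpr h)
      · refine Or.inr ⟨by rw [h], ?_⟩
        rw [hvalc z.1 _ h.symm] at hne'
        obtain ⟨σ, _, hσ⟩ := exists_ne_zero_of_sum_ne_zero hne'
        have h6 : mm (ν' z.1) (B z.1) (Fin.castLE (hc z.1)) σ = i (μ y) := by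
          by_contra h7
          apply hσ
          rw [if_neg h7, mul_zero]
        show wt (i (μ y)) < wt (i (μ z))
        by_cases hσ1 : σ = 1
        · exfalso
          apply hyz
          rw [hσ1, ← hμ z] at h6
          rw [hμ' y, hμ' z] at h6
          have h8 : (⟨c z.1, by have := hc z.1; omega⟩ : Fin W) =
              ⟨c y.1, by have := hc y.1; omega⟩ := Fin.ext h
          rw [h8] at h6
          have h9 := inj_pair (j z.1.2) (j y.1.2) z.1.1.1 y.1.1.1
            ⟨c y.1, by have := hc y.1; omega⟩ (by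
              show c y.1 = _
              rw [← h, hcs z.1]) (hcs y.1) h6
          apply Subtype.ext
          exact (Prod.ext (Subtype.ext h9.1) (hj h9.2)).symm
        · have h5 := wt_mm_lt (hc z.1) (ν' z.1) (B z.1) (hB z.1) σ hσ1
          rw [h6, ← hμ z] at h5
          exact h5
  -- the range
  have hrange : LinearMap.range M.mulVecLin = Submodule.span K (Set.range V) := by
    rw [LinearMap.range_eq_map, ← hspan, Submodule.map_span]
    apply le_antisymm
    · rw [Submodule.span_le]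
      rintro _ ⟨_, ⟨y, rfl⟩, rfl⟩
      by_cases h : scR (j y.2) y.1.1.1 < b
      · exact Submodule.subset_span ⟨⟨y, h⟩, rfl⟩
      · have h1 : M.mulVecLin (U y) = 0 := by
          funext x
          rw [Matrix.mulVecLin_apply]
          refine hzero y x ?_
          rw [hcs y]
          have := x.1.2
          omega
        rw [h1]
        exact Submodule.zero_mem _
    · rw [Submodule.span_le]
      rintro _ ⟨y, rfl⟩
      exact Submodule.subset_span ⟨U y.1, ⟨y.1, rfl⟩, rfl⟩
  rw [Matrix.rank, hrange, finrank_span_eq_card hliV, Fintype.card_subtype]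

end general

section counts

variable {W k b n : ℕ}

theorem count_true :
    (univ.filter fun y : {a : Fin W // a.1 < n} × SMon W true k =>
      scR y.2.1 y.1.1.1 < b).card =
    ∑ c ∈ range b, (univ.filter fun μ : Mon W k => c < scR μ.1 n).card := by
  classical
  rw [← card_sigma]
  have hlt : ∀ y : {a : Fin W // a.1 < n} × SMon W true k, scR y.2.1 y.1.1.1 < W := fun y =>
    lt_of_le_of_lt (scR_le _ _) y.1.1.2
  have hdeg : ∀ y : {a : Fin W // a.1 < n} × SMon W true k,
      ∑ p, (y.2.1 + Pi.single (y.1.1, (⟨scR y.2.1 y.1.1.1, hlt y⟩ : Fin W)) 1 : Ex W) p = k := by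
    intro y
    have h1 := y.2.2
    rw [if_pos rfl] at h1
    have h2 := dg_add y.2.1 (Pi.single (y.1.1, (⟨scR y.2.1 y.1.1.1, hlt y⟩ : Fin W)) 1)
    rw [dg_single] at h2
    exact h2.trans h1
  refine card_bij (fun y _ => (⟨scR y.2.1 y.1.1.1,
    ⟨y.2.1 + Pi.single (y.1.1, (⟨scR y.2.1 y.1.1.1, hlt y⟩ : Fin W)) 1, hdeg y⟩⟩ :
      (_ : ℕ) × Mon W k)) ?_ ?_ ?_
  · intro y hy
    rw [mem_filter] at hy
    rw [mem_sigma, mem_range, mem_filter]
    refine ⟨hy.2, mem_univ _, ?_⟩
    have h1 := scR_succ y.2.1 y.1.1 ⟨scR y.2.1 y.1.1.1, hlt y⟩ rfl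
    have h2 := scR_mono (y.2.1 + Pi.single (y.1.1, (⟨scR y.2.1 y.1.1.1, hlt y⟩ : Fin W)) 1)
      (show y.1.1.1 + 1 ≤ n from y.1.2)
    show scR y.2.1 y.1.1.1 < scR (y.2.1 + Pi.single (y.1.1,
      (⟨scR y.2.1 y.1.1.1, hlt y⟩ : Fin W)) 1) n
    omega
  · intro y _ z _ h
    rw [Sigma.mk.injEq] at h
    obtain ⟨h1, h2⟩ := h
    have h3 := congrArg Subtype.val (eq_of_heq h2)
    have h4 : (⟨scR y.2.1 y.1.1.1, hlt y⟩ : Fin W) = ⟨scR z.2.1 z.1.1.1, hlt z⟩ := Fin.ext h1
    dsimp only at h3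
    rw [← h4] at h3
    have h5 := inj_pair y.2.1 z.2.1 y.1.1 z.1.1 ⟨scR y.2.1 y.1.1.1, hlt y⟩ rfl h1 h3
    exact Prod.ext (Subtype.ext h5.1) (Subtype.ext h5.2)
  · rintro ⟨c, μ⟩ hx
    rw [mem_sigma, mem_range, mem_filter] at hx
    obtain ⟨hcb, _, hc⟩ := hx
    dsimp only at hcb hc
    obtain ⟨p, hpn, hps, hpv⟩ := scR_pos μ.1 n c hc
    obtain ⟨hW, hv⟩ := vl_pos hpv
    have hle : (Pi.single ((⟨p, hW.1⟩ : Fin W), (⟨c, hW.2⟩ : Fin W)) 1 : Ex W) ≤ μ.1 := by
      intro q
      rw [Pi.single_apply]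
      split_ifs with h
      · rw [h]
        exact hv
      · exact Nat.zero_le _
    have hadd := tsub_add_cancel_of_le hle
    have h0 : scR (μ.1 - Pi.single ((⟨p, hW.1⟩ : Fin W), (⟨c, hW.2⟩ : Fin W)) 1) p = c := by
      have h1 := scR_add (μ.1 - Pi.single ((⟨p, hW.1⟩ : Fin W), (⟨c, hW.2⟩ : Fin W)) 1)
        ⟨p, hW.1⟩ ⟨c, hW.2⟩ (m := p) le_rfl
      rw [hadd, hps] at h1
      exact h1.symm
    have hν : (if (true = true) then ∑ q, (μ.1 - Pi.single ((⟨p, hW.1⟩ : Fin W),
        (⟨c, hW.2⟩ : Fin W)) 1 : Ex W) q + 1 = k else ∑ q, (μ.1 - Pi.single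
        ((⟨p, hW.1⟩ : Fin W), (⟨c, hW.2⟩ : Fin W)) 1 : Ex W) q = k + 1) := by
      rw [if_pos rfl]
      have h1 := dg_add (μ.1 - Pi.single ((⟨p, hW.1⟩ : Fin W), (⟨c, hW.2⟩ : Fin W)) 1)
        (Pi.single ((⟨p, hW.1⟩ : Fin W), (⟨c, hW.2⟩ : Fin W)) 1)
      rw [hadd, dg_single] at h1
      exact h1.symm.trans μ.2
    refine ⟨(⟨⟨⟨p, hW.1⟩, hpn⟩, ⟨_, hν⟩⟩ : {a : Fin W // a.1 < n} × SMon W true k), ?_, ?_⟩
    · rw [mem_filter]
      refine ⟨mem_univ _, ?_⟩
      exact lt_of_eq_of_lt h0 hcb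
    · rw [Sigma.mk.injEq]
      refine ⟨h0, ?_⟩
      apply heq_of_eq
      apply Subtype.ext
      dsimp only
      have h4 : (⟨scR (μ.1 - Pi.single ((⟨p, hW.1⟩ : Fin W), (⟨c, hW.2⟩ : Fin W)) 1) p,
        lt_of_le_of_lt (scR_le _ _) hW.1⟩ : Fin W) = ⟨c, hW.2⟩ := Fin.ext h0
      rw [h4]
      exact hadd

theorem scC_mono (μ : Ex W) : Monotone (scC μ) :=
  monotone_nat_of_le_succ fun n => by
    rw [scC]
    exact Nat.le_add_right _ _

theorem lt_card_iff (P : ℕ → Prop) [DecidablePred P] (hP : ∀ x y, x ≤ y → P y → P x) {c : ℕ}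
    (hc : c < W) : c < ((range W).filter P).card ↔ P c := by
  constructor
  · intro h
    by_contra hn
    have h1 : (range W).filter P ⊆ range c := by
      intro x hx
      rw [mem_filter] at hx
      rw [mem_range]
      by_contra h2
      exact hn (hP c x (not_lt.mp h2) hx.2)
    have h2 := card_le_card h1
    rw [card_range] at h2
    omega
  · intro h
    have h1 : range (c + 1) ⊆ (range W).filter P := by
      intro x hx
      rw [mem_range] at hx
      rw [mem_filter, mem_range]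
      exact ⟨by omega, hP x c (by omega) h⟩
    have h2 := card_le_card h1
    rw [card_range] at h2
    omega

theorem count_false (hb : b ≤ W) :
    (univ.filter fun y : {b' : Fin W // b'.1 < b} × Mon W k =>
      scC y.2.1 y.1.1.1 < n).card =
    ∑ c ∈ range b, (univ.filter fun μ : Mon W k => c < nx W false n μ.1).card := by
  classical
  rw [← card_sigma]
  have hnx : ∀ (μ : Mon W k) (c : ℕ), c < W → (c < nx W false n μ.1 ↔ scC μ.1 c < n) := by
    intro μ c hc
    have h1 : nx W false n μ.1 = ((range W).filter fun b => scC μ.1 b < n).card := by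
      unfold nx
      exact if_neg (by decide)
    rw [h1]
    exact lt_card_iff (fun b => scC μ.1 b < n)
      (fun x y hxy hy => lt_of_le_of_lt (scC_mono μ.1 hxy) hy) hc
  refine card_bij (fun y _ => (⟨y.1.1.1, y.2⟩ : (_ : ℕ) × Mon W k)) ?_ ?_ ?_
  · intro y hy
    rw [mem_filter] at hy
    rw [mem_sigma, mem_range, mem_filter]
    exact ⟨y.1.2, mem_univ _, (hnx y.2 y.1.1.1 y.1.1.2).2 hy.2⟩
  · intro y _ z _ h
    rw [Sigma.mk.injEq] at h
    exact Prod.ext (Subtype.ext (Fin.ext h.1)) (eq_of_heq h.2)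
  · rintro ⟨c, μ⟩ hx
    rw [mem_sigma, mem_range, mem_filter] at hx
    obtain ⟨hcb, _, hc⟩ := hx
    dsimp only at hcb hc
    refine ⟨⟨⟨⟨c, by omega⟩, hcb⟩, μ⟩, ?_, rfl⟩
    rw [mem_filter]
    exact ⟨mem_univ _, (hnx μ c (by omega)).1 hc⟩

/-- the transposed exponent vector -/
def sw (μ : Ex W) : Ex W := fun p => μ p.swap

theorem sw_sw (μ : Ex W) : sw (sw μ) = μ := by
  funext p
  unfold sw
  rw [Prod.swap_swap]

theorem sw_inj {μ ν : Ex W} (h : sw μ = sw ν) : μ = ν := by
  rw [← sw_sw μ, h, sw_sw]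

theorem vl_sw (μ : Ex W) (x y : ℕ) : vl (sw μ) x y = vl μ y x := by
  unfold vl
  by_cases h : x < W ∧ y < W
  · rw [dif_pos h, dif_pos ⟨h.2, h.1⟩]
    rfl
  · rw [dif_neg h, dif_neg fun h' => h ⟨h'.2, h'.1⟩]

theorem scR_sw (μ : Ex W) (m : ℕ) : scR (sw μ) m = scC μ m := by
  induction m with
  | zero => rfl
  | succ m ih => rw [scR, scC, ih, vl_sw]

theorem dg_sw (μ : Ex W) : dg (sw μ) = dg μ := by
  unfold dg sw
  exact Equiv.sum_comp (Equiv.prodComm (Fin W) (Fin W)) μ

theorem sw_add_single (μ : Ex W) (a b : Fin W) :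
    sw (μ + Pi.single (a, b) 1) = sw μ + Pi.single (b, a) 1 := by
  funext p
  unfold sw
  rw [Pi.add_apply, Pi.add_apply, Pi.single_apply, Pi.single_apply]
  congr 1
  refine if_congr ?_ rfl rfl
  constructor
  · intro h
    rw [← Prod.swap_swap p, h]
    rfl
  · intro h
    rw [h]
    rfl

end counts

end Gen

open Gen in
/-- **ROW B** (ranks of the matrix of distinct letters, every field) -/
theorem rank_Am {K : Type} [Field K] {W : ℕ} (t : Bool) (k n b : ℕ) (hn : n ≤ W) (hb : b ≤ W) :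
    (stR (Am K W t k n) b).rank =
      ∑ c ∈ range b, (univ.filter fun μ : Mon W k => c < nx W t n μ.1).card := by
  classical
  rcases t with _ | _
  · rw [← count_false hb, ← Matrix.rank_transpose]
    rw [gen_rank (k := k + 1) (i := fun ν : SMon W false k => sw ν.1)
      (j := fun μ : Mon W k => sw μ.1)]
    · simp only [scR_sw]
    · intro μ ν h
      exact Subtype.ext (sw_inj h)
    · intro x hx
      refine ⟨⟨sw x, ?_⟩, sw_sw x⟩
      rw [if_neg (by decide)]
      exact (dg_sw x).trans hx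
    · intro x hx
      exact ⟨⟨sw x, (dg_sw x).trans (Nat.succ_injective hx)⟩, sw_sw x⟩
    · intro μ
      rw [dg_sw]
      exact congrArg Nat.succ μ.2
    · intro x y h
      rw [← sw_add_single] at h
      have h1 := sw_inj h
      show (if Rl false x.1.1 y.1.1 y.2.1 x.2.1 then (1 : K) else 0) = 1
      rw [if_pos]
      unfold Rl
      rw [if_neg (by decide)]
      exact h1
    · intro x y h
      rw [← sw_add_single] at h
      show (if Rl false x.1.1 y.1.1 y.2.1 x.2.1 then (1 : K) else 0) = 0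
      rw [if_neg]
      unfold Rl
      rw [if_neg (by decide)]
      intro h1
      exact h (by rw [h1])
  · have h1 : ∀ μ : Mon W k, nx W true n μ.1 = scR μ.1 n := fun μ => if_pos rfl
    simp only [h1]
    rw [← count_true]
    rw [gen_rank (k := k) (i := fun μ : Mon W k => μ.1) (j := fun ν : SMon W true k => ν.1)]
    · intro μ ν h
      exact Subtype.ext h
    · intro x hx
      exact ⟨⟨x, hx⟩, rfl⟩
    · intro x hx
      exact ⟨⟨x, by rw [if_pos rfl]; exact hx⟩, rfl⟩
    · intro ν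
      have h2 := ν.2
      rw [if_pos rfl] at h2
      exact h2
    · intro x y h
      show (if Rl true y.1.1 x.1.1 x.2.1 y.2.1 then (1 : K) else 0) = 1
      rw [if_pos]
      unfold Rl
      rw [if_pos rfl]
      exact h
    · intro x y h
      show (if Rl true y.1.1 x.1.1 x.2.1 y.2.1 then (1 : K) else 0) = 0
      rw [if_neg]
      unfold Rl
      rw [if_pos rfl]
      exact h

end Pool.XDB
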