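import Pool.Agent.XDB.Step
import Pool.Agent.XDB.Gen

/-!
# XDB: the rank of the matrix of a list of blocks
-/

set_option autoImplicit false

namespace Pool.XDB

open Finset Pool.XD

/-- the weight: the sum of the left vertices -/
def wta {W : ℕ} (μ : Ex W) : ℤ := ∑ p : Fin W × Fin W, (p.1.1 : ℤ) * (μ p : ℤ)

theorem wta_add_single {W : ℕ} (μ : Ex W) (a b : Fin W) :
    wta (μ + Pi.single (a, b) 1) = wta μ + (a.1 : ℤ) := by
  classical
  unfold wta
  simp only [Pi.add_apply, Nat.cast_add, mul_add, sum_add_distrib]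
  congr 1
  rw [Finset.sum_eq_single (a, b)]
  · simp
  · intro p _ hp
    rw [Pi.single_apply, if_neg hp]
    simp
  · intro h
    exact absurd (mem_univ _) h

/-- the key of the rows and the columns of a list of blocks -/
def keyI (W : ℕ) : (l : List (Bool × ℕ)) → RI W l → ℤ
  | [], _ => 0
  | p :: _, x => if p.1 then -wta x.1.1 else wta x.1.1

/-- the key of the columns of a list of blocks -/
def keyJ (W : ℕ) : (l : List (Bool × ℕ)) → CI W l → ℤ
  | [], _ => 0
  | p :: _, y => if p.1 then -wta y.1.1 else wta y.1.1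

theorem key_eq {K : Type} [CommRing K] {W : ℕ} (l : List (Bool × ℕ)) (b : Fin W) (i : RI W l)
    (j : CI W l) (h : Mx K W l b i j ≠ 0) : keyI W l i = keyJ W l j - (b.1 : ℤ) := by
  classical
  rcases l with _ | ⟨⟨t, k⟩, l⟩
  · unfold Mx at h
    have hb : b.1 = 0 := by
      by_contra hcon
      exact h (if_neg hcon)
    simp [keyI, keyJ, hb]
  · have h1 : ∃ b', Rl t b b' i.1.1 j.1.1 := by
      by_contra hcon
      push Not at hcon
      apply h
      unfold Mx
      apply sum_eq_zero
      intro b' _
      rw [if_neg (hcon b'), zero_mul]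
    obtain ⟨b', hb'⟩ := h1
    unfold Rl at hb'
    rcases t with _ | _
    · simp only [Bool.false_eq_true, if_false] at hb'
      simp only [keyI, keyJ, Bool.false_eq_true, if_false]
      rw [hb', wta_add_single]
      ring
    · simp only [if_true] at hb'
      simp only [keyI, keyJ, if_true]
      rw [hb', wta_add_single]
      ring

theorem scR_le {W : ℕ} (μ : Ex W) (n : ℕ) : scR μ n ≤ n := by
  induction n with
  | zero => exact le_rfl
  | succ n ih =>
    unfold scR
    split_ifs <;> omega

theorem nx_le {W : ℕ} (t : Bool) {n : ℕ} (hn : n ≤ W) (μ : Ex W) : nx W t n μ ≤ W := by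
  unfold nx
  split_ifs
  · exact (scR_le μ n).trans hn
  · exact (card_filter_le _ _).trans (card_range _).le

/-- Abel summation -/
theorem sum_incr (R : ℕ → ℕ) (hR0 : R 0 = 0) (hR : Monotone R) {m W : ℕ} (hm : m ≤ W) :
    ∑ b ∈ range W, (if b < m then 1 else 0) * (R (b + 1) - R b) = R m := by
  have h1 : ∀ m, ∑ b ∈ range m, (R (b + 1) - R b) = R m := by
    intro m
    induction m with
    | zero => simp [hR0]
    | succ m ih =>
      rw [sum_range_succ, ih]
      have := hR (Nat.le_succ m)
      simp only [Nat.succ_eq_add_one] at this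
      omega
  simp only [ite_mul, one_mul, zero_mul]
  rw [← sum_filter]
  have h2 : (range W).filter (fun b => b < m) = range m := by
    ext b
    simp only [mem_filter, mem_range]
    omega
  rw [h2, h1]

theorem stC_rank_mono {K : Type} [Field K] {W : ℕ} {I J : Type} [Fintype I] [Fintype J]
    (B : Fin W → Matrix I J K) : Monotone fun n => (stC B n).rank := by
  intro m n hmn
  have h1 : stC B m = (stC B n).submatrix id
      (fun x : {b : Fin W // b.1 < m} × J => ((⟨x.1.1, x.1.2.trans_le hmn⟩ :
        {b : Fin W // b.1 < n}), x.2)) := rfl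
  show (stC B m).rank ≤ (stC B n).rank
  rw [h1]
  exact Matrix.rank_submatrix_le _ _ _

theorem stC_zero {K : Type} [Field K] {W : ℕ} {I J : Type} [Fintype J]
    (B : Fin W → Matrix I J K) : (stC B 0).rank = 0 := by
  have h1 : stC B 0 = 0 := by
    ext i x
    exact absurd x.1.2 (Nat.not_lt_zero _)
  rw [h1, Matrix.rank_zero]

/-- **ROW C**: the rank of the matrix of a list of blocks -/
theorem chain_rank {K : Type} [Field K] {W : ℕ} (l : List (Bool × ℕ)) (n : ℕ) (hn : n ≤ W) :
    GG W l n ≤ (stC (Mx K W l) n).rank := by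
  classical
  induction l generalizing n with
  | nil =>
    unfold GG
    split_ifs with h0
    · exact Nat.zero_le _
    · have h1 : ((stC (Mx K W []) n).submatrix (fun _ : Unit => (() : RI W []))
          (fun _ : Unit => ((⟨⟨0, by omega⟩, by show 0 < n; omega⟩, ()) :
            {b : Fin W // b.1 < n} × CI W []))) = 1 := by
        ext i j
        simp [stC, Mx]
      have h2 := Matrix.rank_submatrix_le (stC (Mx K W []) n) (fun _ : Unit => (() : RI W []))
          (fun _ : Unit => ((⟨⟨0, by omega⟩, by show 0 < n; omega⟩, ()) :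
            {b : Fin W // b.1 < n} × CI W []))
      rw [h1, Matrix.rank_one] at h2
      simpa using h2
  | cons p l ih =>
    obtain ⟨A, hA⟩ : ∃ A, A = Am K W p.1 p.2 n := ⟨_, rfl⟩
    obtain ⟨B, hB⟩ : ∃ B, B = Mx K W l := ⟨_, rfl⟩
    have h1 : comb A B = (stC (Mx K W (p :: l)) n).submatrix id
        (fun y : ({a : Fin W // a.1 < n} × SMon W p.1 p.2) × CI W l => (y.1.1, (y.1.2, y.2))) := by
      rw [hA, hB]
      ext x y
      rfl
    have h2 : (comb A B).rank ≤ (stC (Mx K W (p :: l)) n).rank := by
      rw [h1]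
      exact Matrix.rank_submatrix_le _ _ _
    refine le_trans ?_ h2
    refine le_trans ?_ (step_rank A B (keyI W l) (keyJ W l) (by
      rw [hB]
      exact fun b i j h => key_eq l b i j h))
    have h3 : ∀ b ∈ range W, ((stR A (b + 1)).rank - (stR A b).rank) *
        ((stC B (b + 1)).rank - (stC B b).rank) =
        ∑ μ : Mon W p.2, (if b < nx W p.1 n μ.1 then 1 else 0) *
          ((stC B (b + 1)).rank - (stC B b).rank) := by
      intro b hb
      rw [mem_range] at hb
      rw [← sum_mul]
      congr 1
      rw [hA, rank_Am p.1 p.2 n (b + 1) hn hb, rank_Am p.1 p.2 n b hn hb.le, sum_range_succ,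
        Nat.add_sub_cancel_left, card_filter]
    rw [sum_congr rfl h3, sum_comm]
    show ∑ μ : Mon W p.2, GG W l (nx W p.1 n μ.1) ≤ _
    apply sum_le_sum
    intro μ _
    have h4 := nx_le p.1 hn μ.1
    rw [sum_incr (fun m => (stC B m).rank) (stC_zero B) (stC_rank_mono B) h4, hB]
    exact ih _ h4

end Pool.XDB
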