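import Pool.Agent.XDB.Defs
import Pool.Agent.XDA.Val
import Pool.Agent.XD.Rank

/-!
# XDB, row H: valuations and the lift to characteristic zero
-/

set_option autoImplicit false
set_option linter.unusedSectionVars false
set_option linter.unusedVariables false

namespace Pool.XDB

open Finset Pool.XD Pool.CD Pool.CDep Pool.Agent.Helper87.D3 Pool.Agent.Helper41.CD

/-- an integer which does not vanish in the residue field is a unit of the valuation ring -/
theorem v_int_eq_one {F Γ : Type} [Field F] [LinearOrderedCommGroupWithZero Γ] (v : Valuation F Γ)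
    (z : ℤ) (hz : (z : IsLocalRing.ResidueField v.valuationSubring) ≠ 0) : v (z : F) = 1 := by
  have h1 : v (z : F) ≤ 1 := v_intCast_le z
  rcases h1.lt_or_eq with h | h
  · exfalso
    apply hz
    have h2 : (z : IsLocalRing.ResidueField v.valuationSubring) =
        IsLocalRing.residue v.valuationSubring (z : v.valuationSubring) := by
      rw [map_intCast]
    rw [h2, IsLocalRing.residue_eq_zero_iff]
    have h3 := (v.valuationSubring.valuation_lt_one_iff (z : v.valuationSubring)).2
    apply h3
    have h4 : ((z : v.valuationSubring) : F) = (z : F) := by push_cast; rfl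
    rw [h4]
    have h5 := Valuation.isEquiv_valuation_valuationSubring v
    rw [← map_one v] at h
    have h6 := (h5.lt_iff_lt (x := (z : F)) (y := 1)).1 h
    rwa [map_one] at h6
  · exact h

/-- a regular minor of size at least `N` whose determinant is a unit -/
theorem exists_unit_minor {F Γ : Type} [Field F] [LinearOrderedCommGroupWithZero Γ]
    (v : Valuation F Γ) {m n : Type} [Fintype m] [Fintype n] (B : Matrix m n ℤ) (N : ℕ)
    (hN : ∀ (κ : Type) [Field κ], N ≤ (B.map (Int.castRingHom κ)).rank) :
    ∃ (r : ℕ) (I : Fin r → m) (J : Fin r → n), N ≤ r ∧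
      v (((B.submatrix I J).det : ℤ) : F) = 1 := by
  obtain ⟨I, J, hIJ⟩ := exists_minor
    (B.map (Int.castRingHom (IsLocalRing.ResidueField v.valuationSubring))) rfl
  refine ⟨_, I, J, hN _, v_int_eq_one v _ fun h0 => hIJ ?_⟩
  have h1 : (B.map (Int.castRingHom (IsLocalRing.ResidueField v.valuationSubring))).submatrix I J =
      (Int.castRingHom (IsLocalRing.ResidueField v.valuationSubring)).mapMatrix
        (B.submatrix I J) := rfl
  rw [h1, ← RingHom.map_det]
  exact h0

open Classical in
theorem opM_map {L : Type} [Fintype L] (ty : L → Bool) {A B : Type} [CommRing A] [CommRing B]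
    (ψ : A →+* B) (P : MvPolynomial L A) (a b a' b' : ℕ) :
    opM ty (MvPolynomial.map ψ P) a b a' b' = (opM ty P a b a' b').map ψ := by
  ext α γ
  show (if Adm ty α.1 γ.1 then MvPolynomial.coeff (gap ty α.1 γ.1) (MvPolynomial.map ψ P) else 0) =
    ψ (if Adm ty α.1 γ.1 then MvPolynomial.coeff (gap ty α.1 γ.1) P else 0)
  split_ifs
  · rw [MvPolynomial.coeff_map]
  · rw [map_zero]

/-- **ROW H** (valuations and the lift to characteristic zero) -/
theorem exists_lift {F Γ : Type} [Field F] [LinearOrderedCommGroupWithZero Γ] (v : Valuation F Γ)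
    {n T m w0 w S k : ℕ} (f : Fin T → Fin m → MvPolynomial (Fin n × Fin n) F)
    (hf : ∀ i j, f i j ∈ Cls w0 w S k)
    (hv : ∀ μ, v (MvPolynomial.coeff μ ((∑ i, ∏ j, f i j) - permP n F)) < 1)
    {L : Type} [Fintype L] (ty : L → Bool) (f0 : MvPolynomial L ℤ) {r E LU LV LU' LV' N : ℕ}
    (hcf : ∀ c : L → F, cf r E (PhiX ty c (MvPolynomial.map (Int.castRingHom F) f0)) =
      MvPolynomial.map (Int.castRingHom F) f0)
    (φ : Fin n × Fin n → MvPolynomial L ℤ) (hφ : ∀ p, (φ p).totalDegree ≤ 1)
    (hφ0 : MvPolynomial.aeval φ (permP n ℤ) = f0)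
    (hN : ∀ (κ : Type) [Field κ],
      N ≤ (opM ty (MvPolynomial.map (Int.castRingHom κ) f0) LU LV LU' LV').rank) :
    ∃ f' : Fin T → Fin m → MvPolynomial L (LField F), (∀ i j, f' i j ∈ Cls w0 w S k) ∧
      ∀ c : L → ℕ, N ≤ (opM ty (cf r E (PhiX ty (fun l => (c l : LField F))
        (∑ i, ∏ j, f' i j))) LU LV LU' LV').rank := by
  classical
  -- the substitution over every ring
  let φR : ∀ (A : Type) [CommRing A], Fin n × Fin n → MvPolynomial L A :=
    fun A _ p => MvPolynomial.map (Int.castRingHom A) (φ p)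
  have hφR : ∀ (A : Type) [CommRing A] (p : Fin n × Fin n), (φR A p).totalDegree ≤ 1 :=
    fun A _ p => (Finset.sup_mono (MvPolynomial.support_map_subset _ _)).trans (hφ p)
  have hφmap : ∀ (A B : Type) [CommRing A] [CommRing B] (ψ : A →+* B) (P : MvPolynomial _ A),
      MvPolynomial.map ψ (MvPolynomial.aeval (φR A) P) =
        MvPolynomial.aeval (φR B) (MvPolynomial.map ψ P) := by
    intro A B _ _ ψ P
    have h9 : (fun p => MvPolynomial.map ψ (φR A p)) = φR B := by
      funext p
      show MvPolynomial.map ψ (MvPolynomial.map (Int.castRingHom A) (φ p)) =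
        MvPolynomial.map (Int.castRingHom B) (φ p)
      have h8 : ψ.comp (Int.castRingHom A) = Int.castRingHom B := RingHom.ext_int _ _
      rw [MvPolynomial.map_map, h8]
    rw [map_aeval_eq, h9]
  -- the matrix over every ring
  let Mt : ∀ (A : Type) [CommRing A], (L → ℕ) → MvPolynomial L A →
      Matrix (Box ty LU LV) (Box ty LU' LV') A := fun A _ c P =>
    opM ty (cf r E (PhiX ty (fun l => (c l : A)) P)) LU LV LU' LV'
  have hMt : ∀ (A B : Type) [CommRing A] [CommRing B] (ψ : A →+* B) (c : L → ℕ)
      (P : MvPolynomial L A), Mt B c (MvPolynomial.map ψ P) = (Mt A c P).map ψ := by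
    intro A B _ _ ψ c P
    show opM ty (cf r E (PhiX ty (fun l => (c l : B)) (MvPolynomial.map ψ P))) LU LV LU' LV' =
      (opM ty (cf r E (PhiX ty (fun l => (c l : A)) P)) LU LV LU' LV').map ψ
    rw [Pool.XDA.cf_PhiX_map, opM_map]
  -- the minor
  obtain ⟨s, I, J, hs, hIJ⟩ := exists_unit_minor v (opM ty f0 LU LV LU' LV') N
    (fun κ _ => by rw [← opM_map]; exact hN κ)
  -- over `F`
  have hF : ∀ c : L → ℕ,
      ((Mt F c (MvPolynomial.aeval (φR F) (∑ i, ∏ j, f i j))).submatrix I J).det ≠ 0 := by
    intro c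
    set err := (∑ i, ∏ j, f i j) - permP n F with herr
    have e0 : (∑ i, ∏ j, f i j) = permP n F + err := by rw [herr]; ring
    have e1 : MvPolynomial.aeval (φR F) (permP n F) =
        MvPolynomial.map (Int.castRingHom F) f0 := by
      rw [← map_permP (Int.castRingHom F), ← hφmap ℤ F (Int.castRingHom F) (permP n ℤ)]
      have : φR ℤ = φ := by
        funext p
        show MvPolynomial.map (Int.castRingHom ℤ) (φ p) = φ p
        have h3 : Int.castRingHom ℤ = RingHom.id ℤ := RingHom.ext_int _ _
        rw [h3, MvPolynomial.map_id]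
      rw [this, hφ0]
    have e2 : ∀ α γ, v (Mt F c (MvPolynomial.aeval (φR F) (∑ i, ∏ j, f i j)) α γ -
        ((opM ty f0 LU LV LU' LV' α γ : ℤ) : F)) < 1 := by
      intro α γ
      rw [e0, map_add, e1]
      show v ((if Adm ty α.1 γ.1 then MvPolynomial.coeff (gap ty α.1 γ.1)
        (cf r E (PhiX ty (fun l => (c l : F)) (MvPolynomial.map (Int.castRingHom F) f0 +
          MvPolynomial.aeval (φR F) err))) else 0) -
        (((if Adm ty α.1 γ.1 then MvPolynomial.coeff (gap ty α.1 γ.1) f0 else 0 : ℤ)) : F)) < 1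
      rw [map_add, cf_add, hcf]
      split_ifs
      · rw [MvPolynomial.coeff_add, MvPolynomial.coeff_map]
        have e3 : PhiX ty (fun l => (c l : F)) (MvPolynomial.aeval (φR F) err) =
            MvPolynomial.aeval (fun p => PhiX ty (fun l => (c l : F)) (φR F p)) err := by
          rw [MvPolynomial.comp_aeval_apply]
        have e4 := v_coeff_cf_aeval_lt (v := v) err hv
          (fun p => PhiX ty (fun l => (c l : F)) (φR F p))
          (fun p => Pool.XDA.intSP_PhiX ty v c (φ p)) r E (gap ty α.1 γ.1)
        rw [← e3] at e4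
        have e5 : (Int.castRingHom F) (MvPolynomial.coeff (gap ty α.1 γ.1) f0) +
            MvPolynomial.coeff (gap ty α.1 γ.1) (cf r E (PhiX ty (fun l => (c l : F))
              (MvPolynomial.aeval (φR F) err))) -
            ((MvPolynomial.coeff (gap ty α.1 γ.1) f0 : ℤ) : F) =
            MvPolynomial.coeff (gap ty α.1 γ.1) (cf r E (PhiX ty (fun l => (c l : F))
              (MvPolynomial.aeval (φR F) err))) := by
          rw [eq_intCast]
          ring
        rw [e5]
        exact e4
      · rw [Int.cast_zero, sub_zero, map_zero]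
        exact zero_lt_one
    intro h0
    have h1 := v_det_sub_lt v
      ((Mt F c (MvPolynomial.aeval (φR F) (∑ i, ∏ j, f i j))).submatrix I J)
      (((opM ty f0 LU LV LU' LV').submatrix I J).map (Int.castRingHom F))
      (fun i j => v_intCast_le _) (fun i j => e2 _ _)
    have h2 : (((opM ty f0 LU LV LU' LV').submatrix I J).map (Int.castRingHom F)).det =
        ((((opM ty f0 LU LV LU' LV').submatrix I J).det : ℤ) : F) := by
      rw [← RingHom.mapMatrix_apply, ← RingHom.map_det]
      rfl
    rw [h0, h2, zero_sub, Valuation.map_neg, hIJ] at h1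
    exact lt_irrefl _ h1
  -- the lift
  choose G hG hGf using fun i j => cls_lift (proj F) (proj_surjective F) k (hf i j)
  refine ⟨fun i j => MvPolynomial.aeval (φR (LField F))
    (MvPolynomial.map (algebraMap (LRing F) (LField F)) (G i j)), fun i j =>
      Pool.XD.cls_aeval _ (hφR (LField F)) (cls_map _ k (hG i j)), fun c => ?_⟩
  have h3 : (∑ i, ∏ j, MvPolynomial.aeval (φR (LField F))
      (MvPolynomial.map (algebraMap (LRing F) (LField F)) (G i j))) =
      MvPolynomial.map (algebraMap (LRing F) (LField F))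
        (MvPolynomial.aeval (φR (LRing F)) (∑ i, ∏ j, G i j)) := by
    rw [hφmap]
    simp only [map_sum, map_prod]
  have h4 : MvPolynomial.map (proj F) (MvPolynomial.aeval (φR (LRing F)) (∑ i, ∏ j, G i j)) =
      MvPolynomial.aeval (φR F) (∑ i, ∏ j, f i j) := by
    rw [hφmap]
    simp only [map_sum, map_prod, hGf]
  have h5 : ((Mt (LRing F) c (MvPolynomial.aeval (φR (LRing F))
      (∑ i, ∏ j, G i j))).submatrix I J).det ≠ 0 := by
    intro h0
    have h6 := hF c
    rw [← h4, hMt, Matrix.submatrix_map, ← RingHom.mapMatrix_apply, ← RingHom.map_det, h0,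
      map_zero] at h6
    exact h6 rfl
  refine hs.trans (le_rank_of_minor _ I J ?_)
  show ((Mt (LField F) c _).submatrix I J).det ≠ 0
  rw [h3, hMt, Matrix.submatrix_map, ← RingHom.mapMatrix_apply, ← RingHom.map_det]
  intro h0
  exact h5 (IsFractionRing.injective (LRing F) (LField F) (by rw [h0, map_zero]))

end Pool.XDB
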