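import Pool.Agent.XDB.Chain
import Pool.Agent.XD.Rank

/-!
# XDB: the matrix of the chain polynomial is the direct sum over the block degrees
-/

set_option autoImplicit false

namespace Pool.XDB

open Finset Pool.XD

section rk

/-- the rank of a block diagonal matrix -/
theorem sum_rank_le {K : Type} [Field K] {ι R C : Type} [Fintype ι] [Fintype R] [Fintype C]
    (M : Matrix R C K) {Rk Ck : ι → Type} [∀ i, Fintype (Rk i)] [∀ i, Fintype (Ck i)]
    (ρ : ∀ i, Rk i → R) (γ : ∀ i, Ck i → C)
    (hoff : ∀ i j, i ≠ j → ∀ x y, M (ρ i x) (γ j y) = 0) :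
    ∑ i, (M.submatrix (ρ i) (γ i)).rank ≤ M.rank := by
  classical
  choose I J hdet using fun i => exists_minor (M.submatrix (ρ i) (γ i)) rfl
  obtain ⟨N, hN⟩ : ∃ N : Matrix (Σ i, Fin (M.submatrix (ρ i) (γ i)).rank)
      (Σ i, Fin (M.submatrix (ρ i) (γ i)).rank) K,
      N = M.submatrix (fun x => ρ x.1 (I x.1 x.2)) (fun x => γ x.1 (J x.1 x.2)) := ⟨_, rfl⟩
  have hN' : N = Matrix.blockDiagonal' (fun i =>
      (M.submatrix (ρ i) (γ i)).submatrix (I i) (J i)) := by
    rw [hN]
    ext ⟨i, a⟩ ⟨j, b⟩
    by_cases h : i = j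
    · subst h
      rw [Matrix.blockDiagonal'_apply_eq]
      rfl
    · rw [Matrix.blockDiagonal'_apply_ne _ _ _ h]
      exact hoff i j h _ _
  have hunit : IsUnit N := by
    have h1 : N * Matrix.blockDiagonal' (fun i =>
        ((M.submatrix (ρ i) (γ i)).submatrix (I i) (J i))⁻¹) = 1 := by
      rw [hN', ← Matrix.blockDiagonal'_mul]
      have h2 : (fun i => (M.submatrix (ρ i) (γ i)).submatrix (I i) (J i) *
          ((M.submatrix (ρ i) (γ i)).submatrix (I i) (J i))⁻¹) = fun i => 1 := by
        funext i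
        exact Matrix.mul_nonsing_inv _ (isUnit_iff_ne_zero.2 (hdet i))
      rw [h2]
      exact Matrix.blockDiagonal'_one
    exact IsUnit.of_mul_eq_one _ h1
  have h3 := Matrix.rank_of_isUnit N hunit
  rw [Fintype.card_sigma] at h3
  simp only [Fintype.card_fin] at h3
  rw [← h3, hN]
  exact Matrix.rank_submatrix_le _ _ _

end rk

section paths

variable {K : Type} [CommRing K] {W : ℕ}

/-- the sum over the paths of length `m` from the state `a` to the state `0` -/
def PSf (Q : ℕ → Fin W → Fin W → K) : ℕ → ℕ → Fin W → K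
  | 0, _, a => if a.1 = 0 then 1 else 0
  | m + 1, i, a => ∑ b, Q i a b * PSf Q m (i + 1) b

theorem PSf_congr {Q Q' : ℕ → Fin W → Fin W → K} (m : ℕ) : ∀ (i : ℕ) (a : Fin W),
    (∀ j, i ≤ j → j < i + m → Q j = Q' j) → PSf Q m i a = PSf Q' m i a := by
  induction m with
  | zero =>
    intro i a _
    rfl
  | succ m ih =>
    intro i a h
    unfold PSf
    apply sum_congr rfl
    intro b _
    rw [h i le_rfl (by omega), ih (i + 1) b fun j h1 h2 => h j (by omega) (by omega)]

theorem PSf_ne {Q : ℕ → Fin W → Fin W → K} (m : ℕ) : ∀ (i : ℕ) (a : Fin W),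
    PSf Q m i a ≠ 0 → ∀ j, i ≤ j → j < i + m → ∃ a b, Q j a b ≠ 0 := by
  induction m with
  | zero =>
    intro i a _ j h1 h2
    omega
  | succ m ih =>
    intro i a h j h1 h2
    unfold PSf at h
    obtain ⟨b, _, hb⟩ := exists_ne_zero_of_sum_ne_zero h
    rcases Nat.eq_or_lt_of_le h1 with h3 | h3
    · subst h3
      exact ⟨a, b, left_ne_zero_of_mul hb⟩
    · exact ih (i + 1) b (right_ne_zero_of_mul hb) j h3 (by omega)

theorem sum_words_from (Q : ℕ → Fin W → Fin W → K) (m : ℕ) : ∀ (j : ℕ) (a : Fin W),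
    ∑ s : Fin m → Fin W, (∏ i : Fin m, Q (j + i)
        ((Fin.cons a s : Fin (m + 1) → Fin W) i.castSucc)
        ((Fin.cons a s : Fin (m + 1) → Fin W) i.succ)) *
      (if ((Fin.cons a s : Fin (m + 1) → Fin W) (Fin.last m)).1 = 0 then 1 else 0) =
      PSf Q m j a := by
  induction m with
  | zero =>
    intro j a
    rw [Fintype.sum_unique]
    unfold PSf
    rw [univ_eq_empty, prod_empty, one_mul]
    rfl
  | succ m ih =>
    intro j a
    have e1 := (Fin.consEquiv (fun _ : Fin (m + 1) => Fin W)).sum_comp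
      (fun s : Fin (m + 1) → Fin W => (∏ i : Fin (m + 1), Q (j + i)
        ((Fin.cons a s : Fin (m + 1 + 1) → Fin W) i.castSucc)
        ((Fin.cons a s : Fin (m + 1 + 1) → Fin W) i.succ)) *
      (if ((Fin.cons a s : Fin (m + 1 + 1) → Fin W) (Fin.last (m + 1))).1 = 0 then (1 : K) else 0))
    rw [← e1, Fintype.sum_prod_type]
    unfold PSf
    refine sum_congr rfl fun b _ => ?_
    rw [← ih (j + 1) b, mul_sum]
    refine sum_congr rfl fun s _ => ?_
    rw [Fin.prod_univ_succ, mul_assoc]
    refine congrArg₂ (· * ·) ?_ (congrArg₂ (· * ·) ?_ ?_)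
    · rfl
    · apply prod_congr rfl
      intro i _
      have h1 : j + ((i.succ : Fin (m + 1)) : ℕ) = j + 1 + (i : ℕ) := by
        rw [Fin.val_succ]
        omega
      rw [h1]
      rfl
    · rfl

theorem sum_words_all (hW : 0 < W) (Q : ℕ → Fin W → Fin W → K) (d : ℕ) :
    ∑ s : Fin (d + 1) → Fin W, (if (s 0).1 = 0 ∧ (s (Fin.last d)).1 = 0 then
      ∏ i : Fin d, Q i (s i.castSucc) (s i.succ) else 0) = PSf Q d 0 ⟨0, hW⟩ := by
  have e1 := (Fin.consEquiv (fun _ : Fin (d + 1) => Fin W)).sum_comp
    (fun s : Fin (d + 1) → Fin W => (if (s 0).1 = 0 ∧ (s (Fin.last d)).1 = 0 then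
      ∏ i : Fin d, Q i (s i.castSucc) (s i.succ) else 0))
  rw [← e1, Fintype.sum_prod_type, sum_eq_single (⟨0, hW⟩ : Fin W), ← sum_words_from Q d 0]
  · refine sum_congr rfl fun s _ => ?_
    have h0 : (((Fin.consEquiv (fun _ : Fin (d + 1) => Fin W)) (⟨0, hW⟩, s)) 0).1 = 0 := rfl
    by_cases h1 : ((Fin.cons (⟨0, hW⟩ : Fin W) s : Fin (d + 1) → Fin W) (Fin.last d)).1 = 0
    · rw [if_pos h1, mul_one]
      refine (if_pos ⟨h0, h1⟩).trans ?_
      apply prod_congr rfl
      intro i _
      rw [Nat.zero_add]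
      rfl
    · rw [if_neg h1, mul_zero]
      exact if_neg fun h => h1 h.2
  · intro b _ hb
    apply sum_eq_zero
    intro s _
    rw [if_neg]
    rintro ⟨h1, -⟩
    exact hb (Fin.ext h1)
  · intro h
    exact absurd (mem_univ _) h

end paths

section lists

variable {W : ℕ} (ty : ℕ → Bool) (κ : ℕ → ℕ)

/-- the list of `m` blocks from the block `i` -/
def lst : ℕ → ℕ → List (Bool × ℕ)
  | 0, _ => []
  | m + 1, i => (ty i, κ i) :: lst m (i + 1)

/-- the exponents of the block `j` of a row -/
def row : (m i : ℕ) → RI W (lst ty κ m i) → ℕ → Ex W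
  | 0, _, _ => fun _ => 0
  | m + 1, i, x => fun j => if j = i then (show Mon W (κ i) × RI W (lst ty κ m (i + 1)) from x).1.1
      else row m (i + 1) (show Mon W (κ i) × RI W (lst ty κ m (i + 1)) from x).2 j

/-- the exponents of the block `j` of a column -/
def col : (m i : ℕ) → CI W (lst ty κ m i) → ℕ → Ex W
  | 0, _, _ => fun _ => 0
  | m + 1, i, x => fun j => if j = i then
      (show SMon W (ty i) (κ i) × CI W (lst ty κ m (i + 1)) from x).1.1
      else col m (i + 1) (show SMon W (ty i) (κ i) × CI W (lst ty κ m (i + 1)) from x).2 j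

theorem row_self (m i : ℕ) (x : Mon W (κ i)) (x' : RI W (lst ty κ m (i + 1))) :
    row ty κ (m + 1) i (x, x') i = x.1 := by
  show (if i = i then _ else _) = _
  rw [if_pos rfl]

theorem row_ne (m i : ℕ) (x : Mon W (κ i)) (x' : RI W (lst ty κ m (i + 1))) {j : ℕ} (h : j ≠ i) :
    row ty κ (m + 1) i (x, x') j = row ty κ m (i + 1) x' j := by
  show (if j = i then _ else _) = _
  rw [if_neg h]

theorem col_self (m i : ℕ) (x : SMon W (ty i) (κ i)) (x' : CI W (lst ty κ m (i + 1))) :
    col ty κ (m + 1) i (x, x') i = x.1 := by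
  show (if i = i then _ else _) = _
  rw [if_pos rfl]

theorem col_ne (m i : ℕ) (x : SMon W (ty i) (κ i)) (x' : CI W (lst ty κ m (i + 1))) {j : ℕ}
    (h : j ≠ i) : col ty κ (m + 1) i (x, x') j = col ty κ m (i + 1) x' j := by
  show (if j = i then _ else _) = _
  rw [if_neg h]

open Classical in
theorem Mx_eq {K : Type} [CommRing K] (m : ℕ) : ∀ (i : ℕ) (a : Fin W) (x : RI W (lst ty κ m i))
    (y : CI W (lst ty κ m i)), Mx K W (lst ty κ m i) a x y =
      PSf (fun j a b => if Rl (ty j) a b (row ty κ m i x j) (col ty κ m i y j) then 1 else 0)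
        m i a := by
  induction m with
  | zero =>
    intro i a x y
    rfl
  | succ m ih =>
    rintro i a ⟨x, x'⟩ ⟨y, y'⟩
    show ∑ b : Fin W, (if Rl (ty i) a b x.1 y.1 then 1 else 0) *
      Mx K W (lst ty κ m (i + 1)) b x' y' = _
    unfold PSf
    refine sum_congr rfl fun b _ => ?_
    rw [row_self, col_self, ih]
    congr 1
    apply PSf_congr
    intro j h1 _
    funext a b
    rw [row_ne ty κ m i x x' (by omega), col_ne ty κ m i y y' (by omega)]

theorem row_sum (m : ℕ) : ∀ (i : ℕ) (x : RI W (lst ty κ m i)) (j : ℕ), i ≤ j → j < i + m →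
    ∑ p, row ty κ m i x j p = κ j := by
  induction m with
  | zero =>
    intro i x j h1 h2
    omega
  | succ m ih =>
    rintro i ⟨x, x'⟩ j h1 h2
    by_cases h : j = i
    · subst h
      rw [row_self]
      exact x.2
    · rw [row_ne ty κ m i x x' h]
      exact ih (i + 1) x' j (by omega) (by omega)

theorem col_sum (m : ℕ) : ∀ (i : ℕ) (x : CI W (lst ty κ m i)) (j : ℕ), i ≤ j → j < i + m →
    if ty j then ∑ p, col ty κ m i x j p + 1 = κ j else ∑ p, col ty κ m i x j p = κ j + 1 := by
  induction m with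
  | zero =>
    intro i x j h1 h2
    omega
  | succ m ih =>
    rintro i ⟨x, x'⟩ j h1 h2
    by_cases h : j = i
    · subst h
      rw [col_self]
      exact x.2
    · rw [col_ne ty κ m i x x' h]
      exact ih (i + 1) x' j (by omega) (by omega)

theorem row_exists (β : ℕ → Ex W) (m : ℕ) : ∀ i : ℕ,
    (∀ j, i ≤ j → j < i + m → ∑ p, β j p = κ j) →
    ∃ x : RI W (lst ty κ m i), ∀ j, i ≤ j → j < i + m → row ty κ m i x j = β j := by
  induction m with
  | zero =>
    intro i _
    exact ⟨(), fun j h1 h2 => by omega⟩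
  | succ m ih =>
    intro i h
    obtain ⟨x', hx'⟩ := ih (i + 1) fun j h1 h2 => h j (by omega) (by omega)
    refine ⟨((⟨β i, h i le_rfl (by omega)⟩ : Mon W (κ i)), x'), fun j h1 h2 => ?_⟩
    by_cases hj : j = i
    · subst hj
      rw [row_self]
    · rw [row_ne ty κ m i _ x' hj]
      exact hx' j (by omega) (by omega)

/-- the population at the end of a list of blocks -/
def popl (W : ℕ) : (l : List (Bool × ℕ)) → ℕ → RI W l → ℕ
  | [], n, _ => n
  | p :: l, n, x => popl W l (nx W p.1 n x.1.1) x.2

theorem GG_eq (l : List (Bool × ℕ)) : ∀ n : ℕ,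
    GG W l n = Fintype.card {x : RI W l // 1 ≤ popl W l n x} := by
  classical
  induction l with
  | nil =>
    intro n
    unfold GG
    split_ifs with h
    · subst h
      rw [eq_comm, Fintype.card_eq_zero_iff]
      exact ⟨fun x => by
        have := x.2
        exact absurd this (by show ¬ 1 ≤ 0; omega)⟩
    · rw [eq_comm, Fintype.card_eq_one_iff]
      exact ⟨⟨(), by show 1 ≤ n; omega⟩, fun x => rfl⟩
  | cons p l ih =>
    intro n
    show ∑ μ : Mon W p.2, GG W l (nx W p.1 n μ.1) = _
    have h1 : Fintype.card {x : RI W (p :: l) // 1 ≤ popl W (p :: l) n x} =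
        Fintype.card (Σ μ : Mon W p.2, {x : RI W l // 1 ≤ popl W l (nx W p.1 n μ.1) x}) := by
      apply Fintype.card_congr
      refine ⟨fun x => ⟨x.1.1, ⟨x.1.2, x.2⟩⟩, fun z => ⟨(z.1, z.2.1), z.2.2⟩, fun x => ?_,
        fun z => ?_⟩
      · rfl
      · rfl
    rw [h1, Fintype.card_sigma]
    exact sum_congr rfl fun μ _ => ih _

theorem popl_eq {d : ℕ} (α : Lt d W → ℕ) (m : ℕ) : ∀ (i : ℕ) (x : RI W (lst ty κ m i)),
    (∀ j, i ≤ j → j < i + m → row ty κ m i x j = blk α j) →
    popl W (lst ty κ m i) (pop ty α i) x = pop ty α (i + m) := by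
  induction m with
  | zero =>
    intro i x _
    rfl
  | succ m ih =>
    rintro i ⟨x, x'⟩ h
    show popl W (lst ty κ m (i + 1)) (nx W (ty i) (pop ty α i) x.1) x' = _
    have h1 := h i le_rfl (by omega)
    rw [row_self] at h1
    have h2 : nx W (ty i) (pop ty α i) x.1 = pop ty α (i + 1) := by
      rw [h1]
      rfl
    rw [h2, ih (i + 1) x' fun j h3 h4 => by
      rw [← h j (by omega) (by omega), row_ne ty κ m i x x' (by omega)]]
    congr 1
    omega

end lists

section entries

variable {K : Type} [CommRing K] {d W : ℕ} (ty : ℕ → Bool)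

theorem Adm_gap_iff (α γ : Lt d W → ℕ) (s : Fin (d + 1) → Fin W) :
    (Adm (tyq ty) α γ ∧ gap (tyq ty) α γ =
      ∑ i : Fin d, Finsupp.single ((i, (s i.castSucc, s i.succ)) : Lt d W) 1) ↔
    ∀ i : Fin d, Rl (ty i) (s i.castSucc) (s i.succ) (blk α i) (blk γ i) := by
  classical
  have hsum : ∀ (i : Fin d) (p : Fin W × Fin W),
      (∑ i : Fin d, Finsupp.single ((i, (s i.castSucc, s i.succ)) : Lt d W) 1) (i, p) =
        (Pi.single (s i.castSucc, s i.succ) 1 : Ex W) p := by
    intro i p
    rw [Finsupp.finsetSum_apply, sum_eq_single i]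
    · rw [Finsupp.single_apply, Pi.single_apply]
      by_cases h : p = (s i.castSucc, s i.succ)
      · rw [if_pos h, if_pos (by rw [h])]
      · rw [if_neg h, if_neg]
        intro h1
        exact h (Prod.ext_iff.1 h1).2.symm
    · intro j _ hj
      rw [Finsupp.single_apply, if_neg]
      intro h1
      exact hj (Prod.ext_iff.1 h1).1
    · intro h
      exact absurd (mem_univ _) h
  have hblk : ∀ (β : Lt d W → ℕ) (i : Fin d) (p : Fin W × Fin W), blk β i p = β (i, p) := by
    intro β i p
    unfold blk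
    rw [dif_pos i.2]
  constructor
  · rintro ⟨h1, h2⟩ i
    have h3 : ∀ p, gap (tyq ty) α γ (i, p) = (Pi.single (s i.castSucc, s i.succ) 1 : Ex W) p := by
      intro p
      rw [h2, hsum]
    unfold Rl
    rcases hty : ty i with _ | _
    · simp only [Bool.false_eq_true, if_false]
      funext p
      have h4 := h3 p
      have h5 := h1 (i, p)
      unfold gap at h4
      rw [Finsupp.equivFunOnFinite_symm_apply_apply] at h4
      unfold tyq at h4 h5
      simp only [hty, Bool.false_eq_true, if_false] at h4 h5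
      rw [Pi.add_apply, hblk, hblk, ← h4]
      omega
    · simp only [if_true]
      funext p
      have h4 := h3 p
      have h5 := h1 (i, p)
      unfold gap at h4
      rw [Finsupp.equivFunOnFinite_symm_apply_apply] at h4
      unfold tyq at h4 h5
      simp only [hty, if_true] at h4 h5
      rw [Pi.add_apply, hblk, hblk, ← h4]
      omega
  · intro h
    have h1 : ∀ (i : Fin d) (p : Fin W × Fin W), if ty i then
        α (i, p) = γ (i, p) + (Pi.single (s i.castSucc, s i.succ) 1 : Ex W) p else
        γ (i, p) = α (i, p) + (Pi.single (s i.castSucc, s i.succ) 1 : Ex W) p := by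
      intro i p
      have h2 := h i
      unfold Rl at h2
      rcases hty : ty i with _ | _
      · simp only [hty, Bool.false_eq_true, if_false] at h2 ⊢
        have h3 := congrFun h2 p
        rwa [Pi.add_apply, hblk, hblk] at h3
      · simp only [hty, if_true] at h2 ⊢
        have h3 := congrFun h2 p
        rwa [Pi.add_apply, hblk, hblk] at h3
    refine ⟨?_, ?_⟩
    · rintro ⟨i, p⟩
      have h2 := h1 i p
      unfold tyq
      rcases hty : ty i with _ | _
      · simp only [hty, Bool.false_eq_true, if_false] at h2 ⊢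
        omega
      · simp only [hty, if_true] at h2 ⊢
        omega
    · ext ⟨i, p⟩
      rw [hsum]
      unfold gap
      rw [Finsupp.equivFunOnFinite_symm_apply_apply]
      have h2 := h1 i p
      unfold tyq
      rcases hty : ty i with _ | _
      · simp only [hty, Bool.false_eq_true, if_false] at h2 ⊢
        omega
      · simp only [hty, if_true] at h2 ⊢
        omega

open Classical in
/-- the entries of the matrix of the chain polynomial -/
theorem opM_entry (hW : 0 < W) (α γ : Lt d W → ℕ) :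
    (if Adm (tyq ty) α γ then MvPolynomial.coeff (gap (tyq ty) α γ) (chq d W K) else 0) =
      PSf (fun j a b => if Rl (ty j) a b (blk α j) (blk γ j) then (1 : K) else 0) d 0
        ⟨0, hW⟩ := by
  rw [← sum_words_all hW]
  unfold chq
  rw [MvPolynomial.coeff_sum]
  by_cases hA : Adm (tyq ty) α γ
  · rw [if_pos hA]
    refine sum_congr rfl fun s _ => ?_
    split_ifs with h1
    · have h2 : (∏ i : Fin d, (MvPolynomial.X ((i, (s i.castSucc, s i.succ)) : Lt d W) :
          MvPolynomial (Lt d W) K)) = MvPolynomial.monomial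
          (∑ i : Fin d, Finsupp.single ((i, (s i.castSucc, s i.succ)) : Lt d W) 1) 1 := by
        rw [MvPolynomial.monomial_sum_one]
        rfl
      rw [h2, MvPolynomial.coeff_monomial, prod_ite_zero, prod_const_one]
      have h3 := Adm_gap_iff ty α γ s
      by_cases h4 : ∀ i : Fin d, Rl (ty i) (s i.castSucc) (s i.succ) (blk α i) (blk γ i)
      · rw [if_pos ((h3.2 h4).2).symm, if_pos fun i _ => h4 i]
      · rw [if_neg, if_neg]
        · intro h5
          exact h4 fun i => h5 i (mem_univ _)
        · intro h5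
          exact h4 (h3.1 ⟨hA, h5.symm⟩)
    · exact MvPolynomial.coeff_zero _
  · rw [if_neg hA, eq_comm]
    apply sum_eq_zero
    intro s _
    split_ifs with h1
    · rw [prod_ite_zero, if_neg]
      intro h2
      exact hA ((Adm_gap_iff ty α γ s).2 fun i => h2 i (mem_univ _)).1
    · rfl

end entries

section main

variable {K : Type} [Field K] {d W : ℕ} (ty : ℕ → Bool)

/-- the block degrees -/
abbrev Dg (d : ℕ) (ty : ℕ → Bool) (LU LV : ℕ) : Type :=
  {κ : Fin d → Fin (LU + LV + 1) // (∑ i : Fin d, if ty i then (κ i).1 else 0) = LU ∧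
    (∑ i : Fin d, if ty i then 0 else (κ i).1) = LV}

/-- the block degrees as a sequence -/
def dgs {d : ℕ} {ty : ℕ → Bool} {LU LV : ℕ} (κ : Dg d ty LU LV) (j : ℕ) : ℕ :=
  if h : j < d then (κ.1 ⟨j, h⟩).1 else 0

/-- the row of the big matrix -/
def toRow {LU LV : ℕ} (κ : Dg d ty LU LV) (x : RI W (lst ty (dgs κ) d 0)) :
    Box (tyq (d := d) (W := W) ty) LU LV :=
  ⟨fun l => row ty (dgs κ) d 0 x l.1 l.2, by
    constructor
    · rw [Fintype.sum_prod_type]
      refine Eq.trans ?_ κ.2.1
      refine sum_congr rfl fun i _ => ?_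
      have h1 := row_sum ty (dgs κ) d 0 x i (Nat.zero_le _) (by omega)
      unfold tyq
      rcases hty : ty i with _ | _
      · simp only [hty, Bool.false_eq_true, if_false]
        exact sum_const_zero
      · simp only [hty, if_true]
        rw [h1]
        unfold dgs
        rw [dif_pos i.2]
    · rw [Fintype.sum_prod_type]
      refine Eq.trans ?_ κ.2.2
      refine sum_congr rfl fun i _ => ?_
      have h1 := row_sum ty (dgs κ) d 0 x i (Nat.zero_le _) (by omega)
      unfold tyq
      rcases hty : ty i with _ | _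
      · simp only [hty, Bool.false_eq_true, if_false]
        rw [h1]
        unfold dgs
        rw [dif_pos i.2]
      · simp only [hty, if_true]
        exact sum_const_zero⟩

/-- the column of the big matrix -/
def toCol {LU LV r E : ℕ} (hr : r = nb ty true d) (hE : E = nb ty false d) (κ : Dg d ty LU LV)
    (y : {b : Fin W // b.1 < 1} × CI W (lst ty (dgs κ) d 0)) :
    Box (tyq (d := d) (W := W) ty) (LU - r) (LV + E) :=
  ⟨fun l => col ty (dgs κ) d 0 y.2 l.1 l.2, by
    have hnb : ∀ t : Bool, nb ty t d = ∑ i : Fin d, if ty i = t then 1 else 0 := by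
      intro t
      unfold nb
      rw [card_filter, Fin.sum_univ_eq_sum_range (fun i => if ty i = t then 1 else 0)]
    constructor
    · rw [Fintype.sum_prod_type]
      have h2 : (∑ i : Fin d, ∑ p : Fin W × Fin W, (if tyq ty ((i, p) : Lt d W) = true then
          col ty (dgs κ) d 0 y.2 i p else 0)) + r = LU := by
        rw [hr, hnb, ← sum_add_distrib]
        refine Eq.trans ?_ κ.2.1
        refine sum_congr rfl fun i _ => ?_
        have h1 := col_sum ty (dgs κ) d 0 y.2 i (Nat.zero_le _) (by omega)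
        unfold tyq
        rcases hty : ty i with _ | _
        · simp only [hty, Bool.false_eq_true, if_false]
          rw [sum_const_zero]
        · simp only [hty, if_true] at h1 ⊢
          rw [h1]
          unfold dgs
          rw [dif_pos i.2]
      exact (Nat.sub_eq_of_eq_add h2.symm).symm
    · rw [Fintype.sum_prod_type]
      have h2 : (∑ i : Fin d, ∑ p : Fin W × Fin W, (if tyq ty ((i, p) : Lt d W) = true then
          0 else col ty (dgs κ) d 0 y.2 i p)) = LV + E := by
        rw [hE, hnb]
        refine Eq.trans ?_ (congrArg (fun z => z + ∑ i : Fin d, if ty i = false then 1 else 0)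
          κ.2.2)
        show _ = (∑ i : Fin d, if ty i then 0 else (κ.1 i).1) +
          ∑ i : Fin d, (if ty i = false then 1 else 0)
        rw [← sum_add_distrib]
        refine sum_congr rfl fun i _ => ?_
        have h1 := col_sum ty (dgs κ) d 0 y.2 i (Nat.zero_le _) (by omega)
        unfold tyq
        rcases hty : ty i with _ | _
        · simp only [hty, Bool.false_eq_true, if_false, if_true] at h1 ⊢
          rw [h1]
          unfold dgs
          rw [dif_pos i.2]
        · simp only [hty, if_true, Bool.true_eq_false, if_false]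
          rw [sum_const_zero, Nat.add_zero]
      exact h2⟩

theorem blk_toRow {LU LV : ℕ} (κ : Dg d ty LU LV) (x : RI W (lst ty (dgs κ) d 0)) {j : ℕ}
    (hj : j < d) : blk (toRow ty κ x).1 j = row ty (dgs κ) d 0 x j := by
  funext p
  unfold blk
  rw [dif_pos hj]
  rfl

theorem blk_toCol {LU LV r E : ℕ} (hr : r = nb ty true d) (hE : E = nb ty false d)
    (κ : Dg d ty LU LV) (y : {b : Fin W // b.1 < 1} × CI W (lst ty (dgs κ) d 0)) {j : ℕ}
    (hj : j < d) : blk (toCol ty hr hE κ y).1 j = col ty (dgs κ) d 0 y.2 j := by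
  funext p
  unfold blk
  rw [dif_pos hj]
  rfl

open Classical in
theorem ngood_le {LU LV : ℕ} :
    ngood d W ty LU LV ≤ ∑ κ : Dg d ty LU LV, GG W (lst ty (dgs κ) d 0) 1 := by
  have h1 : ∀ κ : Dg d ty LU LV, GG W (lst ty (dgs κ) d 0) 1 =
      Fintype.card {x : RI W (lst ty (dgs κ) d 0) // 1 ≤ popl W (lst ty (dgs κ) d 0) 1 x} :=
    fun κ => GG_eq _ 1
  rw [sum_congr rfl fun κ _ => h1 κ, ← Fintype.card_sigma]
  unfold ngood
  rw [← Fintype.card_coe]
  have hpop : ∀ (κ : Dg d ty LU LV) (x : RI W (lst ty (dgs κ) d 0)),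
      popl W (lst ty (dgs κ) d 0) 1 x = pop ty (toRow ty κ x).1 d := by
    intro κ x
    have h2 := popl_eq ty (dgs κ) (toRow ty κ x).1 d 0 x
      (fun j _ hj => (blk_toRow ty κ x (by omega)).symm)
    rw [Nat.zero_add] at h2
    exact h2
  let f : (Σ κ : Dg d ty LU LV, {x : RI W (lst ty (dgs κ) d 0) //
      1 ≤ popl W (lst ty (dgs κ) d 0) 1 x}) →
      {α : Box (tyq (d := d) (W := W) ty) LU LV //
        α ∈ univ.filter fun α : Box (tyq (d := d) (W := W) ty) LU LV => 1 ≤ pop ty α.1 d} :=
    fun z => ⟨toRow ty z.1 z.2.1, by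
      rw [mem_filter]
      exact ⟨mem_univ _, by rw [← hpop]; exact z.2.2⟩⟩
  refine Fintype.card_le_of_surjective f ?_
  rintro ⟨α, hα⟩
  have hα' := (mem_filter.1 hα).2
  -- the block degrees
  have hsplit : ∀ i : Fin d, (∑ p, blk α.1 i p) = ∑ p, α.1 (i, p) := by
    intro i
    apply sum_congr rfl
    intro p _
    unfold blk
    rw [dif_pos i.2]
  have hU : (∑ i : Fin d, if ty i then (∑ p, blk α.1 i p) else 0) = LU := by
    refine Eq.trans ?_ α.2.1
    rw [Fintype.sum_prod_type]
    refine sum_congr rfl fun i _ => ?_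
    unfold tyq
    rcases hty : ty i with _ | _
    · simp only [hty, Bool.false_eq_true, if_false]
      rw [sum_const_zero]
    · simp only [hty, if_true]
      exact hsplit i
  have hV : (∑ i : Fin d, if ty i then 0 else (∑ p, blk α.1 i p)) = LV := by
    refine Eq.trans ?_ α.2.2
    rw [Fintype.sum_prod_type]
    refine sum_congr rfl fun i _ => ?_
    unfold tyq
    rcases hty : ty i with _ | _
    · simp only [hty, Bool.false_eq_true, if_false]
      exact hsplit i
    · simp only [hty, if_true]
      rw [sum_const_zero]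
  have hlt : ∀ i : Fin d, (∑ p, blk α.1 i p) < LU + LV + 1 := by
    intro i
    rcases hty : ty i with _ | _
    · have h3 := single_le_sum (f := fun i : Fin d => if ty i then 0 else (∑ p, blk α.1 i p))
        (fun i _ => Nat.zero_le _) (mem_univ i)
      simp only [hty, Bool.false_eq_true, if_false] at h3
      omega
    · have h3 := single_le_sum (f := fun i : Fin d => if ty i then (∑ p, blk α.1 i p) else 0)
        (fun i _ => Nat.zero_le _) (mem_univ i)
      simp only [hty, if_true] at h3
      omega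
  let κ : Dg d ty LU LV := ⟨fun i => ⟨∑ p, blk α.1 i p, hlt i⟩, hU, hV⟩
  obtain ⟨x, hx⟩ := row_exists (W := W) ty (dgs κ) (fun j => blk α.1 j) d 0 (fun j _ hj => by
    unfold dgs
    rw [dif_pos (by omega)])
  have hrow : toRow ty κ x = α := by
    apply Subtype.ext
    funext l
    show row ty (dgs κ) d 0 x l.1 l.2 = α.1 l
    rw [hx l.1 (Nat.zero_le _) (by omega)]
    unfold blk
    rw [dif_pos l.1.2]
  refine ⟨⟨κ, ⟨x, ?_⟩⟩, ?_⟩
  · rw [hpop, hrow]
    exact hα'
  · apply Subtype.ext
    exact hrow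

/-- **ROW D**: the matrix of the chain polynomial -/
theorem good_le_rank (hW : 1 ≤ W) {LU LV r E : ℕ}
    (hr : r = nb ty true d) (hE : E = nb ty false d) (_hrL : r ≤ LU) :
    ngood d W ty LU LV ≤ (opM (tyq ty) (chq d W K) LU LV (LU - r) (LV + E)).rank := by
  classical
  refine (ngood_le ty).trans ?_
  have hent : ∀ (κ κ' : Dg d ty LU LV) (x : RI W (lst ty (dgs κ) d 0))
      (y : {b : Fin W // b.1 < 1} × CI W (lst ty (dgs κ') d 0)),
      opM (tyq ty) (chq d W K) LU LV (LU - r) (LV + E) (toRow ty κ x) (toCol ty hr hE κ' y) =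
        PSf (fun j a b => if Rl (ty j) a b (row ty (dgs κ) d 0 x j) (col ty (dgs κ') d 0 y.2 j)
          then (1 : K) else 0) d 0 ⟨0, hW⟩ := by
    intro κ κ' x y
    unfold opM
    rw [opM_entry ty hW]
    apply PSf_congr
    intro j _ hj
    funext a b
    rw [blk_toRow ty κ x (by omega), blk_toCol ty hr hE κ' y (by omega)]
  refine le_trans ?_ (sum_rank_le (opM (tyq ty) (chq d W K) LU LV (LU - r) (LV + E))
    (Rk := fun κ : Dg d ty LU LV => RI W (lst ty (dgs κ) d 0))
    (Ck := fun κ : Dg d ty LU LV => {b : Fin W // b.1 < 1} × CI W (lst ty (dgs κ) d 0))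
    (fun κ => toRow ty κ) (fun κ => toCol ty hr hE κ) ?_)
  · apply sum_le_sum
    intro κ _
    have h1 : (opM (tyq ty) (chq d W K) LU LV (LU - r) (LV + E)).submatrix (toRow ty κ)
        (toCol ty hr hE κ) = stC (Mx K W (lst ty (dgs κ) d 0)) 1 := by
      ext x y
      rw [Matrix.submatrix_apply, hent]
      show _ = Mx K W (lst ty (dgs κ) d 0) y.1.1 x y.2
      have h2 : y.1.1 = ⟨0, hW⟩ := Fin.ext (by
        show y.1.1.1 = 0
        have := y.1.2
        omega)
      rw [h2, Mx_eq]
    rw [h1]
    exact chain_rank _ 1 hW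
  · intro κ κ' hne x y
    rw [hent]
    by_contra hcon
    apply hne
    have h1 := PSf_ne d 0 _ hcon
    apply Subtype.ext
    funext i
    obtain ⟨a, b, hab⟩ := h1 i (Nat.zero_le _) (by omega)
    have h2 : Rl (ty i) a b (row ty (dgs κ) d 0 x i) (col ty (dgs κ') d 0 y.2 i) := by
      by_contra h3
      exact hab (if_neg h3)
    have h3 := row_sum ty (dgs κ) d 0 x i (Nat.zero_le _) (by omega)
    have h4 := col_sum ty (dgs κ') d 0 y.2 i (Nat.zero_le _) (by omega)
    have h5 : ∀ μ : Ex W, ∑ p, (μ + (Pi.single (a, b) 1 : Ex W)) p = ∑ p, μ p + 1 := by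
      intro μ
      simp only [Pi.add_apply, sum_add_distrib]
      rw [sum_pi_single' (a, b) 1 univ, if_pos (mem_univ _)]
    have h6 : dgs κ i = dgs κ' i := by
      unfold Rl at h2
      rcases hty : ty i with _ | _
      · simp only [hty, Bool.false_eq_true, if_false] at h2 h4
        rw [h2, h5] at h4
        omega
      · simp only [hty, if_true] at h2 h4
        rw [h2, h5] at h3
        omega
    unfold dgs at h6
    rw [dif_pos i.2, dif_pos i.2] at h6
    exact Fin.ext h6

end main

end Pool.XDB
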