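import Pool.Agent.XD.Defs

/-!
# Constant depth over every field with the exponent `2 (fib (2 k + 4) - 2)` (XDB): definitions

`d` blocks; the letters of a block are the pairs `(a, b)` of vertices of `Fin W`. The blocks of type
`true` multiply, the blocks of type `false` contract.
-/

set_option autoImplicit false

namespace Pool.XDB

open Finset Pool.XD

section block

/-- the exponent vectors of one block -/
abbrev Ex (W : ℕ) : Type := Fin W × Fin W → ℕ

/-- the exponent vectors of degree `k` of one block -/
abbrev Mon (W k : ℕ) : Type := {μ : Ex W // ∑ p, μ p = k}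

/-- the exponent vectors from which a letter of type `t` leads to degree `k` -/
abbrev SMon (W : ℕ) (t : Bool) (k : ℕ) : Type :=
  {ν : Ex W // if t then ∑ p, ν p + 1 = k else ∑ p, ν p = k + 1}

theorem finite_mon (W k : ℕ) : Finite (Mon W k) := by
  refine Finite.of_injective (fun (μ : Mon W k) (p : Fin W × Fin W) =>
    (⟨μ.1 p, Nat.lt_succ_of_le ((single_le_sum (fun i _ => Nat.zero_le _) (mem_univ p)).trans
      μ.2.le)⟩ : Fin (k + 1))) fun μ ν h => ?_
  apply Subtype.ext
  funext p
  exact congrArg Fin.val (congrFun h p)

theorem finite_smon (W : ℕ) (t : Bool) (k : ℕ) : Finite (SMon W t k) := by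
  have h : ∀ ν : SMon W t k, ∑ p, ν.1 p ≤ k + 1 := by
    intro ν
    have := ν.2
    rcases t with _ | _
    · simp only [Bool.false_eq_true, if_false] at this
      omega
    · simp only [if_true] at this
      omega
  refine Finite.of_injective (fun (ν : SMon W t k) (p : Fin W × Fin W) =>
    (⟨ν.1 p, Nat.lt_succ_of_le ((single_le_sum (fun i _ => Nat.zero_le _) (mem_univ p)).trans
      (h ν))⟩ : Fin (k + 2))) fun μ ν h => ?_
  apply Subtype.ext
  funext p
  exact congrArg Fin.val (congrFun h p)

noncomputable instance (W k : ℕ) : Fintype (Mon W k) := by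
  haveI := finite_mon W k
  exact Fintype.ofFinite _

noncomputable instance (W : ℕ) (t : Bool) (k : ℕ) : Fintype (SMon W t k) := by
  haveI := finite_smon W t k
  exact Fintype.ofFinite _

/-- the letter `(a, b)` of a block of type `t` leads from the column `ν` to the row `μ` -/
def Rl {W : ℕ} (t : Bool) (a b : Fin W) (μ ν : Ex W) : Prop :=
  if t then μ = ν + Pi.single (a, b) 1 else ν = μ + Pi.single (a, b) 1

/-- the exponent of the letter `(a, b)`, zero outside the matrix -/
def vl {W : ℕ} (μ : Ex W) (a b : ℕ) : ℕ := if h : a < W ∧ b < W then μ (⟨a, h.1⟩, ⟨b, h.2⟩) else 0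

/-- the number of successes of the tests `letter (a, number of successes) occurs in μ` in the
first rows -/
def scR {W : ℕ} (μ : Ex W) : ℕ → ℕ
  | 0 => 0
  | a + 1 => scR μ a + if 1 ≤ vl μ a (scR μ a) then 1 else 0

/-- the number of successes of the tests `letter (number of successes, b) occurs in μ` in the
first columns -/
def scC {W : ℕ} (μ : Ex W) : ℕ → ℕ
  | 0 => 0
  | b + 1 => scC μ b + if 1 ≤ vl μ (scC μ b) b then 1 else 0

/-- the population after a block -/
def nx (W : ℕ) (t : Bool) (n : ℕ) (μ : Ex W) : ℕ :=
  if t then scR μ n else ((range W).filter fun b => scC μ b < n).card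

open Classical in
/-- the matrix of one block: the states `a < n` on the left, the state `b` on the right -/
noncomputable def Am (K : Type) [CommRing K] (W : ℕ) (t : Bool) (k n : ℕ) (b : Fin W) :
    Matrix (Mon W k) ({a : Fin W // a.1 < n} × SMon W t k) K :=
  fun μ x => if Rl t x.1.1 b μ.1 x.2.1 then 1 else 0

end block

section stack

variable {K : Type} [CommRing K] {W : ℕ} {I J M S : Type}

/-- the first `n` matrices side by side -/
def stC (B : Fin W → Matrix I J K) (n : ℕ) : Matrix I ({b : Fin W // b.1 < n} × J) K :=
  fun i x => B x.1.1 i x.2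

/-- the first `n` matrices one above the other -/
def stR (A : Fin W → Matrix M S K) (n : ℕ) : Matrix ({b : Fin W // b.1 < n} × M) S K :=
  fun x s => A x.1.1 x.2 s

/-- the sum of the tensor products -/
def comb (A : Fin W → Matrix M S K) (B : Fin W → Matrix I J K) : Matrix (M × I) (S × J) K :=
  fun x y => ∑ b, A b x.1 y.1 * B b x.2 y.2

end stack

section chain

/-- the rows of a list of blocks (type, degree) -/
def RI (W : ℕ) : List (Bool × ℕ) → Type
  | [] => Unit
  | p :: l => Mon W p.2 × RI W l

/-- the columns of a list of blocks -/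
def CI (W : ℕ) : List (Bool × ℕ) → Type
  | [] => Unit
  | p :: l => SMon W p.1 p.2 × CI W l

noncomputable instance instRI (W : ℕ) : ∀ l, Fintype (RI W l)
  | [] => inferInstanceAs (Fintype Unit)
  | p :: l => by
      haveI := instRI W l
      exact inferInstanceAs (Fintype (Mon W p.2 × RI W l))

noncomputable instance instCI (W : ℕ) : ∀ l, Fintype (CI W l)
  | [] => inferInstanceAs (Fintype Unit)
  | p :: l => by
      haveI := instCI W l
      exact inferInstanceAs (Fintype (SMon W p.1 p.2 × CI W l))

open Classical in
/-- the matrix of a list of blocks, starting in the state `a`, ending in the state `0` -/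
noncomputable def Mx (K : Type) [CommRing K] (W : ℕ) : (l : List (Bool × ℕ)) → Fin W →
    Matrix (RI W l) (CI W l) K
  | [], a => fun _ _ => if a.1 = 0 then 1 else 0
  | p :: l, a => fun x y => ∑ b : Fin W, (if Rl p.1 a b x.1.1 y.1.1 then 1 else 0) *
      Mx K W l b x.2 y.2

/-- the number of the rows for which the population, initially `n`, survives -/
noncomputable def GG (W : ℕ) : List (Bool × ℕ) → ℕ → ℕ
  | [], n => if n = 0 then 0 else 1
  | p :: l, n => ∑ μ : Mon W p.2, GG W l (nx W p.1 n μ.1)

end chain

section poly

/-- the letters of `d` blocks -/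
abbrev Lt (d W : ℕ) : Type := Fin d × (Fin W × Fin W)

/-- the type of a letter is the type of its block -/
def tyq {d W : ℕ} (ty : ℕ → Bool) (l : Lt d W) : Bool := ty l.1

open Classical in
/-- the chain polynomial: words `s` with `s 0 = s d = 0` -/
noncomputable def chq (d W : ℕ) (K : Type) [CommRing K] : MvPolynomial (Lt d W) K :=
  ∑ s : Fin (d + 1) → Fin W, if (s 0).1 = 0 ∧ (s (Fin.last d)).1 = 0 then
    ∏ i : Fin d, MvPolynomial.X (i, (s i.castSucc, s i.succ)) else 0

/-- the exponents of the block `i` -/
def blk {d W : ℕ} (α : Lt d W → ℕ) (i : ℕ) : Ex W := fun p => if h : i < d then α (⟨i, h⟩, p) else 0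

/-- the population after `i` blocks -/
def pop {d W : ℕ} (ty : ℕ → Bool) (α : Lt d W → ℕ) : ℕ → ℕ
  | 0 => 1
  | i + 1 => nx W (ty i) (pop ty α i) (blk α i)

/-- the number of the blocks of type `t` -/
def nb (ty : ℕ → Bool) (t : Bool) (d : ℕ) : ℕ := ((range d).filter fun i => ty i = t).card

open Classical in
/-- the number of the rows for which the population survives -/
noncomputable def ngood (d W : ℕ) (ty : ℕ → Bool) (LU LV : ℕ) : ℕ :=
  (univ.filter fun α : Box (tyq (d := d) (W := W) ty) LU LV => 1 ≤ pop ty α.1 d).card

end poly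

end Pool.XDB
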