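import Pool.Agent.XD.Num
import Pool.Agent.XDB.Defs

/-!
# XDB: the numbers (row G)

The chain of growth rates of XD for `κ ^ 4`, raised to the power `1 / 4`.
-/

set_option autoImplicit false

namespace Pool.XDB

open Real Pool.XD

theorem numAll_quarter {HU HV κ x y x' y' : ℝ} (hHU : 0 ≤ HU) (hHV : 0 ≤ HV) (hκ : 0 ≤ κ)
    (hx : 0 ≤ x) (hy : 0 ≤ y) (hx' : 0 ≤ x') (hy' : 0 ≤ y')
    (h : NumAll HU HV (κ ^ 4) x y x' y') :
    NumAll (HU ^ (1 / 4 : ℝ)) (HV ^ (1 / 4 : ℝ)) κ (x ^ (1 / 4 : ℝ)) (y ^ (1 / 4 : ℝ))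
      (x' ^ (1 / 4 : ℝ)) (y' ^ (1 / 4 : ℝ)) := by
  intro b e hbe
  have ht0 : (0 : ℝ) ≤ 1 / 4 := by norm_num
  have e1 : (x' ^ (1 / 4 : ℝ)) ^ b * (y' ^ (1 / 4 : ℝ)) ^ e = (x' ^ b * y' ^ e) ^ (1 / 4 : ℝ) := by
    rw [rpow_pow_comm hx', rpow_pow_comm hy', mul_rpow (by positivity) (by positivity)]
  have e2 : (x ^ (1 / 4 : ℝ)) ^ b * (y ^ (1 / 4 : ℝ)) ^ e = (x ^ b * y ^ e) ^ (1 / 4 : ℝ) := by
    rw [rpow_pow_comm hx, rpow_pow_comm hy, mul_rpow (by positivity) (by positivity)]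
  rw [e1, e2, rpow_pow_comm hHU, rpow_pow_comm hHV]
  rcases h b e hbe with h1 | h1 | h1
  · left
    exact rpow_le_rpow (by positivity) h1 ht0
  · right; left
    exact rpow_le_rpow (by positivity) h1 ht0
  · right; right
    have h2 : (κ ^ 4) ^ (1 / 4 : ℝ) = κ := by
      have := pow_rpow_inv_natCast hκ (n := 4) (by norm_num)
      rw [show (1 / 4 : ℝ) = (((4 : ℕ) : ℝ))⁻¹ by norm_num]
      exact this
    calc κ * (x ^ b * y ^ e) ^ (1 / 4 : ℝ) = (κ ^ 4) ^ (1 / 4 : ℝ) * (x ^ b * y ^ e) ^ (1 / 4 : ℝ) := by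
          rw [h2]
      _ = (κ ^ 4 * (x ^ b * y ^ e)) ^ (1 / 4 : ℝ) :=
          (mul_rpow (by positivity) (by positivity)).symm
      _ ≤ _ := rpow_le_rpow (by positivity) h1 ht0

/-- taking logarithms in the rank inequality -/
theorem d_le {N W d r E T : ℕ} {q C0 : ℝ} (hN : 1 ≤ N) (hT : 1 ≤ T) (hW : 1 ≤ W)
    (hWN : 32 * N * C0 ≤ W) (hrE : r + E = d) (hq1 : q ≤ 1)
    (hbal : -(q / 4) ≤ r / 4 - q / 4 * E)
    (h : exp (1 / 4) ^ r ≤ T * ((d : ℝ) + 1) ^ 16 *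
      (exp ((1 / 2 - 1 / (4 * N)) * (1 / 4)) ^ r * exp ((q / 2 - 1 / (4 * N)) * (1 / 4)) ^ E) *
      (W * exp (C0 * d / W))) :
    (d : ℝ) / (32 * N) ≤ log T + 16 * log ((d : ℝ) + 1) + log W + 1 / 8 := by
  have hTr : (1 : ℝ) ≤ T := by exact_mod_cast hT
  have hNr : (1 : ℝ) ≤ N := by exact_mod_cast hN
  have hWr : (1 : ℝ) ≤ W := by exact_mod_cast hW
  have hd0 : (0 : ℝ) ≤ d := Nat.cast_nonneg _
  have hdr : (r : ℝ) + E = d := by exact_mod_cast hrE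
  have h0 := log_le_log (by positivity) h
  rw [exp_mul_exp, log_mul (by positivity) (by positivity), log_mul (by positivity) (by positivity),
    log_mul (by positivity) (by positivity), log_mul (by positivity) (by positivity), log_pow,
    log_pow, log_exp, log_exp, log_exp] at h0
  have h1 : C0 * d / W ≤ d / (32 * N) := by
    rw [div_le_div_iff₀ (by linarith) (by linarith)]
    nlinarith
  have h2 : (1 / 2 - 1 / (4 * (N : ℝ))) * (1 / 4) * r + (q / 2 - 1 / (4 * (N : ℝ))) * (1 / 4) * E =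
      (r / 4 + q / 4 * E) / 2 - 2 * (d / (32 * N)) := by
    rw [← hdr]
    field_simp
    ring
  rw [h2] at h0
  push_cast at h0
  linarith

/-- **ROW G**: the parameters and the final bound, with an absolute constant -/
theorem xdb_final (C0 : ℝ) (hC0 : 1 ≤ C0) : ∃ C : ℝ, 1 ≤ C ∧
    ∀ k n T S w w0 : ℕ, 1 ≤ T → 2 ≤ S → 1 ≤ w → 1 ≤ w0 →
    ∃ (y : ℝ) (W : ℕ) (X Y : ℕ → ℝ), 1 / 8 ≤ y ∧ y ≤ 1 / 4 ∧ C0 ≤ W ∧ X 0 = 1 ∧ Y 0 = 1 ∧
      (∀ i, 0 < X i) ∧ (∀ i, 0 < Y i) ∧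
      (∀ d ≤ n, ∀ i ≤ 2 * k, NumD d (S * (d + 1) ^ (8 * (w0 + w) + 16)) (Real.exp (1 / 4))
        (Real.exp y) (X i) (Y i) (X (i + 1)) (Y (i + 1))) ∧
      ((∀ d : ℕ, 2 ≤ d → 1 + (d - 1) * W ≤ n → ∃ r E : ℕ, r + E = d ∧ -y ≤ r / 4 - y * E ∧
          Real.exp (1 / 4) ^ r ≤ T * ((d : ℝ) + 1) ^ 16 *
            (X (2 * k + 1) ^ r * Y (2 * k + 1) ^ E) * (W * Real.exp (C0 * d / W))) →
        (n : ℝ) ≤ C * Real.log (2 * n * T) *
          (C * (Real.log S + (w + w0) * Real.log (2 * n))) ^ (2 * (Nat.fib (2 * k + 4) - 2))) := by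
  obtain ⟨c0, hc0⟩ : ∃ c0 : ℕ, C0 ≤ c0 := exists_nat_ge _
  have hc0r : (1 : ℝ) ≤ c0 := by linarith
  have hc0n : 1 ≤ c0 := by exact_mod_cast hc0r
  obtain ⟨C, hC⟩ : ∃ C : ℝ, C = 327680 * c0 := ⟨_, rfl⟩
  have hC1 : (327680 : ℝ) ≤ C := by rw [hC]; linarith
  refine ⟨C, by linarith, ?_⟩
  intro k n T S w w0 hT hS hw hw0
  obtain ⟨p, hp⟩ : ∃ p : ℕ, p = Nat.fib (2 * k + 4) - 2 := ⟨_, rfl⟩
  have hp1 : 1 ≤ p := by
    have h1 : Nat.fib 4 ≤ Nat.fib (2 * k + 4) := Nat.fib_mono (by omega)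
    have h2 : Nat.fib 4 = 3 := rfl
    omega
  have hSr : (2 : ℝ) ≤ S := by exact_mod_cast hS
  have hl2 := log_two_gt_d9
  have hlS : log 2 ≤ log S := log_le_log (by norm_num) hSr
  obtain ⟨κ, hκ⟩ : ∃ κ : ℝ, κ = S * (n + 1 : ℝ) ^ (16 * (w + w0)) := ⟨_, rfl⟩
  have hn1 : (1 : ℝ) ≤ n + 1 := by
    have : (0 : ℝ) ≤ n := Nat.cast_nonneg _
    linarith
  have hκ1 : 1 ≤ κ := by
    rw [hκ]
    have := one_le_pow₀ (n := 16 * (w + w0)) hn1
    nlinarith
  have hlκ : log κ = log S + 16 * (w + w0) * log (n + 1) := by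
    rw [hκ, log_mul (by positivity) (by positivity), log_pow]
    push_cast
    ring
  obtain ⟨σ, hσ⟩ : ∃ σ : ℕ, σ = ⌈8 * log κ⌉₊ := ⟨_, rfl⟩
  have hlκ0 : 0.6931 < log κ := by
    rw [hlκ]
    have : 0 ≤ (16 : ℝ) * (w + w0) * log (n + 1) :=
      mul_nonneg (by positivity) (log_nonneg hn1)
    linarith
  have hσ1 : 8 * log κ ≤ σ := by rw [hσ]; exact Nat.le_ceil _
  have hσ2 : (σ : ℝ) ≤ 8 * log κ + 1 := by
    rw [hσ]
    exact (Nat.ceil_lt_add_one (by linarith)).le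
  have hσ0 : 1 ≤ σ := by
    have : (0 : ℝ) < σ := by linarith
    have : 0 < σ := by exact_mod_cast this
    omega
  have hκ4 : 1 ≤ κ ^ 4 := one_le_pow₀ hκ1
  have hlκ4 : log (κ ^ 4) ≤ σ / 2 := by
    rw [log_pow]
    push_cast
    linarith
  obtain ⟨A, B, s, X, Y, hs, hB, hBA, hA2, hsA, hX0, hY0, hXp, hYp, hch, hXL, hYL⟩ :=
    growth_chain (2 * k + 1) σ (by omega) hσ0 (κ ^ 4) hκ4 hlκ4
  rw [show 2 * k + 1 + 3 = 2 * k + 4 by ring, ← hp] at hsA
  have hA : 1 ≤ A := hB.trans hBA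
  have hAr : (1 : ℝ) ≤ A := by exact_mod_cast hA
  have hBr : (1 : ℝ) ≤ B := by exact_mod_cast hB
  have hBAr : (B : ℝ) ≤ A := by exact_mod_cast hBA
  have hA2r : (A : ℝ) ≤ 2 * B := by exact_mod_cast hA2
  obtain ⟨N, hN⟩ : ∃ N, N = s * A := ⟨_, rfl⟩
  have hN1 : 1 ≤ N := by rw [hN]; exact Nat.mul_pos hs hA
  have hNr : ((s : ℝ) * A) = N := by rw [hN]; push_cast; rfl
  rw [← hN] at hsA
  rw [hNr] at hXL hYL
  obtain ⟨q, hq⟩ : ∃ q : ℝ, q = (B : ℝ) / A := ⟨_, rfl⟩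
  have hq0 : 1 / 2 ≤ q := by
    rw [hq, le_div_iff₀ (by linarith)]
    linarith
  have hq1 : q ≤ 1 := by
    rw [hq, div_le_one (by linarith)]
    exact hBAr
  obtain ⟨W, hW⟩ : ∃ W : ℕ, W = 32 * N * c0 := ⟨_, rfl⟩
  have hW1 : 1 ≤ W := by
    rw [hW]
    exact Nat.mul_pos (Nat.mul_pos (by norm_num) hN1) hc0n
  have hNr1 : (1 : ℝ) ≤ N := by exact_mod_cast hN1
  have hWr : (W : ℝ) = 32 * N * c0 := by rw [hW]; push_cast; ring
  have hWc : (c0 : ℝ) ≤ W := by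
    rw [hWr]
    nlinarith
  refine ⟨q / 4, W, fun i => X i ^ (1 / 4 : ℝ), fun i => Y i ^ (1 / 4 : ℝ), by linarith,
    by linarith, hc0.trans hWc, ?_, ?_, fun i => rpow_pos_of_pos (hXp i) _,
    fun i => rpow_pos_of_pos (hYp i) _, ?_, ?_⟩
  · show X 0 ^ (1 / 4 : ℝ) = 1
    rw [hX0, one_rpow]
  · show Y 0 ^ (1 / 4 : ℝ) = 1
    rw [hY0, one_rpow]
  · intro d hd i hi
    have h1 := numAll_quarter (exp_pos 1).le (exp_pos _).le (by linarith) (hXp i).le (hYp i).le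
      (hXp (i + 1)).le (hYp (i + 1)).le (hch i (by omega))
    rw [exp_one_rpow, ← exp_mul, ← hq, show q * (1 / 4) = q / 4 by ring] at h1
    intro b e hbe _
    rcases h1 b e hbe with h2 | h2 | h2
    · exact Or.inr (Or.inl h2)
    · exact Or.inl h2
    · refine Or.inr (Or.inr (le_trans ?_ h2))
      apply mul_le_mul_of_nonneg_right
      · rw [hκ]
        apply mul_le_mul_of_nonneg_left _ (Nat.cast_nonneg _)
        have h3 : ((d : ℝ) + 1) ≤ n + 1 := by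
          have : (d : ℝ) ≤ n := by exact_mod_cast hd
          linarith
        have h4 : (0 : ℝ) ≤ (d : ℝ) + 1 := by positivity
        calc ((d : ℝ) + 1) ^ (8 * (w0 + w) + 16) ≤ ((n : ℝ) + 1) ^ (8 * (w0 + w) + 16) :=
              pow_le_pow_left₀ h4 h3 _
          _ ≤ ((n : ℝ) + 1) ^ (16 * (w + w0)) := pow_le_pow_right₀ hn1 (by omega)
      · have h3 := rpow_pos_of_pos (hXp i) (1 / 4 : ℝ)
        have h4 := rpow_pos_of_pos (hYp i) (1 / 4 : ℝ)
        positivity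
  intro hg
  rcases Nat.eq_zero_or_pos n with hn0 | hn0
  · subst hn0
    simp
  have hnr : (1 : ℝ) ≤ n := by exact_mod_cast hn0
  have hTr : (1 : ℝ) ≤ T := by exact_mod_cast hT
  have hlT : 0 ≤ log T := log_nonneg hTr
  obtain ⟨Λ, hΛ⟩ : ∃ Λ : ℝ, Λ = log S + (w + w0) * log (2 * n) := ⟨_, rfl⟩
  have hl2n : log 2 ≤ log (2 * n) := log_le_log (by norm_num) (by linarith)
  have hln : log (n + 1) ≤ log (2 * n) := log_le_log (by linarith) (by linarith)
  have hww : (2 : ℝ) ≤ w + w0 := by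
    have h1 : (1 : ℝ) ≤ w := by exact_mod_cast hw
    have h2 : (1 : ℝ) ≤ w0 := by exact_mod_cast hw0
    linarith
  have hwl : 2 * log 2 ≤ (w + w0) * log (2 * n) :=
    mul_le_mul hww hl2n (by linarith) (by linarith)
  have hΛ1 : 1 ≤ Λ := by rw [hΛ]; linarith
  have hlκΛ : log κ ≤ 17 * Λ := by
    rw [hlκ, hΛ]
    have h1 : (16 : ℝ) * ((w + w0) * log (n + 1)) ≤ 16 * ((w + w0) * log (2 * n)) :=
      mul_le_mul_of_nonneg_left (mul_le_mul_of_nonneg_left hln (by linarith)) (by norm_num)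
    have h3 : 0 ≤ ((w : ℝ) + w0) * log (2 * n) := by linarith
    linarith
  have hσΛ : (σ : ℝ) ≤ 137 * Λ := by linarith
  have hNle : (N : ℝ) ≤ 4 * (2466 * Λ) ^ p := by
    have h1 : (N : ℝ) ≤ 4 * (18 * (σ : ℝ)) ^ p := by exact_mod_cast hsA
    have h2 : (18 * (σ : ℝ)) ^ p ≤ (2466 * Λ) ^ p :=
      pow_le_pow_left₀ (by positivity) (by linarith) p
    linarith
  have hN2 : (N : ℝ) ^ 2 ≤ 16 * (C * Λ) ^ (2 * p) := by
    have h1 : (N : ℝ) ^ 2 ≤ (4 * (2466 * Λ) ^ p) ^ 2 := pow_le_pow_left₀ (by linarith) hNle 2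
    have h2 : (4 * (2466 * Λ) ^ p) ^ 2 = 16 * (2466 * Λ) ^ (2 * p) := by
      rw [mul_pow, ← pow_mul, mul_comm p 2]
      norm_num
    have h3 : (2466 * Λ) ^ (2 * p) ≤ (C * Λ) ^ (2 * p) :=
      pow_le_pow_left₀ (by positivity) (mul_le_mul_of_nonneg_right (by linarith) (by linarith)) _
    linarith
  have hlog : log (2 * n * T) = log (2 * n) + log T := log_mul (by positivity) (by linarith)
  obtain ⟨d, hdd⟩ : ∃ d : ℕ, d = (n - 1) / W + 1 := ⟨_, rfl⟩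
  -- the number of the blocks
  have hdle : (d : ℝ) ≤ 640 * N * (log (2 * n) + log T) := by
    rcases Nat.lt_or_ge d 2 with hd2 | hd2
    · have h1 : (d : ℝ) ≤ 1 := by exact_mod_cast (show d ≤ 1 by omega)
      have h2 : (1 : ℝ) ≤ 640 * N * (log (2 * n) + log T) := by
        have h3 : (0.6931 : ℝ) ≤ log (2 * n) + log T := by linarith
        have h4 : (1 : ℝ) * 0.6931 ≤ N * (log (2 * n) + log T) :=
          mul_le_mul hNr1 h3 (by norm_num) (by linarith)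
        linarith
      linarith
    · have hdW : 1 + (d - 1) * W ≤ n := by
        have h1 := Nat.div_mul_le_self (n - 1) W
        have h2 : d - 1 = (n - 1) / W := by omega
        rw [h2]
        omega
      obtain ⟨r, E, hrE, hbal, hineq⟩ := hg d hd2 hdW
      have h1 := d_le (N := N) (W := W) (d := d) (r := r) (E := E) (T := T) (q := q) (C0 := C0)
        hN1 hT hW1 (by rw [hWr]; nlinarith) hrE hq1 hbal (by
          have e1 : X (2 * k + 1) ^ (1 / 4 : ℝ) = exp ((1 / 2 - 1 / (4 * N)) * (1 / 4)) := by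
            rw [hXL, ← exp_mul]
          have e2 : Y (2 * k + 1) ^ (1 / 4 : ℝ) = exp ((q / 2 - 1 / (4 * N)) * (1 / 4)) := by
            rw [hYL, ← exp_mul, ← hq]
          rw [← e1, ← e2]
          exact hineq)
      have h2 : d - 1 + 1 = d := by omega
      have h3 : d - 1 ≤ (d - 1) * W := Nat.le_mul_of_pos_right _ hW1
      have h4 : W ≤ (d - 1) * W := Nat.le_mul_of_pos_left _ (by omega)
      have h5 : log ((d : ℝ) + 1) ≤ log (2 * n) := by
        apply log_le_log (by positivity)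
        have : d ≤ n := by omega
        have : (d : ℝ) ≤ n := by exact_mod_cast this
        linarith
      have h6 : log W ≤ log (2 * n) := by
        apply log_le_log (by exact_mod_cast hW1)
        have : W ≤ n := by omega
        have : (W : ℝ) ≤ n := by exact_mod_cast this
        linarith
      rw [div_le_iff₀ (by linarith)] at h1
      have h7 : log T + 16 * log ((d : ℝ) + 1) + log W + 1 / 8 ≤ 20 * (log (2 * n) + log T) := by
        linarith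
      have h8 := mul_le_mul_of_nonneg_right h7 (show (0 : ℝ) ≤ 32 * N by linarith)
      linarith
  have hnd : (n : ℝ) ≤ d * W := by
    have h1 := Nat.div_add_mod (n - 1) W
    have h2 := Nat.mod_lt (n - 1) (show 0 < W by omega)
    have h3 : n ≤ d * W := by
      have h4 : d * W = W * ((n - 1) / W) + W := by rw [hdd]; ring
      omega
    exact_mod_cast h3
  rw [← hΛ, hlog, ← hp]
  have hL0 : 0 ≤ log (2 * n) + log T := by linarith
  calc (n : ℝ) ≤ d * W := hnd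
    _ ≤ (640 * N * (log (2 * n) + log T)) * (32 * N * c0) := by
      rw [hWr]
      exact mul_le_mul_of_nonneg_right hdle (by positivity)
    _ = (20480 * c0) * (log (2 * n) + log T) * N ^ 2 := by ring
    _ ≤ (20480 * c0) * (log (2 * n) + log T) * (16 * (C * Λ) ^ (2 * p)) :=
      mul_le_mul_of_nonneg_left hN2 (mul_nonneg (by positivity) hL0)
    _ = (327680 * c0) * (log (2 * n) + log T) * (C * Λ) ^ (2 * p) := by ring
    _ = _ := by rw [← hC]

end Pool.XDB
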