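import Pool.Agent.XDB.Defs
import Pool.Agent.XD.Perm

/-!
# XDB, row I: the chain polynomial as a projection of the permanent, and its top part
-/

set_option autoImplicit false

namespace Pool.XDB

open Finset Pool.XD Pool.CDep Pool.Agent.Helper87.D3 Pool.Agent.Helper41.CD

section card

theorem nb_eq_card (ty : ℕ → Bool) (t : Bool) (d : ℕ) :
    nb ty t d = (univ.filter fun i : Fin d => ty i = t).card := by
  unfold nb
  rw [card_filter, card_filter, Fin.sum_univ_eq_sum_range (fun i => if ty i = t then 1 else 0)]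

theorem card_tyq (d W : ℕ) (ty : ℕ → Bool) (t : Bool) :
    (univ.filter fun l : Lt d W => tyq ty l = t).card = nb ty t d * W ^ 2 := by
  classical
  rw [nb_eq_card]
  have h : (univ.filter fun l : Lt d W => tyq ty l = t) =
      (univ.filter fun i : Fin d => ty i = t) ×ˢ univ := by
    ext l
    rw [mem_filter, mem_product, mem_filter]
    exact ⟨fun h => ⟨⟨mem_univ _, h.2⟩, mem_univ _⟩, fun h => ⟨mem_univ _, h.1.2⟩⟩
  rw [h, card_product, card_univ, Fintype.card_prod, Fintype.card_fin]
  ring

/-- **ROW I4** -/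
theorem nU_tyq (d W : ℕ) (ty : ℕ → Bool) :
    nU (tyq (d := d) (W := W) ty) = nb ty true d * W ^ 2 ∧
      nV (tyq (d := d) (W := W) ty) = nb ty false d * W ^ 2 :=
  ⟨card_tyq d W ty true, card_tyq d W ty false⟩

end card

section projection

/-- the sizes of the layers -/
def wdq (d W : ℕ) (j : ℕ) : ℕ := if j = 0 ∨ d ≤ j then 1 else W

theorem wdq_le {d W : ℕ} (hW : 1 ≤ W) (j : ℕ) : wdq d W j ≤ W := by
  unfold wdq
  split_ifs <;> omega

/-- the letters of the first chain polynomial are letters of the second -/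
def lq {d W : ℕ} (hW : 1 ≤ W) (l : Ltr d (wdq d W)) : Lt d W :=
  (l.1, (⟨l.2.1, l.2.1.2.trans_le (wdq_le hW _)⟩, ⟨l.2.2, l.2.2.2.trans_le (wdq_le hW _)⟩))

theorem rename_chn {d W : ℕ} (hW : 1 ≤ W) :
    MvPolynomial.rename (lq hW) (chn d (wdq d W) ℤ) = chq d W ℤ := by
  classical
  unfold chn chq
  rw [map_sum, ← sum_filter]
  refine sum_bij (fun s _ j => (⟨s j, (s j).2.trans_le (wdq_le hW _)⟩ : Fin W)) ?_ ?_ ?_ ?_
  · intro s _
    rw [mem_filter]
    refine ⟨mem_univ _, ?_, ?_⟩
    · show ((s 0 : Fin _) : ℕ) = 0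
      have h := (s 0).2
      have h0 : wdq d W ((0 : Fin (d + 1)) : ℕ) = 1 := if_pos (Or.inl rfl)
      omega
    · show ((s (Fin.last d) : Fin _) : ℕ) = 0
      have h := (s (Fin.last d)).2
      have h0 : wdq d W ((Fin.last d : Fin (d + 1)) : ℕ) = 1 :=
        if_pos (Or.inr (by rw [Fin.val_last]))
      omega
  · intro s _ s' _ h
    funext j
    have e := congrArg Fin.val (congrFun h j)
    exact Fin.ext e
  · intro s hs
    rw [mem_filter] at hs
    have h : ∀ j : Fin (d + 1), (s j).1 < wdq d W j := by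
      intro j
      unfold wdq
      split_ifs with hj
      · rcases hj with hj | hj
        · have : j = 0 := Fin.ext hj
          rw [this, hs.2.1]
          omega
        · have : j = Fin.last d := Fin.ext (by rw [Fin.val_last]; omega)
          rw [this, hs.2.2]
          omega
      · exact (s j).2
    exact ⟨fun j => ⟨s j, h j⟩, mem_univ _, rfl⟩
  · intro s _
    rw [map_prod]
    refine prod_congr rfl fun i _ => ?_
    rw [MvPolynomial.rename_X]
    rfl

/-- **ROW I1** (projection) -/
theorem perm_chq {d W n : ℕ} (hd : 1 ≤ d) (hW : 1 ≤ W) (hn : 1 + (d - 1) * W ≤ n) :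
    ∃ φ : Fin n × Fin n → MvPolynomial (Lt d W) ℤ, (∀ p, (φ p).totalDegree ≤ 1) ∧
      MvPolynomial.aeval φ (permP n ℤ) = chq d W ℤ := by
  have h1 : ∀ j, 1 ≤ wdq d W j := by
    intro j
    unfold wdq
    split_ifs <;> omega
  have h2 : ∑ j ∈ Ico 1 d, wdq d W j = (d - 1) * W := by
    rw [sum_congr rfl (g := fun _ => W), sum_const, Nat.card_Ico, smul_eq_mul]
    intro j hj
    rw [mem_Ico] at hj
    unfold wdq
    rw [if_neg (by omega)]
  obtain ⟨φ, hφ, hφ'⟩ := perm_chn d (wdq d W) hd h1 (if_pos (Or.inl rfl))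
    (if_pos (Or.inr le_rfl)) (n := n) (by rw [h2]; exact hn)
  refine ⟨fun p => MvPolynomial.rename (lq hW) (φ p), fun p =>
    (MvPolynomial.totalDegree_rename_le _ _).trans (hφ p), ?_⟩
  rw [← rename_chn hW, ← hφ']
  have h3 : ∀ P : MvPolynomial (Fin n × Fin n) ℤ,
      MvPolynomial.aeval (fun p => MvPolynomial.rename (lq hW) (φ p)) P =
        MvPolynomial.rename (lq hW) (MvPolynomial.aeval φ P) := by
    intro P
    rw [← AlgHom.comp_apply, MvPolynomial.comp_aeval]
  exact h3 _

end projection

/-- **ROW I2** -/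
theorem map_chq {d W : ℕ} {R R' : Type} [CommRing R] [CommRing R'] (f : R →+* R') :
    MvPolynomial.map f (chq d W R) = chq d W R' := by
  classical
  unfold chq
  rw [map_sum]
  refine sum_congr rfl fun s _ => ?_
  split_ifs
  · rw [map_prod]
    exact prod_congr rfl fun i _ => MvPolynomial.map_X _ _
  · exact map_zero _

/-- **ROW I3** -/
theorem cf_PhiX_chq {K : Type} [Field K] {d W : ℕ} (ty : ℕ → Bool) (c : Lt d W → K) :
    cf (nb ty true d) (nb ty false d) (PhiX (tyq ty) c (chq d W K)) = chq d W K := by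
  classical
  rw [nb_eq_card, nb_eq_card]
  have h1 : (univ.filter fun i : Fin d => ty i = false) =
      univ.filter fun i : Fin d => ¬ ty i = true := by
    ext i
    simp
  rw [h1]
  unfold chq
  rw [map_sum, cf_sum]
  refine sum_congr rfl fun s _ => ?_
  split_ifs with hs
  · rw [map_prod]
    have h2 := cf_prod_aff_top (univ : Finset (Fin d)) (fun i : Fin d => ty i = true)
      (fun i => (MvPolynomial.C (c (i, (s i.castSucc, s i.succ))) : MvPolynomial (Lt d W) K))
      (fun i => MvPolynomial.X (i, (s i.castSucc, s i.succ)))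
    rw [← h2]
    congr 1
    refine prod_congr rfl fun i _ => ?_
    unfold PhiX
    rw [MvPolynomial.aeval_X]
    congr 1
    show (if ty i then _ else _) * _ = _
    split_ifs <;> rfl
  · rw [map_zero]
    exact cf_zero _ _

end Pool.XDB
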