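import Pool.Agent.XDB.Par
import Pool.Agent.XDB.Link
import Pool.Agent.XDB.Num
import Pool.Agent.XDB.Perm
import Pool.Agent.XDB.Lift
import Pool.Agent.XDA.Iso
import Pool.Agent.XDA.Measure
import Pool.Agent.XDA.Val
import Pool.Agent.XD.Level
import Pool.Agent.XDA.Prep
import Pool.Agent.XD.Shift
import Pool.Agent.XD.Aff
import Pool.Agent.CDep.Assembly

/-!
# Exponential lower bounds for constant depth over every field (XDB): the theorem
-/

set_option autoImplicit false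

namespace Pool.XDB

open Finset Pool.XD Pool.CD Pool.CDep Pool.Agent.Helper87.D3 Pool.Agent.Helper41.CD

theorem nb_add (ty : ℕ → Bool) (d : ℕ) : nb ty true d + nb ty false d = d := by
  classical
  unfold nb
  have h1 := card_filter_add_card_filter_not (s := range d) (fun i => ty i = true)
  have h2 : (range d).filter (fun i => ¬ ty i = true) = (range d).filter fun i => ty i = false := by
    apply filter_congr
    intro i _
    simp
  rw [h2, card_range] at h1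
  exact h1

/-- **the core inequality** -/
theorem core {F Γ : Type} [Field F] [LinearOrderedCommGroupWithZero Γ] (v : Valuation F Γ)
    {n T S w w0 k d W : ℕ} {y C0 : ℝ} {X Y : ℕ → ℝ}
    (f : Fin T → Fin S → MvPolynomial (Fin n × Fin n) F) (hS : 1 ≤ S) (hw : 1 ≤ w) (hw0 : 1 ≤ w0)
    (hf : ∀ i j, f i j ∈ Cls w0 w S k)
    (hcl : ∀ m, v (MvPolynomial.coeff m ((∑ i, ∏ j, f i j) - permP n F)) < 1)
    (hy : 1 / 8 ≤ y) (hd : 2 ≤ d) (hW : 1 ≤ W) (hn : 1 + (d - 1) * W ≤ n)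
    (hpar : ∀ (NU NV : ℕ),
      NU = nb (gw (1 / 4) y) true d * W ^ 2 → NV = nb (gw (1 / 4) y) false d * W ^ 2 →
      ∃ LU LV : ℕ, nb (gw (1 / 4) y) true d ≤ LU ∧ 1 ≤ NU ∧ 1 ≤ NV ∧
        Real.exp (1 / 4) * LU ≤ NU + LU - 1 ∧ (NV : ℝ) + LV ≤ Real.exp y * (LV + 1) ∧
        Real.exp (-(C0 * d / W)) / W * (NU.multichoose LU * NV.multichoose LV) ≤
          ngood d W (gw (1 / 4) y) LU LV)
    (hX : ∀ i, 0 < X i) (hY : ∀ i, 0 < Y i) (hX0 : X 0 = 1) (hY0 : Y 0 = 1)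
    (hnum : ∀ i ≤ 2 * k, NumD d (S * (d + 1) ^ (8 * (w0 + w) + 16)) (Real.exp (1 / 4))
      (Real.exp y) (X i) (Y i) (X (i + 1)) (Y (i + 1))) :
    ∃ r E : ℕ, r + E = d ∧ -y ≤ r / 4 - y * E ∧
      Real.exp (1 / 4) ^ r ≤ T * ((d : ℝ) + 1) ^ 16 *
        (X (2 * k + 1) ^ r * Y (2 * k + 1) ^ E) * (W * Real.exp (C0 * d / W)) := by
  classical
  obtain ⟨ty0, hty0⟩ : ∃ ty0, ty0 = gw (1 / 4) y := ⟨_, rfl⟩
  obtain ⟨r, hr⟩ : ∃ r, r = nb ty0 true d := ⟨_, rfl⟩
  obtain ⟨E, hE⟩ : ∃ E, E = nb ty0 false d := ⟨_, rfl⟩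
  have hrE : r + E = d := by rw [hr, hE]; exact nb_add _ _
  have hrE' : -y ≤ r / 4 - y * E := by
    have h1 := le_gps (x := 1 / 4) (y := y) (by norm_num) (by linarith) d
    rw [gps_eq] at h1
    have h2 : (1 / 4 : ℝ) * ((range d).filter fun j => gw (1 / 4) y j = true).card = r / 4 := by
      rw [hr, hty0]
      unfold nb
      ring
    have h3 : ((range d).filter fun j => gw (1 / 4) y j = false).card = E := by
      rw [hE, hty0]
      rfl
    rw [h2, h3] at h1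
    exact h1
  obtain ⟨LU, LV, hrL, h1U, h1V, hLU1, hLV2, hgood⟩ := hpar _ _ rfl rfl
  rw [← hty0] at hrL h1U h1V hLU1 hLV2 hgood
  obtain ⟨hnU, hnV⟩ := nU_tyq d W ty0
  rw [← hnU] at h1U hLU1
  rw [← hnV] at h1V hLV2
  rw [← hnU, ← hnV] at hgood
  rw [← hr] at hrL
  obtain ⟨φ, hφ1, hφ2⟩ := perm_chq (d := d) (W := W) (n := n) (by omega) hW hn
  obtain ⟨ty, hty⟩ : ∃ ty : Lt d W → Bool, ty = tyq ty0 := ⟨_, rfl⟩
  rw [← hty] at h1U hLU1 h1V hLV2 hgood
  obtain ⟨f', hf', hrk⟩ := exists_lift v f hf hcl ty (chq d W ℤ) (r := r) (E := E) (LU := LU)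
    (LV := LV) (LU' := LU - r) (LV' := LV + E) (N := ngood d W ty0 LU LV)
    (fun c => by
      rw [map_chq, hty, hr, hE]
      exact cf_PhiX_chq ty0 c)
    φ hφ1 hφ2
    (fun κ _ => by
      rw [map_chq, hty]
      exact good_le_rank ty0 hW hr hE hrL)
  -- the machine
  obtain ⟨HU, hHU⟩ : ∃ H : ℝ, H = Real.exp (1 / 4) := ⟨_, rfl⟩
  obtain ⟨HV, hHV⟩ : ∃ H : ℝ, H = Real.exp y := ⟨_, rfl⟩
  rw [← hHU] at hLU1 hnum ⊢
  rw [← hHV] at hLV2 hnum
  have hHU0 : 0 < HU := by rw [hHU]; exact Real.exp_pos _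
  have hHV0 : 0 < HV := by rw [hHV]; exact Real.exp_pos _
  obtain ⟨SU, SV, hSU, hSV⟩ := exists_sub ty (K := LField F)
  have hfV := filt_VV ty (K := LField F)
  have hfU := filt_UU ty (K := LField F)
  obtain ⟨P0, hP0, hmach⟩ := level_machine (σ := Lt d W) (K := LField F)
    (B := MvPolynomial (Lt d W) (LField F))
    (Pool.CD.cost_Nu hfV hfU hHV0.le hHU0.le)
    (Pool.CD.big_Bi hfV hfU) hHU0 hHV0
    (Pool.CD.leaf_Bi hfV hfU HV HU) SU SV
    (fun a ha b hb => by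
      have h1 := Pool.CD.Nu.ofMul (V := VV ty (LField F)) (U := UU ty (LField F))
        (hv := HV) (hu := HU) ((hSU a).1 ha) ((hSV b).1 hb)
      rwa [pow_zero, pow_zero, mul_one] at h1)
    (PhiX ty) (PhiX_mem _) (PhiX_zero _)
    (fun c p hp => by
      obtain ⟨α, hα, β, hβ, h1⟩ := PhiX_one ty c p hp
      exact ⟨α, (hSU α).2 hα, β, (hSV β).2 hβ, h1⟩)
    (d := d) hw0 hw hS hX hY hX0 hY0 hnum f' hf'
  obtain ⟨c, hc⟩ := exists_nat_eval P0 hP0
  have hNu := hmach (fun l => (c l : LField F)) hc r E hrE.le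
  have hrk' := hrk c
  set P := cf r E (PhiX ty (fun l => (c l : LField F)) (∑ i, ∏ j, f' i j)) with hP
  have hPm : P ∈ UU ty (LField F) r ∧ P ∈ VV ty (LField F) E :=
    PhiX_mem ty (fun l => (c l : LField F)) (∑ i, ∏ j, f' i j) r E
  have hrank := rank_opM_le ty hHU0 hHV0 (LU := LU) (LV := LV) (r := r) (E := E) hrL h1U h1V hLU1
    hLV2 P hPm.1 hPm.2 hNu
  -- the conclusion
  refine ⟨r, E, hrE, hrE', ?_⟩
  obtain ⟨D0, hD0⟩ : ∃ D0 : ℝ, D0 = (nU ty).multichoose LU * (nV ty).multichoose LV := ⟨_, rfl⟩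
  have hD0pos : 0 < D0 := by
    rw [hD0]
    have h1 : 0 < (nU ty).multichoose LU := by
      rw [Nat.multichoose_eq]
      exact Nat.choose_pos (by omega)
    have h2 : 0 < (nV ty).multichoose LV := by
      rw [Nat.multichoose_eq]
      exact Nat.choose_pos (by omega)
    exact_mod_cast Nat.mul_pos h1 h2
  have hWr : (0 : ℝ) < W := by exact_mod_cast (show 0 < W by omega)
  obtain ⟨κ, hκ⟩ : ∃ κ : ℝ, κ = T * (((d : ℝ) + 1) ^ 16 * (X (2 * k + 1) ^ r *
    Y (2 * k + 1) ^ E)) := ⟨_, rfl⟩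
  rw [← hκ] at hrank
  push_cast at hrank
  rw [← hD0] at hrank hgood
  have h1 : Real.exp (-(C0 * d / W)) / W * D0 * HU ^ r ≤ κ * D0 := by
    refine le_trans ?_ hrank
    apply mul_le_mul_of_nonneg_right _ (by positivity)
    exact hgood.trans (Nat.cast_le.2 hrk')
  have h2 : HU ^ r * D0 ≤ κ * (W * Real.exp (C0 * d / W)) * D0 := by
    have h3 : HU ^ r * D0 = (Real.exp (-(C0 * d / W)) / W * D0 * HU ^ r) *
        (W * Real.exp (C0 * d / W)) := by
      rw [Real.exp_neg]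
      have := (Real.exp_pos (C0 * d / W)).ne'
      field_simp
    rw [h3]
    calc (Real.exp (-(C0 * d / W)) / W * D0 * HU ^ r) * (W * Real.exp (C0 * d / W))
        ≤ κ * D0 * (W * Real.exp (C0 * d / W)) := mul_le_mul_of_nonneg_right h1 (by positivity)
      _ = κ * (W * Real.exp (C0 * d / W)) * D0 := by ring
  have h4 := le_of_mul_le_mul_right h2 hD0pos
  refine h4.trans (le_of_eq ?_)
  rw [hκ]
  ring

/-- **EXPONENTIAL LOWER BOUNDS FOR CONSTANT DEPTH OVER EVERY FIELD**: if the permanent, up to a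
polynomial whose coefficients have valuation less than one, is a sum of `T` products of `S`
polynomials of the class `Cls w0 w S k`, then `T` or `S` or `w` or `w0` is exponentially large. -/
theorem xdb : ∃ C : ℝ, 1 ≤ C ∧
    ∀ (F Γ : Type) [Field F] [LinearOrderedCommGroupWithZero Γ] (v : Valuation F Γ)
      (k n T S w w0 : ℕ) (f : Fin T → Fin S → MvPolynomial (Fin n × Fin n) F),
      2 ≤ S → 1 ≤ w → 1 ≤ w0 → (∀ i j, f i j ∈ Cls w0 w S k) →
      (∀ m, v (MvPolynomial.coeff m ((∑ i, ∏ j, f i j) - permP n F)) < 1) →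
      (n : ℝ) ≤ C * Real.log (2 * n * T) * (C * (Real.log S + (w + w0) * Real.log (2 * n))) ^
        (2 * (Nat.fib (2 * k + 4) - 2)) := by
  obtain ⟨C0, hC0, hpar⟩ := exists_par
  obtain ⟨C, hC, hfin⟩ := xdb_final C0 hC0
  refine ⟨C, hC, ?_⟩
  intro F Γ _ _ v k n T S w w0 f hS hw hw0 hf hcl
  obtain ⟨y, W, X, Y, hy, hy1, hCW, hX0, hY0, hX, hY, hnum, h⟩ :=
    hfin k n T S w w0 (T_pos v f hcl) hS hw hw0
  have hW : 1 ≤ W := by
    by_contra hcon
    have h1 : W = 0 := by omega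
    rw [h1, Nat.cast_zero] at hCW
    linarith
  refine h fun d hd hdn => ?_
  have hdn' : d ≤ n := by
    have h1 : d - 1 ≤ (d - 1) * W := Nat.le_mul_of_pos_right _ hW
    omega
  exact core v f (by omega) hw hw0 hf hcl hy hd hW hdn
    (fun NU NV h1 h2 => hpar y d W NU NV hy hy1 hd hCW h1 h2) hX hY hX0 hY0
    fun i hi => hnum d hdn' i hi

end Pool.XDB
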