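import Pool.Agent.XDB.Tests
import Pool.Agent.XD.Greedy
import Pool.Agent.XD.Mc
import Pool.Agent.XDA.Prep

/-!
# XDB: the parameters (row F)
-/

set_option autoImplicit false

namespace Pool.XDB

open Finset Pool.XD

/-- the ratios of consecutive numbers of exponent vectors -/
theorem ratio {N L D : ℕ} {H δ : ℝ} (hH : 1 < H) (h1 : H * L ≤ N + L - 1)
    (h2 : (N : ℝ) + L ≤ H * (L + 1)) (hδ1 : δ ≤ 1)
    (hD1 : (D : ℝ) + 1 ≤ δ * (L + 1)) (hD2 : 2 * (D : ℝ) ≤ δ * (N + L - 1)) (hDN : D < N) :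
    ∀ j j' : ℕ, j + j' ≤ D → j < L →
      (1 - δ) / H * (N - j').multichoose (L - j) ≤ (N - j').multichoose (L - (j + 1)) ∧
      ((N - j').multichoose (L - (j + 1)) : ℝ) ≤ (1 + δ) / H * (N - j').multichoose (L - j) := by
  intro j j' hj hjL
  obtain ⟨M, hM⟩ : ∃ M, N = M + j' := ⟨N - j', by omega⟩
  obtain ⟨k, hk⟩ : ∃ k, L = k + (j + 1) := ⟨L - (j + 1), by omega⟩
  have e1 : N - j' = M := by omega
  have e2 : L - (j + 1) = k := by omega
  have e3 : L - j = k + 1 := by omega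
  rw [e1, e2, e3]
  have hM1 : 1 ≤ M := by omega
  have hid : ((k : ℝ) + 1) * (M.multichoose (k + 1) : ℝ) = (M + k) * (M.multichoose k : ℝ) := by
    exact_mod_cast mc_succ M k
  have hMr : (1 : ℝ) ≤ M := by exact_mod_cast hM1
  have hkr : (0 : ℝ) ≤ k := Nat.cast_nonneg _
  have hjr : (0 : ℝ) ≤ j := Nat.cast_nonneg _
  have hj'r : (0 : ℝ) ≤ j' := Nat.cast_nonneg _
  have hMk : (0 : ℝ) < M + k := by linarith
  have hNr : (N : ℝ) = M + j' := by exact_mod_cast hM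
  have hLr : (L : ℝ) = k + (j + 1) := by exact_mod_cast hk
  have hjD : (j : ℝ) + j' ≤ D := by exact_mod_cast hj
  have hmc : (0 : ℝ) ≤ (M.multichoose (k + 1) : ℝ) := Nat.cast_nonneg _
  have hH0 : 0 < H := by linarith
  have g1 : (1 - δ) * (M + k) ≤ H * (k + 1) := by
    have a1 : (1 - δ) * ((N : ℝ) + L) ≤ (1 - δ) * (H * (L + 1)) :=
      mul_le_mul_of_nonneg_left h2 (by linarith)
    have a2 : H * ((1 - δ) * ((L : ℝ) + 1)) ≤ H * (L - j) := by
      apply mul_le_mul_of_nonneg_left _ hH0.le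
      have : (1 - δ) * ((L : ℝ) + 1) = L + 1 - δ * (L + 1) := by ring
      linarith
    have a3 : (L : ℝ) - j = k + 1 := by rw [hLr]; ring
    have a4 : (1 - δ) * ((M : ℝ) + k) ≤ (1 - δ) * ((N : ℝ) + L) := by
      apply mul_le_mul_of_nonneg_left _ (by linarith)
      rw [hNr, hLr]
      linarith
    rw [a3] at a2
    calc (1 - δ) * ((M : ℝ) + k) ≤ (1 - δ) * ((N : ℝ) + L) := a4
      _ ≤ (1 - δ) * (H * (L + 1)) := a1
      _ = H * ((1 - δ) * ((L : ℝ) + 1)) := by ring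
      _ ≤ _ := a2
  have g2 : H * (k + 1) ≤ (1 + δ) * (M + k) := by
    have a1 : H * (k + 1) = H * L - H * j := by rw [hLr]; ring
    have a2 : (0 : ℝ) ≤ H * j := mul_nonneg hH0.le hjr
    have a3 : (1 + δ) * ((M : ℝ) + k) =
        (N + L - 1) + δ * (N + L - 1) - (1 + δ) * (j + j') := by
      rw [hNr, hLr]
      ring
    have a4 : (1 + δ) * ((j : ℝ) + j') ≤ 2 * D := by
      have : (1 + δ) * ((j : ℝ) + j') ≤ 2 * ((j : ℝ) + j') :=
        mul_le_mul_of_nonneg_right (by linarith) (by linarith)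
      linarith
    rw [a1, a3]
    linarith
  constructor
  · have b1 : ((M : ℝ) + k) * ((1 - δ) / H * (M.multichoose (k + 1) : ℝ)) ≤
        ((M : ℝ) + k) * (M.multichoose k : ℝ) := by
      rw [← hid]
      have b2 : ((M : ℝ) + k) * ((1 - δ) / H * (M.multichoose (k + 1) : ℝ)) =
          ((1 - δ) * (M + k) / H) * (M.multichoose (k + 1) : ℝ) := by ring
      rw [b2]
      apply mul_le_mul_of_nonneg_right _ hmc
      rw [div_le_iff₀ hH0]
      linarith
    exact le_of_mul_le_mul_left b1 hMk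
  · have b1 : ((M : ℝ) + k) * (M.multichoose k : ℝ) ≤
        ((M : ℝ) + k) * ((1 + δ) / H * (M.multichoose (k + 1) : ℝ)) := by
      rw [← hid]
      have b2 : ((M : ℝ) + k) * ((1 + δ) / H * (M.multichoose (k + 1) : ℝ)) =
          ((1 + δ) * (M + k) / H) * (M.multichoose (k + 1) : ℝ) := by ring
      rw [b2]
      apply mul_le_mul_of_nonneg_right _ hmc
      rw [le_div_iff₀ hH0]
      linarith
    exact le_of_mul_le_mul_left b1 hMk

/-- the potential in a block of type true -/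
theorem pot_true {ε x n g : ℝ} (hε : 0 < ε) (hε1 : ε ≤ 1 / 800) (hx0 : 0 ≤ x)
    (hx : x ≤ 5 / 3 * ε) (hn : 0 ≤ n) (hu : x * n ≤ 5 / 3) (hg : 1 ≤ g) (hg1 : g ≤ 4 / 3) :
    (1 - 400 * ε) * (2 * x * n - x ^ 2 * n ^ 2) ≤
      (2 * (x * g) - (x * g) ^ 2) * ((1 - 12 * ε) / g) * n -
        (x * g) ^ 2 * ((1 + 12 * ε) / g) ^ 2 * (n * (n - 1)) := by
  have hg0 : g ≠ 0 := by linarith
  obtain ⟨u, hud⟩ : ∃ u, u = x * n := ⟨_, rfl⟩
  have hu0 : 0 ≤ u := by rw [hud]; positivity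
  rw [← hud] at hu
  have e1 : (2 * (x * g) - (x * g) ^ 2) * ((1 - 12 * ε) / g) * n -
        (x * g) ^ 2 * ((1 + 12 * ε) / g) ^ 2 * (n * (n - 1)) =
      2 * (1 - 12 * ε) * u - x * g * (1 - 12 * ε) * u - (1 + 12 * ε) ^ 2 * u ^ 2 +
        x * (1 + 12 * ε) ^ 2 * u := by
    rw [hud]
    field_simp
    ring
  have e2 : (1 - 400 * ε) * (2 * x * n - x ^ 2 * n ^ 2) = (1 - 400 * ε) * (2 * u - u ^ 2) := by
    rw [hud]
    ring
  rw [e1, e2]
  have h1 : x * g * (1 - 12 * ε) ≤ 5 / 3 * ε * (4 / 3) := by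
    have h2 : x * g ≤ 5 / 3 * ε * (4 / 3) := mul_le_mul hx hg1 (by linarith) (by linarith)
    have h3 : 0 ≤ x * g := mul_nonneg hx0 (by linarith)
    nlinarith
  have h2 : 144 * ε ^ 2 ≤ ε := by nlinarith
  have h3 : 0 ≤ x * (1 + 12 * ε) ^ 2 := by positivity
  have h4 : 0 ≤ 400 * ε * (2 - u) - 24 * ε - x * g * (1 - 12 * ε) -
      (24 * ε + 144 * ε ^ 2) * u + x * (1 + 12 * ε) ^ 2 := by
    have h5 : (24 * ε + 144 * ε ^ 2) * u ≤ (25 * ε) * (5 / 3) :=
      mul_le_mul (by linarith) hu hu0 (by linarith)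
    have h6 : 400 * ε * (1 / 3) ≤ 400 * ε * (2 - u) :=
      mul_le_mul_of_nonneg_left (by linarith) (by linarith)
    linarith
  have h5 := mul_nonneg hu0 h4
  nlinarith

/-- the potential in a block of type false -/
theorem pot_false {ε x n H : ℝ} (hε : 0 < ε) (hε1 : ε ≤ 1 / 800) (hx0 : 0 ≤ x)
    (hx : x ≤ 5 / 3 * ε) (hn : 0 ≤ n) (hu : x * n ≤ 5 / 3) (hH : 1 ≤ H) :
    (1 - 400 * ε) * (2 * x * n - x ^ 2 * n ^ 2) ≤
      2 * (x / H) * n / ((1 + 12 * ε) / H) - (x / H) ^ 2 * (n ^ 2 + n) / ((1 - 12 * ε) / H) ^ 2 := by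
  have hH0 : H ≠ 0 := by linarith
  obtain ⟨u, hud⟩ : ∃ u, u = x * n := ⟨_, rfl⟩
  have hu0 : 0 ≤ u := by rw [hud]; positivity
  rw [← hud] at hu
  have hδ1 : (0 : ℝ) < 1 + 12 * ε := by linarith
  have hδ2 : (0 : ℝ) < 1 - 12 * ε := by linarith
  have e1 : 2 * (x / H) * n / ((1 + 12 * ε) / H) - (x / H) ^ 2 * (n ^ 2 + n) /
      ((1 - 12 * ε) / H) ^ 2 = 2 * u / (1 + 12 * ε) - (u ^ 2 + x * u) / (1 - 12 * ε) ^ 2 := by
    rw [hud]
    field_simp
  have e2 : (1 - 400 * ε) * (2 * x * n - x ^ 2 * n ^ 2) = (1 - 400 * ε) * (2 * u - u ^ 2) := by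
    rw [hud]
    ring
  rw [e1, e2]
  have h1 : 2 * u * (1 - 12 * ε) ≤ 2 * u / (1 + 12 * ε) := by
    rw [le_div_iff₀ hδ1]
    nlinarith [mul_nonneg hu0 (sq_nonneg ε)]
  have h2 : (u ^ 2 + x * u) / (1 - 12 * ε) ^ 2 ≤ (u ^ 2 + x * u) * (1 + 48 * ε) := by
    rw [div_le_iff₀ (by positivity)]
    have h3 : 0 ≤ u ^ 2 + x * u := by positivity
    have h4 : 1 ≤ (1 + 48 * ε) * (1 - 12 * ε) ^ 2 := by nlinarith [mul_pos hε hε, mul_pos (mul_pos hε hε) hε]
    calc u ^ 2 + x * u = (u ^ 2 + x * u) * 1 := (mul_one _).symm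
      _ ≤ (u ^ 2 + x * u) * ((1 + 48 * ε) * (1 - 12 * ε) ^ 2) := mul_le_mul_of_nonneg_left h4 h3
      _ = _ := by ring
  have h3 : 0 ≤ 400 * ε * (2 - u) - 24 * ε - 48 * ε * u - x * (1 + 48 * ε) := by
    have h5 : 48 * ε * u ≤ 48 * ε * (5 / 3) := mul_le_mul_of_nonneg_left hu (by linarith)
    have h6 : 400 * ε * (1 / 3) ≤ 400 * ε * (2 - u) :=
      mul_le_mul_of_nonneg_left (by linarith) (by linarith)
    have h7 : x * (1 + 48 * ε) ≤ 5 / 3 * ε * 2 := mul_le_mul hx (by linarith) (by linarith) (by linarith)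
    linarith
  have h5 := mul_nonneg hu0 h3
  nlinarith

theorem exp_quarter_le : Real.exp (1 / 4) ≤ 1285 / 1000 := by
  by_contra hcon
  push Not at hcon
  have h1 : (1285 / 1000 : ℝ) ^ 4 < Real.exp (1 / 4) ^ 4 :=
    pow_lt_pow_left₀ hcon (by norm_num) (by norm_num)
  rw [← Real.exp_nat_mul] at h1
  have h2 : ((4 : ℕ) : ℝ) * (1 / 4) = 1 := by norm_num
  rw [h2] at h1
  have h3 := Real.exp_one_lt_d9
  norm_num at h1
  linarith

/-- the number of the blocks of each type -/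
theorem nb_large {y : ℝ} {d : ℕ} (hy : 1 / 8 ≤ y) (hy1 : y ≤ 1 / 4) (hd : 2 ≤ d) :
    (d : ℝ) / 6 ≤ nb (gw (1 / 4) y) true d ∧ (d : ℝ) / 6 ≤ nb (gw (1 / 4) y) false d := by
  have h1 := gps_eq (1 / 4) y d
  have h2 := gps_le (x := 1 / 4) (y := y) (by norm_num) (by linarith) d
  have h3 := le_gps (x := 1 / 4) (y := y) (by norm_num) (by linarith) d
  have h4 : (nb (gw (1 / 4) y) true d : ℝ) + nb (gw (1 / 4) y) false d = d := by
    have h5 : nb (gw (1 / 4) y) true d + nb (gw (1 / 4) y) false d = d := by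
      unfold nb
      have h6 := card_filter_add_card_filter_not (s := range d) (fun i => gw (1 / 4) y i = true)
      have h7 : ((range d).filter fun i => gw (1 / 4) y i = false) =
          (range d).filter fun i => ¬ gw (1 / 4) y i = true := by
        apply filter_congr
        intro i _
        exact Bool.eq_false_iff
      rw [h7, h6, card_range]
    exact_mod_cast h5
  obtain ⟨a, ha⟩ : ∃ a : ℝ, a = nb (gw (1 / 4) y) true d := ⟨_, rfl⟩
  obtain ⟨b, hb⟩ : ∃ b : ℝ, b = nb (gw (1 / 4) y) false d := ⟨_, rfl⟩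
  have ha0 : 0 ≤ a := by rw [ha]; exact Nat.cast_nonneg _
  have hb0 : 0 ≤ b := by rw [hb]; exact Nat.cast_nonneg _
  have h5 : gps (1 / 4) y d = 1 / 4 * a - y * b := by
    rw [h1, ha, hb]
    rfl
  rw [← ha, ← hb] at h4 ⊢
  rw [h5] at h2 h3
  have hdr : (2 : ℝ) ≤ d := by exact_mod_cast hd
  constructor
  · nlinarith
  · nlinarith

/-- the degree is at least the number of the letters -/
theorem deg_ge {N L : ℕ} {H : ℝ} (hH : 1 < H) (hH1 : H ≤ 4 / 3) (hN : 2 ≤ N)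
    (h : (N : ℝ) + L ≤ H * (L + 1)) : N ≤ L := by
  by_contra hcon
  push Not at hcon
  have h1 : (L : ℝ) + 1 ≤ N := by exact_mod_cast hcon
  have h2 : (2 : ℝ) ≤ N := by exact_mod_cast hN
  have h3 : (0 : ℝ) ≤ L := Nat.cast_nonneg _
  have h4 : H * ((L : ℝ) + 1) ≤ 4 / 3 * (L + 1) := mul_le_mul_of_nonneg_right hH1 (by linarith)
  nlinarith

/-- **ROW F** (parameters; from E) -/
theorem exists_par : ∃ C : ℝ, 1 ≤ C ∧ ∀ (y : ℝ) (d W NU NV : ℕ), 1 / 8 ≤ y → y ≤ 1 / 4 → 2 ≤ d →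
    C ≤ W → NU = nb (gw (1 / 4) y) true d * W ^ 2 → NV = nb (gw (1 / 4) y) false d * W ^ 2 →
    ∃ LU LV : ℕ, nb (gw (1 / 4) y) true d ≤ LU ∧ 1 ≤ NU ∧ 1 ≤ NV ∧
      Real.exp (1 / 4) * LU ≤ NU + LU - 1 ∧ (NV : ℝ) + LV ≤ Real.exp y * (LV + 1) ∧
      Real.exp (-(C * d / W)) / W * (NU.multichoose LU * NV.multichoose LV) ≤
        ngood d W (gw (1 / 4) y) LU LV := by
  refine ⟨800, by norm_num, ?_⟩
  intro y d W NU NV hy hy1 hd hWC hNU hNV
  obtain ⟨ha, hb⟩ := nb_large hy hy1 hd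
  have hW0 : (0 : ℝ) < W := by linarith
  have hW1 : 1 ≤ W := by
    have : (0 : ℝ) < W := hW0
    have : 0 < W := by exact_mod_cast this
    omega
  have hdr : (2 : ℝ) ≤ d := by exact_mod_cast hd
  have hNUr : (NU : ℝ) = nb (gw (1 / 4) y) true d * (W : ℝ) ^ 2 := by
    rw [hNU]
    push_cast
    ring
  have hNVr : (NV : ℝ) = nb (gw (1 / 4) y) false d * (W : ℝ) ^ 2 := by
    rw [hNV]
    push_cast
    ring
  obtain ⟨ε, hεd⟩ : ∃ ε : ℝ, ε = 1 / W := ⟨_, rfl⟩
  have hε : 0 < ε := by rw [hεd]; positivity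
  have hεW : ε * W = 1 := by rw [hεd]; field_simp
  have hε1 : ε ≤ 1 / 800 := by
    rw [hεd]
    exact one_div_le_one_div_of_le (by norm_num) hWC
  -- the number of the letters
  have hbig : ∀ N : ℕ, ∀ a : ℝ, (N : ℝ) = a * (W : ℝ) ^ 2 → (d : ℝ) / 6 ≤ a →
      (d : ℝ) * W + 1 ≤ 12 * ε * N ∧ 2 * ((d : ℝ) * W) ≤ 12 * ε * N ∧ d * W < N ∧ 2 ≤ N := by
    intro N a hN ha
    have h1 : 12 * ε * N = 12 * a * W := by
      rw [hN]
      calc 12 * ε * (a * (W : ℝ) ^ 2) = 12 * a * W * (ε * W) := by ring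
        _ = _ := by rw [hεW, mul_one]
    have h2 : 2 * ((d : ℝ) * W) ≤ 12 * a * W := by nlinarith
    have h3 : (1 : ℝ) ≤ d * W := by nlinarith
    have h4 : (d : ℝ) * W < N := by
      rw [hN]
      have h5 : (d : ℝ) < a * W := by nlinarith
      calc (d : ℝ) * W < (a * W) * W := mul_lt_mul_of_pos_right h5 hW0
        _ = _ := by ring
    have h5 : (1 : ℝ) < N := by linarith
    refine ⟨by rw [h1]; linarith, by rw [h1]; exact h2, by exact_mod_cast h4, ?_⟩
    have : 1 < N := by exact_mod_cast h5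
    omega
  obtain ⟨hU1, hU2, hU3, hU4⟩ := hbig NU _ hNUr ha
  obtain ⟨hV1, hV2, hV3, hV4⟩ := hbig NV _ hNVr hb
  obtain ⟨g, hg⟩ : ∃ g : ℝ, g = Real.exp (1 / 4) := ⟨_, rfl⟩
  obtain ⟨H, hH⟩ : ∃ H : ℝ, H = Real.exp y := ⟨_, rfl⟩
  have hg1 : 1 < g := by rw [hg]; exact Real.one_lt_exp_iff.2 (by norm_num)
  have hH1 : 1 < H := by rw [hH]; exact Real.one_lt_exp_iff.2 (by linarith)
  have hHg : H ≤ g := by rw [hH, hg]; exact Real.exp_le_exp.2 hy1
  have hg2 : g ≤ 1285 / 1000 := by rw [hg]; exact exp_quarter_le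
  obtain ⟨LU, hLU1, hLU2⟩ := XDA.exists_deg hg1 (show 1 ≤ NU by omega)
  obtain ⟨LV, hLV1, hLV2⟩ := XDA.exists_deg hH1 (show 1 ≤ NV by omega)
  have hLUN : NU ≤ LU := deg_ge hg1 (by linarith) hU4 hLU2
  have hLVN : NV ≤ LV := deg_ge hH1 (by linarith) hV4 hLV2
  have hrat : ∀ {N L : ℕ} {K : ℝ}, 1 < K → K * L ≤ N + L - 1 → (N : ℝ) + L ≤ K * (L + 1) →
      N ≤ L → (d : ℝ) * W + 1 ≤ 12 * ε * N → 2 * ((d : ℝ) * W) ≤ 12 * ε * N → d * W < N →
      ∀ j j' : ℕ, j + j' ≤ d * W → j < L →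
      (1 - 12 * ε) / K * (N - j').multichoose (L - j) ≤ (N - j').multichoose (L - (j + 1)) ∧
      ((N - j').multichoose (L - (j + 1)) : ℝ) ≤
        (1 + 12 * ε) / K * (N - j').multichoose (L - j) := by
    intro N L K hK h1 h2 hNL h3 h4 h5
    have hNLr : (N : ℝ) ≤ L := by exact_mod_cast hNL
    have hN0 : (1 : ℝ) ≤ L := by
      have : 1 ≤ L := by omega
      exact_mod_cast this
    have h6 : 12 * ε * (N : ℝ) ≤ 12 * ε * L := mul_le_mul_of_nonneg_left hNLr (by linarith)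
    apply ratio hK h1 h2 (by linarith)
    · push_cast
      linarith
    · push_cast
      have h7 : 12 * ε * (N : ℝ) ≤ 12 * ε * (N + L - 1) :=
        mul_le_mul_of_nonneg_left (by linarith) (by linarith)
      linarith
    · exact h5
  -- the potentials
  obtain ⟨θ, hθ⟩ : ∃ θ : ℝ, θ = 1 - 400 * ε := ⟨_, rfl⟩
  have hθ0 : 0 < θ := by rw [hθ]; linarith
  obtain ⟨s, hs⟩ : ∃ s : ℕ → ℝ, s = fun i => Real.exp (gps (1 / 4) y i) := ⟨_, rfl⟩
  obtain ⟨x, hx⟩ : ∃ x : ℕ → ℝ, x = fun i => g / W * s i := ⟨_, rfl⟩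
  have hs0 : ∀ i, 0 < s i := fun i => by rw [hs]; exact Real.exp_pos _
  have hsg : ∀ i, s i ≤ g := fun i => by
    rw [hs, hg]
    exact Real.exp_le_exp.2 (gps_le (by norm_num) (by linarith) i)
  have hx0 : ∀ i, 0 < x i := fun i => by
    rw [hx]
    have := hs0 i
    positivity
  have hgg : g * g ≤ 5 / 3 := by nlinarith
  have hxle : ∀ i, x i ≤ 5 / 3 * ε := fun i => by
    have h1 : x i = g * s i * ε := by
      rw [hx, hεd]
      ring
    rw [h1]
    apply mul_le_mul_of_nonneg_right _ hε.le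
    have := mul_le_mul_of_nonneg_left (hsg i) (show 0 ≤ g by linarith)
    linarith
  have hxn : ∀ i, ∀ n : ℕ, n ≤ W → x i * n ≤ 5 / 3 := fun i n hn => by
    have hnr : (n : ℝ) ≤ W := by exact_mod_cast hn
    have h1 : x i * n ≤ 5 / 3 * ε * W :=
      mul_le_mul (hxle i) hnr (Nat.cast_nonneg _) (by linarith)
    have h2 : 5 / 3 * ε * W = 5 / 3 := by rw [mul_assoc, hεW, mul_one]
    linarith
  have hxt : ∀ i, gw (1 / 4) y i = true → x (i + 1) = x i * g := fun i hi => by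
    have h1 : gps (1 / 4) y (i + 1) = gps (1 / 4) y i + 1 / 4 := by
      rw [gps, if_pos (gw_true.1 hi)]
    rw [hx, hs]
    simp only
    rw [h1, Real.exp_add, ← hg]
    ring
  have hxf : ∀ i, gw (1 / 4) y i = false → x (i + 1) = x i / H := fun i hi => by
    have h1 : gps (1 / 4) y (i + 1) = gps (1 / 4) y i - y := by
      rw [gps, if_neg (gw_false.1 hi)]
    rw [hx, hs]
    simp only
    rw [h1, Real.exp_sub, ← hH]
    ring
  have hkey := good_count (d := d) (W := W) hW1 (gw (1 / 4) y) (LU := LU) (LV := LV) (NU := NU)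
    (NV := NV) (A := fun i => θ ^ (d - i) * (2 * x i)) (B := fun i => θ ^ (d - i) * x i ^ 2)
    (p := (1 - 12 * ε) / g) (p' := (1 + 12 * ε) / g) (q := (1 - 12 * ε) / H)
    (q' := (1 + 12 * ε) / H) hNU hNV (div_nonneg (by linarith) (by linarith))
    (div_pos (by linarith) (by linarith))
    (div_le_div_of_nonneg_right (by linarith) (by linarith))
    (hU3.le.trans hLUN) (hV3.le.trans hLVN) hU3 hV3
    (hrat hg1 hLU1 hLU2 hLUN hU1 hU2 hU3) (hrat hH1 hLV1 hLV2 hLVN hV1 hV2 hV3) ?_ ?_ ?_ ?_ ?_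
  · refine ⟨LU, LV, ?_, by omega, by omega, ?_, ?_, ?_⟩
    · have h1 : nb (gw (1 / 4) y) true d ≤ NU := by
        rw [hNU]
        exact Nat.le_mul_of_pos_right _ (by positivity)
      exact h1.trans hLUN
    · rw [← hg]
      exact hLU1
    · rw [← hH]
      exact hLV2
    · refine le_trans ?_ hkey
      apply mul_le_mul_of_nonneg_right _ (by positivity)
      simp only [Nat.sub_zero]
      have h1 : x 0 = g * ε := by
        rw [hx, hs, hεd]
        simp only [gps, Real.exp_zero]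
        ring
      have h2 : Real.exp (-(800 * d / W)) ≤ θ ^ d := by
        have h3 : Real.exp (-(800 * ε)) ≤ θ := by
          have h4 := Real.add_one_le_exp (800 * ε)
          rw [Real.exp_neg, hθ]
          have h5 : (Real.exp (800 * ε))⁻¹ ≤ (800 * ε + 1)⁻¹ :=
            inv_anti₀ (by linarith) h4
          have h6 : (800 * ε + 1)⁻¹ ≤ 1 - 400 * ε := by
            rw [inv_le_comm₀ (by linarith) (by linarith)]
            rw [inv_eq_one_div, div_le_iff₀ (by linarith)]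
            nlinarith
          exact h5.trans h6
        have h4 : -(800 * (d : ℝ) / W) = ((d : ℕ) : ℝ) * (-(800 * ε)) := by
          rw [hεd]
          ring
        rw [h4, Real.exp_nat_mul]
        exact pow_le_pow_left₀ (Real.exp_pos _).le h3 d
      have h3 : θ ^ d * (2 * x 0) - θ ^ d * x 0 ^ 2 = θ ^ d * (x 0 * (2 - x 0)) := by ring
      rw [h3]
      have h4 : ε ≤ x 0 * (2 - x 0) := by
        have h5 : x 0 ≤ 1 := by
          have := hxle 0
          linarith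
        have h6 : ε ≤ x 0 := by
          rw [h1]
          nlinarith
        nlinarith
      calc Real.exp (-(800 * d / W)) / W = Real.exp (-(800 * d / W)) * ε := by
            rw [hεd]
            ring
        _ ≤ θ ^ d * (x 0 * (2 - x 0)) := mul_le_mul h2 h4 hε.le (by positivity)
  · intro i _
    have h1 := hx0 i
    have h2 := hxle i
    have h3 : 0 < θ ^ (d - i) := by positivity
    refine ⟨by positivity, mul_le_mul_of_nonneg_left ?_ h3.le⟩
    nlinarith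
  · intro i hi hty n hn
    have h1 : d - i = (d - (i + 1)) + 1 := by omega
    have h2 := pot_true hε hε1 (hx0 i).le (hxle i) (Nat.cast_nonneg n) (hxn i n hn) hg1.le
      (by linarith)
    have h3 : 0 < θ ^ (d - (i + 1)) := by positivity
    rw [hxt i hty, h1, pow_succ]
    rw [← hθ] at h2
    have h4 := mul_le_mul_of_nonneg_left h2 h3.le
    calc θ ^ (d - (i + 1)) * θ * (2 * x i) * n - θ ^ (d - (i + 1)) * θ * x i ^ 2 * n ^ 2 =
          θ ^ (d - (i + 1)) * (θ * (2 * x i * n - x i ^ 2 * n ^ 2)) := by ring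
      _ ≤ _ := h4
      _ = _ := by ring
  · intro i hi hty n hn
    have h1 : d - i = (d - (i + 1)) + 1 := by omega
    have h2 := pot_false (H := H) hε hε1 (hx0 i).le (hxle i) (Nat.cast_nonneg n) (hxn i n hn) hH1.le
    have h3 : 0 < θ ^ (d - (i + 1)) := by positivity
    rw [hxf i hty, h1, pow_succ]
    rw [← hθ] at h2
    have h4 := mul_le_mul_of_nonneg_left h2 h3.le
    calc θ ^ (d - (i + 1)) * θ * (2 * x i) * n - θ ^ (d - (i + 1)) * θ * x i ^ 2 * n ^ 2 =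
          θ ^ (d - (i + 1)) * (θ * (2 * x i * n - x i ^ 2 * n ^ 2)) := by ring
      _ ≤ _ := h4
      _ = _ := by ring
  · intro i hi hty
    rw [hxf i hty]
    have h3 : 0 < θ ^ (d - (i + 1)) := by positivity
    have hxi := hx0 i
    have hHxW : H ≤ x i * W := by
      have h4 : x i * W = g * s i := by
        rw [hx]
        field_simp
      have h5 : 1 ≤ s i := by
        rw [hs]
        have h6 := gw_false.1 hty
        push Not at h6
        exact Real.one_le_exp h6.le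
      rw [h4]
      nlinarith
    have hδ1 : (0 : ℝ) < 1 + 12 * ε := by linarith
    have hδ2 : (0 : ℝ) < 1 - 12 * ε := by linarith
    have hH0 : 0 < H := by linarith
    have e1 : θ ^ (d - (i + 1)) * (2 * (x i / H)) / ((1 + 12 * ε) / H) =
        (2 * θ ^ (d - (i + 1)) * x i) * (1 / (1 + 12 * ε)) := by
      field_simp
    have e2 : 2 * (θ ^ (d - (i + 1)) * (x i / H) ^ 2) * W / ((1 - 12 * ε) / H) =
        (2 * θ ^ (d - (i + 1)) * x i) * ((x i * W) / (H * (1 - 12 * ε))) := by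
      field_simp
    rw [e1, e2]
    apply mul_le_mul_of_nonneg_left _ (by positivity)
    rw [div_le_div_iff₀ hδ1 (by positivity)]
    nlinarith
  · intro n hn
    simp only [Nat.sub_self, pow_zero, one_mul]
    nlinarith [sq_nonneg (1 - x d * n)]

end Pool.XDB
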