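import Pool.Agent.XDB.Defs

/-!
# XDB, row A: the rank of a sum of tensor products, one cut, both sides
-/

set_option autoImplicit false
set_option linter.unusedSectionVars false

namespace Pool.XDB

open Finset Module

section step

variable {K : Type} [Field K] {W : ℕ} {I J M S : Type} [Fintype I] [Fintype J] [Fintype M]
  [Fintype S]

/-- the dimension of the image of a larger subspace in the quotient -/
theorem finrank_map_mkQ {V : Type} [AddCommGroup V] [Module K V] [FiniteDimensional K V]
    {p q : Submodule K V} (h : p ≤ q) : finrank K (q.map p.mkQ) = finrank K q - finrank K p := by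
  have h1 := LinearMap.finrank_range_add_finrank_ker (p.mkQ.domRestrict q)
  have h2 : LinearMap.range (p.mkQ.domRestrict q) = q.map p.mkQ := by
    rw [LinearMap.range_domRestrict]
  have h3 : LinearMap.ker (p.mkQ.domRestrict q) = p.comap q.subtype := by
    ext x
    simp [LinearMap.mem_ker]
  rw [h2, h3, (Submodule.comapSubtypeEquivOfLe h).finrank_eq] at h1
  omega

/-- the space of the rows of the first matrices -/
def rs (A : Fin W → Matrix M S K) (n : ℕ) : Submodule K (S → K) :=
  Submodule.span K {v | ∃ (b : Fin W) (m : M), b.1 < n ∧ A b m = v}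

theorem rank_stR (A : Fin W → Matrix M S K) (n : ℕ) : (stR A n).rank = finrank K (rs A n) := by
  rw [Matrix.rank_eq_finrank_span_row]
  have h : Set.range (stR A n).row = {v | ∃ (b : Fin W) (m : M), b.1 < n ∧ A b m = v} := by
    ext v
    constructor
    · rintro ⟨⟨⟨b, hb⟩, m⟩, rfl⟩
      exact ⟨b, m, hb, rfl⟩
    · rintro ⟨b, m, hb, rfl⟩
      exact ⟨⟨⟨b, hb⟩, m⟩, rfl⟩
  rw [h]
  rfl

theorem rs_mono (A : Fin W → Matrix M S K) {n n' : ℕ} (h : n ≤ n') : rs A n ≤ rs A n' := by
  apply Submodule.span_mono
  rintro v ⟨b, m, hb, rfl⟩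
  exact ⟨b, m, hb.trans_le h, rfl⟩

/-- new rows -/
theorem exists_new_rows (A : Fin W → Matrix M S K) (b : Fin W) :
    ∃ m : Fin ((stR A (b.1 + 1)).rank - (stR A b.1).rank) → M,
      LinearIndependent K fun i => (rs A b.1).mkQ (A b (m i)) := by
  have h1 := finrank_map_mkQ (K := K) (rs_mono A (show b.1 ≤ b.1 + 1 from Nat.le_succ b.1))
  have h2 : (rs A (b.1 + 1)).map (rs A b.1).mkQ =
      Submodule.span K (Set.range fun m => (rs A b.1).mkQ (A b m)) := by
    apply le_antisymm
    · rw [show rs A (b.1 + 1) = Submodule.span K {v | ∃ (b' : Fin W) (m : M),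
        b'.1 < b.1 + 1 ∧ A b' m = v} from rfl, Submodule.map_span]
      apply Submodule.span_le.2
      rintro _ ⟨v, ⟨b', m, hb', rfl⟩, rfl⟩
      rcases Nat.lt_succ_iff_lt_or_eq.1 hb' with h | h
      · have : (rs A b.1).mkQ (A b' m) = 0 := by
          rw [Submodule.mkQ_apply, Submodule.Quotient.mk_eq_zero]
          exact Submodule.subset_span ⟨b', m, h, rfl⟩
        rw [this]
        exact Submodule.zero_mem _
      · have : b' = b := Fin.ext h
        rw [this]
        exact Submodule.subset_span ⟨m, rfl⟩
    · apply Submodule.span_le.2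
      rintro _ ⟨m, rfl⟩
      exact ⟨A b m, Submodule.subset_span ⟨b, m, Nat.lt_succ_self _, rfl⟩, rfl⟩
  rw [h2, ← rank_stR, ← rank_stR] at h1
  obtain ⟨f, hf, -, hli⟩ := Submodule.exists_fun_fin_finrank_span_eq K
    (Set.range fun m => (rs A b.1).mkQ (A b m))
  choose g hg using hf
  refine ⟨fun i => g (Fin.cast h1.symm i), ?_⟩
  have h3 : (fun i => (rs A b.1).mkQ (A b (g (Fin.cast h1.symm i)))) =
      f ∘ (Fin.cast h1.symm) := by
    funext i
    exact hg _
  rw [h3]
  exact hli.comp _ (Fin.cast_injective _)

/-- the functionals which vanish on the columns of the first matrices -/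
def pn (B : Fin W → Matrix I J K) (n : ℕ) : Submodule K (I → K) :=
  LinearMap.ker (Matrix.vecMulLinear (stC B n))

theorem mem_pn (B : Fin W → Matrix I J K) (n : ℕ) (φ : I → K) :
    φ ∈ pn B n ↔ ∀ (b : Fin W) (j : J), b.1 < n → ∑ i, φ i * B b i j = 0 := by
  rw [pn, LinearMap.mem_ker]
  constructor
  · intro h b j hb
    have := congrFun h (⟨b, hb⟩, j)
    exact this
  · intro h
    funext x
    exact h x.1.1 x.2 x.1.2

theorem finrank_pn (B : Fin W → Matrix I J K) (n : ℕ) :
    finrank K (pn B n) + (stC B n).rank = Fintype.card I := by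
  have h1 := LinearMap.finrank_range_add_finrank_ker (Matrix.vecMulLinear (stC B n))
  rw [range_vecMulLinear, ← Matrix.rank_eq_finrank_span_row,
    Module.finrank_fintype_fun_eq_card] at h1
  rw [← h1, add_comm]
  rfl

theorem pn_anti (B : Fin W → Matrix I J K) {n n' : ℕ} (h : n ≤ n') : pn B n' ≤ pn B n := by
  intro φ hφ
  rw [mem_pn] at hφ ⊢
  exact fun b j hb => hφ b j (hb.trans_le h)

/-- homogeneous functionals -/
theorem exists_functionals (B : Fin W → Matrix I J K) (κI : I → ℤ) (κJ : J → ℤ)
    (hB : ∀ b i j, B b i j ≠ 0 → κI i = κJ j - (b.1 : ℤ)) (b : Fin W) :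
    ∃ (c : Fin ((stC B (b.1 + 1)).rank - (stC B b.1).rank) → ℤ)
      (φ : Fin ((stC B (b.1 + 1)).rank - (stC B b.1).rank) → I → K),
      (∀ j i, φ j i ≠ 0 → κI i = c j) ∧ (∀ j, φ j ∈ pn B b.1) ∧
      LinearIndependent K fun j => Matrix.vecMul (φ j) (B b) := by
  classical
  let s : Set (J → K) := {v | ∃ (c : ℤ) (φ : I → K), (∀ i, φ i ≠ 0 → κI i = c) ∧ φ ∈ pn B b.1 ∧
    Matrix.vecMul φ (B b) = v}
  -- the dimension of the image
  have h1 := LinearMap.finrank_range_add_finrank_ker
    ((Matrix.vecMulLinear (B b)).domRestrict (pn B b.1))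
  have h2 : LinearMap.ker ((Matrix.vecMulLinear (B b)).domRestrict (pn B b.1)) =
      (pn B (b.1 + 1)).comap (pn B b.1).subtype := by
    ext x
    rw [LinearMap.mem_ker, Submodule.mem_comap, mem_pn]
    constructor
    · intro h b' j hb'
      rcases Nat.lt_succ_iff_lt_or_eq.1 hb' with h' | h'
      · exact (mem_pn B b.1 x.1).1 x.2 b' j h'
      · have : b' = b := Fin.ext h'
        rw [this]
        exact congrFun h j
    · intro h
      funext j
      exact h b j (Nat.lt_succ_self _)
  rw [h2, (Submodule.comapSubtypeEquivOfLe (pn_anti B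
    (show b.1 ≤ b.1 + 1 from Nat.le_succ b.1))).finrank_eq] at h1
  have h3 := finrank_pn B b.1
  have h4 := finrank_pn B (b.1 + 1)
  have h5 : LinearMap.range ((Matrix.vecMulLinear (B b)).domRestrict (pn B b.1)) =
      Submodule.span K s := by
    apply le_antisymm
    · rintro _ ⟨⟨φ, hφ⟩, rfl⟩
      show Matrix.vecMul φ (B b) ∈ Submodule.span K s
      have e1 : φ = ∑ c ∈ univ.image κI, fun i => if κI i = c then φ i else 0 := by
        funext i
        rw [Finset.sum_apply, sum_ite_eq, if_pos (mem_image_of_mem _ (mem_univ i))]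
      have e2 : Matrix.vecMul φ (B b) = ∑ c ∈ univ.image κI,
          Matrix.vecMul (fun i => if κI i = c then φ i else 0) (B b) := by
        have : ∀ ψ, Matrix.vecMul ψ (B b) = Matrix.vecMulLinear (B b) ψ := fun _ => rfl
        conv_lhs => rw [e1]
        simp only [this]
        rw [map_sum]
      rw [e2]
      refine Submodule.sum_mem _ fun c _ => Submodule.subset_span ?_
      refine ⟨c, _, fun i hi => ?_, ?_, rfl⟩
      · by_contra h
        rw [if_neg h] at hi
        exact hi rfl
      · rw [mem_pn] at hφ ⊢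
        intro b' j hb'
        by_cases hc : κJ j - (b'.1 : ℤ) = c
        · rw [← hφ b' j hb']
          refine sum_congr rfl fun i _ => ?_
          by_cases h0 : B b' i j = 0
          · rw [h0, mul_zero, mul_zero]
          · rw [if_pos ((hB b' i j h0).trans hc)]
        · refine sum_eq_zero fun i _ => ?_
          by_cases h0 : B b' i j = 0
          · rw [h0, mul_zero]
          · rw [if_neg, zero_mul]
            rw [hB b' i j h0]
            exact hc
    · apply Submodule.span_le.2
      rintro v ⟨c, φ, _, hφ, rfl⟩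
      exact ⟨⟨φ, hφ⟩, rfl⟩
  rw [h5] at h1
  have h6 : finrank K (Submodule.span K s) = (stC B (b.1 + 1)).rank - (stC B b.1).rank := by
    omega
  obtain ⟨f, hf, -, hli⟩ := Submodule.exists_fun_fin_finrank_span_eq K s
  choose c φ h7 h8 h9 using hf
  refine ⟨fun j => c (Fin.cast h6.symm j), fun j => φ (Fin.cast h6.symm j), fun j i => h7 _ i,
    fun j => h8 _, ?_⟩
  have h10 : (fun j => Matrix.vecMul (φ (Fin.cast h6.symm j)) (B b)) =
      f ∘ (Fin.cast h6.symm) := by
    funext j
    exact h9 _
  rw [h10]
  exact hli.comp _ (Fin.cast_injective _)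

/-- **row A**: the rank of a sum of tensor products -/
theorem step_rank (A : Fin W → Matrix M S K) (B : Fin W → Matrix I J K)
    (κI : I → ℤ) (κJ : J → ℤ) (hB : ∀ b i j, B b i j ≠ 0 → κI i = κJ j - (b.1 : ℤ)) :
    ∑ b ∈ range W, ((stR A (b + 1)).rank - (stR A b).rank) *
      ((stC B (b + 1)).rank - (stC B b).rank) ≤ (comb A B).rank := by
  classical
  choose m hm using fun b => exists_new_rows A b
  choose c φ h1 h2 h3 using fun b => exists_functionals B κI κJ hB b
  let v : ((b : Fin W) × (Fin ((stR A (b.1 + 1)).rank - (stR A b.1).rank) ×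
      Fin ((stC B (b.1 + 1)).rank - (stC B b.1).rank))) → (S × J → K) := fun x y =>
    ∑ b', A b' (m x.1 x.2.1) y.1 * ∑ i, φ x.1 x.2.2 i * B b' i y.2
  -- the vectors are in the span of the rows
  have hv : ∀ x, v x ∈ Submodule.span K (Set.range (comb A B).row) := by
    intro x
    have e1 : v x = ∑ i, φ x.1 x.2.2 i • (comb A B).row (m x.1 x.2.1, i) := by
      funext y
      rw [Finset.sum_apply]
      show ∑ b', A b' (m x.1 x.2.1) y.1 * ∑ i, φ x.1 x.2.2 i * B b' i y.2 =
        ∑ i, φ x.1 x.2.2 i * ∑ b', A b' (m x.1 x.2.1) y.1 * B b' i y.2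
      simp only [mul_sum]
      rw [sum_comm]
      refine sum_congr rfl fun i _ => sum_congr rfl fun b' _ => ?_
      ring
    rw [e1]
    exact Submodule.sum_mem _ fun i _ => Submodule.smul_mem _ _ (Submodule.subset_span ⟨_, rfl⟩)
  -- the vectors are linearly independent
  have hli : LinearIndependent K v := by
    rw [Fintype.linearIndependent_iff]
    intro lam hlam
    by_contra hcon
    push Not at hcon
    obtain ⟨x0, hx0⟩ := hcon
    obtain ⟨x, hx, hmin⟩ := exists_min_image (univ.filter fun x => lam x ≠ 0)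
      (fun x => toLex (c x.1 x.2.2, (x.1.1 : ℤ))) ⟨x0, mem_filter.2 ⟨mem_univ _, hx0⟩⟩
    rw [mem_filter] at hx
    obtain ⟨b, i0, j0⟩ := x
    have hmin' : ∀ y, lam y ≠ 0 → c b j0 < c y.1 y.2.2 ∨ (c b j0 = c y.1 y.2.2 ∧ b.1 ≤ y.1.1) := by
      intro y hy
      have := hmin y (mem_filter.2 ⟨mem_univ _, hy⟩)
      rcases Prod.Lex.toLex_le_toLex.1 this with h | h
      · exact Or.inl h
      · have h' : ((b.1 : ℕ) : ℤ) ≤ ((y.1.1 : ℕ) : ℤ) := h.2
        exact Or.inr ⟨h.1, by exact_mod_cast h'⟩
    -- the value of the functional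
    have h4 : ∀ y : ((b : Fin W) × (Fin ((stR A (b.1 + 1)).rank - (stR A b.1).rank) ×
        Fin ((stC B (b.1 + 1)).rank - (stC B b.1).rank))), ∀ (b' : Fin W) (jj : J),
        ∑ i, φ y.1 y.2.2 i * B b' i jj ≠ 0 →
          c y.1 y.2.2 = κJ jj - (b'.1 : ℤ) ∧ y.1.1 ≤ b'.1 := by
      intro y b' jj hne
      constructor
      · obtain ⟨i, _, hi⟩ := exists_ne_zero_of_sum_ne_zero hne
        rw [← h1 y.1 y.2.2 i (left_ne_zero_of_mul hi)]
        exact hB b' i jj (right_ne_zero_of_mul hi)
      · by_contra hlt
        exact hne ((mem_pn B y.1.1 _).1 (h2 y.1 y.2.2) b' jj (by omega))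
    have h5 : ∀ jj, ∑ i, (∑ j, if c b j = c b j0 then lam ⟨b, (i, j)⟩ *
        (∑ i', φ b j i' * B b i' jj) else 0) • (rs A b.1).mkQ (A b (m b i)) = 0 := by
      intro jj
      by_cases hjj : κJ jj = c b j0 + b.1
      · have e0 : ∑ y, lam y • ∑ b', (∑ i', φ y.1 y.2.2 i' * B b' i' jj) •
            (rs A b.1).mkQ (A b' (m y.1 y.2.1)) = 0 := by
          have e1 : ∑ y, lam y • ∑ b', (∑ i', φ y.1 y.2.2 i' * B b' i' jj) •
              A b' (m y.1 y.2.1) = 0 := by
            funext s
            have := congrFun hlam (s, jj)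
            rw [Finset.sum_apply] at this ⊢
            rw [Pi.zero_apply] at this ⊢
            rw [← this]
            refine sum_congr rfl fun y _ => ?_
            rw [Pi.smul_apply, Pi.smul_apply, smul_eq_mul, smul_eq_mul, Finset.sum_apply]
            congr 1
            refine sum_congr rfl fun b' _ => ?_
            rw [Pi.smul_apply, smul_eq_mul, mul_comm]
          have e2 := congrArg (rs A b.1).mkQ e1
          rw [map_zero, map_sum] at e2
          rw [← e2]
          refine sum_congr rfl fun y _ => ?_
          rw [map_smul, map_sum]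
          congr 1
        have e3 : ∀ y : ((b : Fin W) × (Fin ((stR A (b.1 + 1)).rank - (stR A b.1).rank) ×
            Fin ((stC B (b.1 + 1)).rank - (stC B b.1).rank))),
            lam y • ∑ b', (∑ i', φ y.1 y.2.2 i' * B b' i' jj) •
            (rs A b.1).mkQ (A b' (m y.1 y.2.1)) =
            if h : y.1 = b ∧ c y.1 y.2.2 = c b j0 then
              (lam y * ∑ i', φ y.1 y.2.2 i' * B b i' jj) •
                (rs A b.1).mkQ (A b (m y.1 y.2.1)) else 0 := by
          intro y
          by_cases hy : lam y = 0
          · rw [hy, zero_smul]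
            split_ifs
            · rw [zero_mul, zero_smul]
            · rfl
          have hm1 := hmin' y hy
          -- the terms of the sum
          have e4 : ∀ b', b' ≠ b ∨ ¬ (y.1 = b ∧ c y.1 y.2.2 = c b j0) →
              (∑ i', φ y.1 y.2.2 i' * B b' i' jj) •
                (rs A b.1).mkQ (A b' (m y.1 y.2.1)) = 0 := by
            intro b' hb'
            by_cases hne : ∑ i', φ y.1 y.2.2 i' * B b' i' jj = 0
            · rw [hne, zero_smul]
            obtain ⟨h6, h7⟩ := h4 y b' jj hne
            have h8 : b'.1 < b.1 := by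
              rcases hm1 with h9 | ⟨h9, h10⟩
              · omega
              · exfalso
                have h11 : b'.1 = b.1 := by omega
                have h12 : b' = b := Fin.ext h11
                rcases hb' with h13 | h13
                · exact h13 h12
                · exact h13 ⟨Fin.ext (by omega), h9.symm⟩
            have h9 : (rs A b.1).mkQ (A b' (m y.1 y.2.1)) = 0 := by
              rw [Submodule.mkQ_apply, Submodule.Quotient.mk_eq_zero]
              exact Submodule.subset_span ⟨b', _, h8, rfl⟩
            rw [h9, smul_zero]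
          by_cases hyb : y.1 = b ∧ c y.1 y.2.2 = c b j0
          · rw [dif_pos hyb, sum_eq_single b (fun b' _ hb' => e4 b' (Or.inl hb'))
              (fun h => absurd (mem_univ _) h), smul_smul]
          · rw [dif_neg hyb, sum_eq_zero fun b' _ => e4 b' (Or.inr hyb), smul_zero]
        rw [sum_congr rfl fun y _ => e3 y, Fintype.sum_sigma] at e0
        rw [sum_eq_single b] at e0
        · rw [← e0, Fintype.sum_prod_type]
          refine sum_congr rfl fun i _ => ?_
          rw [sum_smul]
          refine sum_congr rfl fun j _ => ?_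
          by_cases hj : c b j = c b j0
          · rw [if_pos hj, dif_pos ⟨rfl, hj⟩]
          · rw [if_neg hj, dif_neg (fun h => hj h.2), zero_smul]
        · intro b' _ hb'
          refine sum_eq_zero fun y _ => ?_
          rw [dif_neg]
          rintro ⟨h, _⟩
          exact hb' h
        · intro h
          exact absurd (mem_univ _) h
      · refine sum_eq_zero fun i _ => ?_
        rw [sum_eq_zero, zero_smul]
        intro j _
        by_cases hj : c b j = c b j0
        · rw [if_pos hj]
          have : ∑ i', φ b j i' * B b i' jj = 0 := by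
            by_contra hne
            have := (h4 ⟨b, (i, j)⟩ b jj hne).1
            apply hjj
            have e1 : c b j = κJ jj - (b.1 : ℤ) := this
            omega
          rw [this, mul_zero]
        · rw [if_neg hj]
    -- conclusion
    have h6 : ∀ jj i, (∑ j, if c b j = c b j0 then lam ⟨b, (i, j)⟩ *
        (∑ i', φ b j i' * B b i' jj) else 0) = 0 := fun jj =>
      Fintype.linearIndependent_iff.1 (hm b) _ (h5 jj)
    have h7 := Fintype.linearIndependent_iff.1 (h3 b)
      (fun j => if c b j = c b j0 then lam ⟨b, (i0, j)⟩ else 0) (by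
        funext jj
        rw [Finset.sum_apply, Pi.zero_apply]
        refine Eq.trans (sum_congr rfl fun j _ => ?_) (h6 jj i0)
        show (if c b j = c b j0 then lam ⟨b, (i0, j)⟩ else 0) * Matrix.vecMul (φ b j) (B b) jj = _
        by_cases hj : c b j = c b j0
        · rw [if_pos hj, if_pos hj]
          rfl
        · rw [if_neg hj, if_neg hj, zero_mul]) j0
    rw [if_pos rfl] at h7
    exact hx.2 h7
  -- the number of the vectors
  have h8 : Fintype.card ((b : Fin W) × (Fin ((stR A (b.1 + 1)).rank - (stR A b.1).rank) ×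
      Fin ((stC B (b.1 + 1)).rank - (stC B b.1).rank))) =
      ∑ b ∈ range W, ((stR A (b + 1)).rank - (stR A b).rank) *
      ((stC B (b + 1)).rank - (stC B b).rank) := by
    rw [Fintype.card_sigma, ← Fin.sum_univ_eq_sum_range
      (fun b => ((stR A (b + 1)).rank - (stR A b).rank) *
      ((stC B (b + 1)).rank - (stC B b).rank)) W]
    refine sum_congr rfl fun b _ => ?_
    rw [Fintype.card_prod, Fintype.card_fin, Fintype.card_fin]
  rw [← h8, Matrix.rank_eq_finrank_span_row]
  have h9 : LinearIndependent K (fun x => (⟨v x, hv x⟩ :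
      Submodule.span K (Set.range (comb A B).row))) := by
    apply LinearIndependent.of_comp (Submodule.subtype _)
    exact hli
  exact h9.fintype_card_le_finrank

end step

end Pool.XDB
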