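import Pool.Agent.XDB.TestsA

/-!
# XDB, row E: sequential tests and the quadratic potential
-/

set_option autoImplicit false
set_option linter.unusedSectionVars false

namespace Pool.XDB

open Finset Pool.XD

section ratio

variable {L : Type} [Fintype L] [DecidableEq L] (ty : L → Bool)

theorem ratio_true {a b : ℕ} {P Q : Finset L} {l : L} {p p' : ℝ} (hPQ : Disjoint P Q)
    (hl : l ∉ P) (hl' : l ∉ Q) (ht : ty l = true) (ha : P.card + Q.card < a)
    (hb : P.card + Q.card ≤ b)
    (h : p * (nU ty - ct ty true Q).multichoose (a - ct ty true P) ≤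
        (nU ty - ct ty true Q).multichoose (a - (ct ty true P + 1)) ∧
      ((nU ty - ct ty true Q).multichoose (a - (ct ty true P + 1)) : ℝ) ≤
        p' * (nU ty - ct ty true Q).multichoose (a - ct ty true P)) :
    p * (Zs ty a b P Q).card ≤ (Zs ty a b (insert l P) Q).card ∧
      ((Zs ty a b (insert l P) Q).card : ℝ) ≤ p' * (Zs ty a b P Q).card := by
  have h1 := ct_le ty true P
  have h2 := ct_le ty false P
  have h3 : ct ty true (insert l P) = ct ty true P + 1 := by
    rw [ct_insert ty hl, if_pos ht]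
  have h4 : ct ty false (insert l P) = ct ty false P := by
    rw [ct_insert ty hl, if_neg (by rw [ht]; simp), add_zero]
  rw [card_Zs ty hPQ (by omega) (by omega),
    card_Zs ty (disjoint_insert_left.2 ⟨hl', hPQ⟩) (by omega) (by omega), h3, h4]
  push_cast
  have h5 : (0 : ℝ) ≤ (nV ty - ct ty false Q).multichoose (b - ct ty false P) := Nat.cast_nonneg _
  constructor
  · rw [← mul_assoc]
    exact mul_le_mul_of_nonneg_right h.1 h5
  · rw [← mul_assoc]
    exact mul_le_mul_of_nonneg_right h.2 h5

theorem ratio_false {a b : ℕ} {P Q : Finset L} {l : L} {q q' : ℝ} (hPQ : Disjoint P Q)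
    (hl : l ∉ P) (hl' : l ∉ Q) (ht : ty l = false) (ha : P.card + Q.card ≤ a)
    (hb : P.card + Q.card < b)
    (h : q * (nV ty - ct ty false Q).multichoose (b - ct ty false P) ≤
        (nV ty - ct ty false Q).multichoose (b - (ct ty false P + 1)) ∧
      ((nV ty - ct ty false Q).multichoose (b - (ct ty false P + 1)) : ℝ) ≤
        q' * (nV ty - ct ty false Q).multichoose (b - ct ty false P)) :
    q * (Zs ty a b P Q).card ≤ (Zs ty a b (insert l P) Q).card ∧
      ((Zs ty a b (insert l P) Q).card : ℝ) ≤ q' * (Zs ty a b P Q).card := by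
  have h1 := ct_le ty true P
  have h2 := ct_le ty false P
  have h3 : ct ty true (insert l P) = ct ty true P := by
    rw [ct_insert ty hl, if_neg (by rw [ht]; simp), add_zero]
  have h4 : ct ty false (insert l P) = ct ty false P + 1 := by
    rw [ct_insert ty hl, if_pos ht]
  rw [card_Zs ty hPQ (by omega) (by omega),
    card_Zs ty (disjoint_insert_left.2 ⟨hl', hPQ⟩) (by omega) (by omega), h3, h4]
  push_cast
  have h5 : (0 : ℝ) ≤ (nU ty - ct ty true Q).multichoose (a - ct ty true P) := Nat.cast_nonneg _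
  constructor
  · have := mul_le_mul_of_nonneg_left h.1 h5
    linarith
  · have := mul_le_mul_of_nonneg_left h.2 h5
    linarith

end ratio

section reals

/-- the potential inside a block of type `true`: `c` successes, `rem` tests left -/
noncomputable def QT (A B p p' c rem : ℝ) : ℝ :=
  (A - B) * (c + rem * p) - B * (c * (c - 1) + 2 * c * rem * p' + rem * (rem - 1) * p' ^ 2)

/-- the potential inside a block of type `false`: `s` successes missing, `t` tests made -/
noncomputable def VT (A B q q' s t : ℝ) : ℝ :=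
  A * (t + s / q') - B * (t ^ 2 + 2 * t * s / q + (s ^ 2 + s) / q ^ 2)

/-- one test in a block of type `true` -/
theorem step_true {A B p p' z s1 c rem : ℝ} (hB : B ≤ A) (hB0 : 0 ≤ B) (hp' : 0 ≤ p')
    (hc : 0 ≤ c) (hrem : 0 ≤ rem) (h1 : p * z ≤ s1) (h2 : s1 ≤ p' * z) :
    QT A B p p' c (rem + 1) * z ≤
      QT A B p p' (c + 1) rem * s1 + QT A B p p' c rem * (z - s1) := by
  have h3 : 0 ≤ (A - B) * (s1 - p * z) := mul_nonneg (by linarith) (by linarith)
  have h4 : 0 ≤ B * ((2 * c + 2 * rem * p') * (p' * z - s1)) :=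
    mul_nonneg hB0 (mul_nonneg (by positivity) (by linarith))
  have h5 : QT A B p p' (c + 1) rem * s1 + QT A B p p' c rem * (z - s1) -
      QT A B p p' c (rem + 1) * z =
      (A - B) * (s1 - p * z) + B * ((2 * c + 2 * rem * p') * (p' * z - s1)) := by
    rw [QT, QT, QT]
    ring
  linarith

/-- one test in a block of type `false` -/
theorem step_false {A B q q' z s1 s t : ℝ} (hA : 0 ≤ A) (hB0 : 0 ≤ B) (hq : 0 < q)
    (hq' : 0 < q') (hs : 0 ≤ s) (ht : 0 ≤ t) (hz : 0 ≤ z) (h1 : q * z ≤ s1) (h2 : s1 ≤ q' * z) :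
    VT A B q q' (s + 1) t * z ≤
      VT A B q q' s (t + 1) * s1 + VT A B q q' (s + 1) (t + 1) * (z - s1) := by
  have h3 : 0 ≤ A * (z - s1 / q') := by
    refine mul_nonneg hA (sub_nonneg.2 ?_)
    rw [div_le_iff₀ hq']
    linarith
  have h4 : 0 ≤ B * ((s1 / q - z) * (2 * (t + 1) + 2 * (s + 1) / q) + z) := by
    refine mul_nonneg hB0 (add_nonneg (mul_nonneg (sub_nonneg.2 ?_) (by positivity)) hz)
    rw [le_div_iff₀ hq]
    linarith
  have h5 : VT A B q q' s (t + 1) * s1 + VT A B q q' (s + 1) (t + 1) * (z - s1) -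
      VT A B q q' (s + 1) t * z =
      A * (z - s1 / q') + B * ((s1 / q - z) * (2 * (t + 1) + 2 * (s + 1) / q) + z) := by
    rw [VT, VT, VT]
    field_simp
    ring
  linarith

/-- the end of a block of type `false` -/
theorem cap_false {A B q q' s w : ℝ} (hB0 : 0 ≤ B) (hq : 0 < q) (hs : 0 ≤ s)
    (h : A / q' ≤ 2 * B * w / q) : VT A B q q' s w ≤ A * w - B * w ^ 2 := by
  have h1 : A / q' * s ≤ 2 * B * w / q * s := mul_le_mul_of_nonneg_right h hs
  have h2 : 0 ≤ B * ((s ^ 2 + s) / q ^ 2) := by positivity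
  have h3 : VT A B q q' s w = A * w - B * w ^ 2 + (A / q' * s - 2 * B * w / q * s) -
      B * ((s ^ 2 + s) / q ^ 2) := by
    rw [VT]
    ring
  linarith

end reals

section process

variable {d W : ℕ}

theorem vl_blk (α : Lt d W → ℕ) {i a b : ℕ} (hi : i < d) (ha : a < W) (hb : b < W) :
    vl (blk α i) a b = α (⟨i, hi⟩, (⟨a, ha⟩, ⟨b, hb⟩)) := by
  rw [vl, dif_pos ⟨ha, hb⟩, blk, dif_pos hi]

theorem scR_le (μ : Ex W) (n : ℕ) : scR μ n ≤ n := by
  induction n with
  | zero => exact le_rfl
  | succ n ih =>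
    rw [scR]
    split_ifs <;> omega

theorem scC_mono (μ : Ex W) : Monotone (scC μ) := by
  refine monotone_nat_of_le_succ fun b => ?_
  rw [scC]
  exact Nat.le_add_right _ _

theorem nx_false_eq {μ : Ex W} {n t : ℕ} (ht : t ≤ W) (h1 : ∀ b < t, scC μ b < n)
    (h2 : t = W ∨ n ≤ scC μ t) : nx W false n μ = t := by
  have h3 : (range W).filter (fun b => scC μ b < n) = range t := by
    ext b
    simp only [mem_filter, mem_range]
    constructor
    · rintro ⟨hb, hb'⟩
      rcases h2 with h2 | h2
      · omega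
      · by_contra h4
        have := scC_mono μ (not_lt.1 h4)
        omega
    · intro hb
      exact ⟨by omega, h1 b hb⟩
  rw [nx, if_neg (by simp), h3, card_range]

variable (ty : ℕ → Bool) (LU LV : ℕ)

/-- the rows for which the population survives -/
noncomputable def Sv (d W : ℕ) : Finset (Box (tyq (d := d) (W := W) ty) LU LV) :=
  univ.filter fun α => 1 ≤ pop ty α.1 d

/-- the bound from the block `i` on -/
def Out (d W : ℕ) (A B : ℕ → ℝ) (i : ℕ) : Prop :=
  ∀ (P Q : Finset (Lt d W)) (n : ℕ), Disjoint P Q → (∀ l ∈ P, l.1.1 < i) → (∀ l ∈ Q, l.1.1 < i) →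
    P.card + Q.card ≤ i * W → n ≤ W →
    (∀ α ∈ Zs (tyq ty) LU LV P Q, pop ty α.1 i = n) →
    (A i * n - B i * n ^ 2) * (Zs (tyq ty) LU LV P Q).card ≤
      ((Zs (tyq ty) LU LV P Q ∩ Sv ty LU LV d W).card : ℝ)

/-- the bounds for one test of a letter of type `t` -/
def Rat (d W : ℕ) (t : Bool) (p p' : ℝ) : Prop :=
  ∀ (P Q : Finset (Lt d W)) (l : Lt d W), Disjoint P Q → l ∉ P → l ∉ Q → ty l.1 = t →
    P.card + Q.card < d * W →
    p * (Zs (tyq ty) LU LV P Q).card ≤ (Zs (tyq ty) LU LV (insert l P) Q).card ∧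
      ((Zs (tyq ty) LU LV (insert l P) Q).card : ℝ) ≤ p' * (Zs (tyq ty) LU LV P Q).card

variable {ty LU LV}

theorem Zs_insert_left (P Q : Finset (Lt d W)) (l : Lt d W) {α : Box (tyq ty) LU LV}
    (h : α ∈ Zs (tyq ty) LU LV (insert l P) Q) :
    α ∈ Zs (tyq ty) LU LV P Q ∧ 1 ≤ α.1 l := by
  simp only [Zs, mem_filter, mem_univ, true_and, mem_insert, forall_eq_or_imp] at h ⊢
  tauto

theorem Zs_insert_right (P Q : Finset (Lt d W)) (l : Lt d W) {α : Box (tyq ty) LU LV}
    (h : α ∈ Zs (tyq ty) LU LV P (insert l Q)) :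
    α ∈ Zs (tyq ty) LU LV P Q ∧ α.1 l = 0 := by
  simp only [Zs, mem_filter, mem_univ, true_and, mem_insert, forall_eq_or_imp] at h ⊢
  tauto

theorem card_split (P Q : Finset (Lt d W)) (l : Lt d W) :
    ((Zs (tyq ty) LU LV P (insert l Q)).card : ℝ) =
      (Zs (tyq ty) LU LV P Q).card - (Zs (tyq ty) LU LV (insert l P) Q).card := by
  have h := card_Zs_split (tyq (d := d) (W := W) ty) (a := LU) (b := LV) P Q l univ
  rw [inter_univ, inter_univ, inter_univ] at h
  rw [h]
  push_cast
  ring

theorem inner_true {A B : ℕ → ℝ} {p p' : ℝ} {i : ℕ} (hi : i < d) (hty : ty i = true)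
    (hrat : Rat ty LU LV d W true p p') (hp' : 0 ≤ p') (hB : B (i + 1) ≤ A (i + 1))
    (hB0 : 0 ≤ B (i + 1)) (hout : Out ty LU LV d W A B (i + 1)) {n : ℕ} (hn : n ≤ W) :
    ∀ (rem a c : ℕ) (P Q : Finset (Lt d W)), a + rem = n → c ≤ a → Disjoint P Q →
      (∀ l ∈ P, l.1.1 < i ∨ (l.1.1 = i ∧ l.2.1.1 < a)) →
      (∀ l ∈ Q, l.1.1 < i ∨ (l.1.1 = i ∧ l.2.1.1 < a)) →
      P.card + Q.card ≤ i * W + a →
      (∀ α ∈ Zs (tyq ty) LU LV P Q, pop ty α.1 i = n) →
      (∀ α ∈ Zs (tyq ty) LU LV P Q, scR (blk α.1 i) a = c) →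
      QT (A (i + 1)) (B (i + 1)) p p' c rem * (Zs (tyq ty) LU LV P Q).card ≤
        ((Zs (tyq ty) LU LV P Q ∩ Sv ty LU LV d W).card : ℝ) := by
  intro rem
  induction rem with
  | zero =>
    intro a c P Q ha hc hPQ hP hQ hcard hpop hsc
    have h1 := hout P Q c hPQ (fun l hl => by have := hP l hl; omega)
      (fun l hl => by have := hQ l hl; omega) (by rw [Nat.add_mul, one_mul]; omega) (by omega)
      (fun α hα => by
        rw [pop, hpop α hα, hty, nx, if_pos rfl]
        have h2 : a = n := by omega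
        rw [← h2]
        exact hsc α hα)
    refine le_trans (le_of_eq ?_) h1
    rw [QT]
    push_cast
    ring
  | succ rem ih =>
    intro a c P Q ha hc hPQ hP hQ hcard hpop hsc
    have haW : a < W := by omega
    have hcW : c < W := by omega
    set l : Lt d W := (⟨i, hi⟩, (⟨a, haW⟩, ⟨c, hcW⟩)) with hl
    have hlP : l ∉ P := fun h => by
      have h1 := hP l h
      simp only [hl] at h1
      omega
    have hlQ : l ∉ Q := fun h => by
      have h1 := hQ l h
      simp only [hl] at h1
      omega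
    have hiW : i * W + W ≤ d * W := by
      calc i * W + W = (i + 1) * W := by ring
        _ ≤ d * W := Nat.mul_le_mul_right _ hi
    have h1 := hrat P Q l hPQ hlP hlQ hty (by omega)
    have h2 := ih (a + 1) (c + 1) (insert l P) Q (by omega) (by omega)
      (disjoint_insert_left.2 ⟨hlQ, hPQ⟩)
      (fun k hk => by
        rcases mem_insert.1 hk with rfl | hk
        · exact Or.inr ⟨rfl, Nat.lt_succ_self _⟩
        · have := hP k hk
          omega)
      (fun k hk => by have := hQ k hk; omega)
      (by rw [card_insert_of_notMem hlP]; omega)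
      (fun α hα => hpop α (Zs_insert_left P Q l hα).1)
      (fun α hα => by
        obtain ⟨h3, h4⟩ := Zs_insert_left P Q l hα
        rw [scR, hsc α h3, vl_blk α.1 hi haW hcW, if_pos h4])
    have h3 := ih (a + 1) c P (insert l Q) (by omega) (by omega)
      (disjoint_insert_right.2 ⟨hlP, hPQ⟩)
      (fun k hk => by have := hP k hk; omega)
      (fun k hk => by
        rcases mem_insert.1 hk with rfl | hk
        · exact Or.inr ⟨rfl, Nat.lt_succ_self _⟩
        · have := hQ k hk
          omega)
      (by rw [card_insert_of_notMem hlQ]; omega)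
      (fun α hα => hpop α (Zs_insert_right P Q l hα).1)
      (fun α hα => by
        obtain ⟨h3, h4⟩ := Zs_insert_right P Q l hα
        rw [scR, hsc α h3, vl_blk α.1 hi haW hcW, if_neg (by rw [← hl, h4]; omega), add_zero])
    have h4 := card_Zs_split (tyq (d := d) (W := W) ty) (a := LU) (b := LV) P Q l
      (Sv ty LU LV d W)
    have h5 := step_true (c := (c : ℝ)) (rem := (rem : ℝ)) hB hB0 hp' (Nat.cast_nonneg _)
      (Nat.cast_nonneg _) h1.1 h1.2
    rw [h4]
    rw [card_split] at h3
    push_cast at h2 h3 h5 ⊢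
    linarith

theorem inner_false {A B : ℕ → ℝ} {q q' : ℝ} {i : ℕ} (hi : i < d) (hty : ty i = false)
    (hrat : Rat ty LU LV d W false q q') (hq : 0 < q) (hq' : 0 < q') (hA0 : 0 ≤ A (i + 1))
    (hB0 : 0 ≤ B (i + 1)) (hcap : A (i + 1) / q' ≤ 2 * B (i + 1) * W / q)
    (hout : Out ty LU LV d W A B (i + 1)) {n : ℕ} (hn : n ≤ W) :
    ∀ (rem t s : ℕ) (P Q : Finset (Lt d W)), t + rem = W → s ≤ n → Disjoint P Q →
      (∀ l ∈ P, l.1.1 < i ∨ (l.1.1 = i ∧ l.2.2.1 < t)) →
      (∀ l ∈ Q, l.1.1 < i ∨ (l.1.1 = i ∧ l.2.2.1 < t)) →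
      P.card + Q.card ≤ i * W + t →
      (∀ α ∈ Zs (tyq ty) LU LV P Q, pop ty α.1 i = n) →
      (∀ α ∈ Zs (tyq ty) LU LV P Q, scC (blk α.1 i) t = n - s ∧
        ∀ b < t, scC (blk α.1 i) b < n) →
      VT (A (i + 1)) (B (i + 1)) q q' s t * (Zs (tyq ty) LU LV P Q).card ≤
        ((Zs (tyq ty) LU LV P Q ∩ Sv ty LU LV d W).card : ℝ) := by
  intro rem
  induction rem with
  | zero =>
    intro t s P Q ht hs hPQ hP hQ hcard hpop hsc
    have h1 := hout P Q t hPQ (fun l hl => by have := hP l hl; omega)
      (fun l hl => by have := hQ l hl; omega) (by rw [Nat.add_mul, one_mul]; omega) (by omega)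
      (fun α hα => by
        rw [pop, hpop α hα, hty]
        exact nx_false_eq (by omega) (hsc α hα).2 (Or.inl (by omega)))
    refine le_trans (mul_le_mul_of_nonneg_right ?_ (Nat.cast_nonneg _)) h1
    have h2 : (t : ℝ) = W := by
      have : t = W := by omega
      rw [this]
    rw [h2]
    exact cap_false hB0 hq (Nat.cast_nonneg _) hcap
  | succ rem ih =>
    intro t s P Q ht hs hPQ hP hQ hcard hpop hsc
    rcases Nat.eq_zero_or_pos s with rfl | hs0
    · have h1 := hout P Q t hPQ (fun l hl => by have := hP l hl; omega)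
        (fun l hl => by have := hQ l hl; omega) (by rw [Nat.add_mul, one_mul]; omega) (by omega)
        (fun α hα => by
          rw [pop, hpop α hα, hty]
          refine nx_false_eq (by omega) (hsc α hα).2 (Or.inr ?_)
          rw [(hsc α hα).1]
          omega)
      refine le_trans (le_of_eq ?_) h1
      rw [VT]
      push_cast
      ring
    · obtain ⟨s, rfl⟩ : ∃ r, s = r + 1 := ⟨s - 1, by omega⟩
      have htW : t < W := by omega
      have hcW : n - (s + 1) < W := by omega
      set l : Lt d W := (⟨i, hi⟩, (⟨n - (s + 1), hcW⟩, ⟨t, htW⟩)) with hl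
      have hlP : l ∉ P := fun h => by
        have h1 := hP l h
        simp only [hl] at h1
        omega
      have hlQ : l ∉ Q := fun h => by
        have h1 := hQ l h
        simp only [hl] at h1
        omega
      have hiW : i * W + W ≤ d * W := by
        calc i * W + W = (i + 1) * W := by ring
          _ ≤ d * W := Nat.mul_le_mul_right _ hi
      have h1 := hrat P Q l hPQ hlP hlQ hty (by omega)
      have h2 := ih (t + 1) s (insert l P) Q (by omega) (by omega)
        (disjoint_insert_left.2 ⟨hlQ, hPQ⟩)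
        (fun k hk => by
          rcases mem_insert.1 hk with rfl | hk
          · exact Or.inr ⟨rfl, Nat.lt_succ_self _⟩
          · have := hP k hk
            omega)
        (fun k hk => by have := hQ k hk; omega)
        (by rw [card_insert_of_notMem hlP]; omega)
        (fun α hα => hpop α (Zs_insert_left P Q l hα).1)
        (fun α hα => by
          obtain ⟨h3, h4⟩ := Zs_insert_left P Q l hα
          obtain ⟨h5, h6⟩ := hsc α h3
          constructor
          · rw [scC, h5, vl_blk α.1 hi hcW htW, if_pos h4]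
            omega
          · intro b hb
            rcases Nat.lt_succ_iff_lt_or_eq.1 hb with hb | rfl
            · exact h6 b hb
            · rw [h5]
              omega)
      have h3 := ih (t + 1) (s + 1) P (insert l Q) (by omega) hs
        (disjoint_insert_right.2 ⟨hlP, hPQ⟩)
        (fun k hk => by have := hP k hk; omega)
        (fun k hk => by
          rcases mem_insert.1 hk with rfl | hk
          · exact Or.inr ⟨rfl, Nat.lt_succ_self _⟩
          · have := hQ k hk
            omega)
        (by rw [card_insert_of_notMem hlQ]; omega)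
        (fun α hα => hpop α (Zs_insert_right P Q l hα).1)
        (fun α hα => by
          obtain ⟨h3, h4⟩ := Zs_insert_right P Q l hα
          obtain ⟨h5, h6⟩ := hsc α h3
          constructor
          · rw [scC, h5, vl_blk α.1 hi hcW htW, if_neg (by rw [← hl, h4]; omega), add_zero]
          · intro b hb
            rcases Nat.lt_succ_iff_lt_or_eq.1 hb with hb | rfl
            · exact h6 b hb
            · rw [h5]
              omega)
      have h4 := card_Zs_split (tyq (d := d) (W := W) ty) (a := LU) (b := LV) P Q l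
        (Sv ty LU LV d W)
      have h5 := step_false (s := (s : ℝ)) (t := (t : ℝ)) hA0 hB0 hq hq' (Nat.cast_nonneg _)
        (Nat.cast_nonneg _) (Nat.cast_nonneg _) h1.1 h1.2
      rw [h4]
      rw [card_split] at h3
      push_cast at h2 h3 h5 ⊢
      linarith

theorem card_nb (t : Bool) :
    (univ.filter fun l : Lt d W => tyq ty l = t).card = nb ty t d * W ^ 2 := by
  have h1 : (univ.filter fun l : Lt d W => tyq ty l = t) =
      (univ.filter fun i : Fin d => ty i = t) ×ˢ (univ : Finset (Fin W × Fin W)) := by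
    ext l
    simp [tyq]
  have h2 : (univ.filter fun i : Fin d => ty i = t).map Fin.valEmbedding =
      (range d).filter fun i => ty i = t := by
    ext i
    simp only [mem_map, mem_filter, mem_univ, true_and, Fin.valEmbedding_apply, mem_range]
    constructor
    · rintro ⟨j, hj, rfl⟩
      exact ⟨j.2, hj⟩
    · rintro ⟨h, h'⟩
      exact ⟨⟨i, h⟩, h', rfl⟩
  rw [h1, card_product, nb, ← h2, card_map]
  congr 1
  simp [sq]

end process

/-- **ROW E** (sequential tests, quadratic potential) -/
theorem good_count {d W : ℕ} (hW : 1 ≤ W) (ty : ℕ → Bool) {LU LV NU NV : ℕ} {A B : ℕ → ℝ}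
    {p p' q q' : ℝ} (hNU : NU = nb ty true d * W ^ 2) (hNV : NV = nb ty false d * W ^ 2)
    (hp0 : 0 ≤ p) (hq0 : 0 < q) (hq1 : q ≤ q') (hLU : d * W ≤ LU) (hLV : d * W ≤ LV)
    (hNU1 : d * W < NU) (hNV1 : d * W < NV)
    (hU : ∀ j j' : ℕ, j + j' ≤ d * W → j < LU →
      p * (NU - j').multichoose (LU - j) ≤ (NU - j').multichoose (LU - (j + 1)) ∧
      ((NU - j').multichoose (LU - (j + 1)) : ℝ) ≤ p' * (NU - j').multichoose (LU - j))
    (hV : ∀ j j' : ℕ, j + j' ≤ d * W → j < LV →
      q * (NV - j').multichoose (LV - j) ≤ (NV - j').multichoose (LV - (j + 1)) ∧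
      ((NV - j').multichoose (LV - (j + 1)) : ℝ) ≤ q' * (NV - j').multichoose (LV - j))
    (hAB : ∀ i ≤ d, 0 ≤ B i ∧ B i ≤ A i)
    (hPU : ∀ i < d, ty i = true → ∀ n : ℕ, n ≤ W →
      A i * n - B i * n ^ 2 ≤ (A (i + 1) - B (i + 1)) * p * n - B (i + 1) * p' ^ 2 * (n * (n - 1)))
    (hPV : ∀ i < d, ty i = false → ∀ n : ℕ, n ≤ W →
      A i * n - B i * n ^ 2 ≤ A (i + 1) * n / q' - B (i + 1) * (n ^ 2 + n) / q ^ 2)
    (hcap : ∀ i < d, ty i = false → A (i + 1) / q' ≤ 2 * B (i + 1) * W / q)
    (hend : ∀ n : ℕ, n ≤ W → A d * n - B d * n ^ 2 ≤ 1) :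
    (A 0 - B 0) * (NU.multichoose LU * NV.multichoose LV) ≤ ngood d W ty LU LV := by
  classical
  have hnU : nU (tyq (d := d) (W := W) ty) = NU := by
    rw [hNU, nU]
    exact card_nb true
  have hnV : nV (tyq (d := d) (W := W) ty) = NV := by
    rw [hNV, nV]
    exact card_nb false
  have hratU : Rat ty LU LV d W true p p' := by
    intro P Q l hPQ hl hl' ht hc
    have h1 := ct_le (tyq ty) true P
    have h2 := ct_le (tyq ty) true Q
    refine ratio_true (tyq ty) hPQ hl hl' ht (by omega) (by omega) ?_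
    rw [hnU]
    exact hU _ _ (by omega) (by omega)
  have hratV : Rat ty LU LV d W false q q' := by
    intro P Q l hPQ hl hl' ht hc
    have h1 := ct_le (tyq ty) false P
    have h2 := ct_le (tyq ty) false Q
    refine ratio_false (tyq ty) hPQ hl hl' ht (by omega) (by omega) ?_
    rw [hnV]
    exact hV _ _ (by omega) (by omega)
  have hall : ∀ m i, i + m = d → Out ty LU LV d W A B i := by
    intro m
    induction m with
    | zero =>
      intro i hi P Q n hPQ hP hQ hcard hn hpop
      have hi' : i = d := by omega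
      rw [hi'] at hpop ⊢
      rcases Nat.eq_zero_or_pos n with rfl | hn0
      · simp
      · have h1 : Zs (tyq ty) LU LV P Q ∩ Sv ty LU LV d W = Zs (tyq ty) LU LV P Q := by
          refine inter_eq_left.2 fun α hα => ?_
          rw [Sv, mem_filter]
          refine ⟨mem_univ _, ?_⟩
          rw [hpop α hα]
          exact hn0
        rw [h1]
        have h2 := mul_le_mul_of_nonneg_right (hend n hn)
          (Nat.cast_nonneg (Zs (tyq ty) LU LV P Q).card (α := ℝ))
        rwa [one_mul] at h2
    | succ m ih =>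
      intro i hi
      have hid : i < d := by omega
      have hout := ih (i + 1) (by omega)
      have hab := hAB (i + 1) (by omega)
      have hdW : 1 ≤ d * W := Nat.mul_pos (by omega) hW
      intro P Q n hPQ hP hQ hcard hn hpop
      cases hty : ty i with
      | true =>
        have hp' : 0 ≤ p' := by
          have h1 := (hU 0 0 (by omega) (by omega)).2
          have h2 : (0 : ℝ) < (NU - 0).multichoose (LU - 0) := by
            rw [Nat.multichoose_eq]
            exact_mod_cast Nat.choose_pos (by omega)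
          by_contra h3
          have h4 : p' * ((NU - 0).multichoose (LU - 0) : ℝ) < 0 :=
            mul_neg_of_neg_of_pos (not_le.1 h3) h2
          have h5 : (0 : ℝ) ≤ (NU - 0).multichoose (LU - (0 + 1)) := Nat.cast_nonneg _
          linarith
        have h1 := inner_true hid hty hratU hp' hab.2 hab.1 hout hn n 0 0 P Q (by omega) le_rfl
          hPQ (fun l hl => Or.inl (hP l hl)) (fun l hl => Or.inl (hQ l hl)) (by omega) hpop
          (fun α _ => rfl)
        refine le_trans (mul_le_mul_of_nonneg_right ?_ (Nat.cast_nonneg _)) h1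
        refine (hPU i hid hty n hn).trans (le_of_eq ?_)
        rw [QT]
        push_cast
        ring
      | false =>
        have h1 := inner_false hid hty hratV hq0 (by linarith) (by linarith [hab.1, hab.2]) hab.1
          (hcap i hid hty) hout hn W 0 n P Q (by omega) le_rfl
          hPQ (fun l hl => Or.inl (hP l hl)) (fun l hl => Or.inl (hQ l hl)) (by omega) hpop
          (fun α _ => ⟨by rw [scC]; omega, fun b hb => absurd hb (by omega)⟩)
        refine le_trans (mul_le_mul_of_nonneg_right ?_ (Nat.cast_nonneg _)) h1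
        refine (hPV i hid hty n hn).trans (le_of_eq ?_)
        rw [VT]
        push_cast
        ring
  have h0 := hall d 0 (by omega) ∅ ∅ 1 (disjoint_empty_left _) (by simp) (by simp) (by simp) hW
    (fun α _ => rfl)
  have h1 : (Zs (tyq (d := d) (W := W) ty) LU LV ∅ ∅).card =
      NU.multichoose LU * NV.multichoose LV := by
    rw [card_Zs_empty, hnU, hnV]
    simp [ct]
  have h2 : (Zs (tyq (d := d) (W := W) ty) LU LV ∅ ∅ ∩ Sv ty LU LV d W).card ≤
      ngood d W ty LU LV := by
    refine (card_le_card inter_subset_right).trans (le_of_eq ?_)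
    rw [ngood, Sv]
  rw [h1] at h0
  have h3 : ((Zs (tyq (d := d) (W := W) ty) LU LV ∅ ∅ ∩ Sv ty LU LV d W).card : ℝ) ≤
      ngood d W ty LU LV := by exact_mod_cast h2
  refine le_trans (le_of_eq ?_) (h0.trans h3)
  push_cast
  ring

end Pool.XDB
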