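import Pool.Agent.XDB.Defs
import Pool.Agent.XD.Measure

/-!
# XDB, row E, first part: the number of the exponent vectors with some letters present and some
letters absent
-/

set_option autoImplicit false
set_option linter.unusedSectionVars false

namespace Pool.XDB

open Finset Pool.XD

section count

variable {L : Type} [Fintype L] [DecidableEq L] (ty : L → Bool)

/-- the exponent vectors which contain the letters of `P` and avoid the letters of `Q` -/
noncomputable def Zs (a b : ℕ) (P Q : Finset L) : Finset (Box ty a b) :=
  univ.filter fun α => (∀ l ∈ P, 1 ≤ α.1 l) ∧ ∀ l ∈ Q, α.1 l = 0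

/-- the number of the letters of a type in a set -/
def ct (t : Bool) (P : Finset L) : ℕ := (P.filter fun l => ty l = t).card

theorem ct_le (t : Bool) (P : Finset L) : ct ty t P ≤ P.card := card_filter_le _ _

theorem ct_add (P : Finset L) : ct ty true P + ct ty false P = P.card := by
  rw [ct, ct, ← card_filter_add_card_filter_not (fun l => ty l = true) (s := P)]
  congr 2
  refine filter_congr fun l _ => ?_
  cases ty l <;> simp

theorem ct_insert {t : Bool} {P : Finset L} {l : L} (hl : l ∉ P) :
    ct ty t (insert l P) = ct ty t P + if ty l = t then 1 else 0 := by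
  rw [ct, ct, filter_insert]
  split_ifs with h
  · rw [card_insert_of_notMem fun h' => hl (mem_filter.1 h').1]
  · rw [add_zero]

theorem ct_eq_sum (t : Bool) (P : Finset L) :
    ct ty t P = ∑ l, if l ∈ P ∧ ty l = t then 1 else 0 := by
  rw [← sum_filter, ← card_eq_sum_ones, ct]
  congr 1
  ext l
  simp

theorem sum_shift (t : Bool) (P : Finset L) (β : L → ℕ) :
    (∑ l, if ty l = t then (if l ∈ P then β l + 1 else β l) else 0) =
      (∑ l, if ty l = t then β l else 0) + ct ty t P := by
  rw [ct_eq_sum, ← sum_add_distrib]
  refine sum_congr rfl fun l _ => ?_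
  by_cases h1 : ty l = t <;> by_cases h2 : l ∈ P <;> simp [h1, h2]

theorem ite_false_eq (α : L → ℕ) :
    (∑ l, if ty l then 0 else α l) = ∑ l, if ty l = false then α l else 0 := by
  refine sum_congr rfl fun l _ => ?_
  cases ty l <;> simp

theorem sum_off (t : Bool) (Q : Finset L) (α : L → ℕ) (h : ∀ l ∈ Q, α l = 0) :
    (∑ l : {l // l ∉ Q}, if ty l.1 = t then α l.1 else 0) = ∑ l, if ty l = t then α l else 0 := by
  have h1 : (∑ l : {l // l ∉ Q}, if ty l.1 = t then α l.1 else 0) =
      ∑ l ∈ univ.filter (fun l => l ∉ Q), if ty l = t then α l else 0 :=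
    (Finset.sum_subtype _ (fun l => by simp) (fun l => if ty l = t then α l else 0)).symm
  rw [h1]
  refine sum_subset (subset_univ _) fun l _ hl => ?_
  have h2 : l ∈ Q := by
    by_contra h3
    exact hl (mem_filter.2 ⟨mem_univ _, h3⟩)
  rw [h l h2, ite_self]

theorem card_off (t : Bool) (Q : Finset L) :
    (univ.filter fun l : {l // l ∉ Q} => ty l.1 = t).card =
      (univ.filter fun l => ty l = t).card - ct ty t Q := by
  have h1 : (univ.filter fun l : {l // l ∉ Q} => ty l.1 = t).card =
      ((univ.filter fun l => ty l = t) \ (Q.filter fun l => ty l = t)).card := by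
    refine card_bij (fun l _ => l.1) (fun l hl => ?_) (fun l _ l' _ h => Subtype.ext h)
      fun l hl => ?_
    · have h2 := (mem_filter.1 hl).2
      refine mem_sdiff.2 ⟨mem_filter.2 ⟨mem_univ _, h2⟩, fun h3 => l.2 (mem_filter.1 h3).1⟩
    · obtain ⟨h2, h3⟩ := mem_sdiff.1 hl
      have h4 := (mem_filter.1 h2).2
      exact ⟨⟨l, fun h5 => h3 (mem_filter.2 ⟨h5, h4⟩)⟩, mem_filter.2 ⟨mem_univ _, h4⟩, rfl⟩
  rw [h1, card_sdiff_of_subset, ct]
  intro l hl
  exact mem_filter.2 ⟨mem_univ _, (mem_filter.1 hl).2⟩

theorem card_Zs_empty (a b : ℕ) (Q : Finset L) :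
    (Zs ty a b ∅ Q).card = (nU ty - ct ty true Q).multichoose a *
      (nV ty - ct ty false Q).multichoose b := by
  have e : {α : Box ty a b // ∀ l ∈ Q, α.1 l = 0} ≃ Box (fun l : {l // l ∉ Q} => ty l.1) a b :=
    { toFun := fun α => ⟨fun l => α.1.1 l.1, by
        have := sum_off ty true Q α.1.1 α.2
        exact this.trans α.1.2.1, by
        have := sum_off ty false Q α.1.1 α.2
        rw [ite_false_eq]
        exact this.trans ((ite_false_eq ty _).symm.trans α.1.2.2)⟩
      invFun := fun β => ⟨⟨fun l => if h : l ∉ Q then β.1 ⟨l, h⟩ else 0, by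
        have := sum_off ty true Q (fun l => if h : l ∉ Q then β.1 ⟨l, h⟩ else 0)
          fun l hl => by simp [hl]
        refine this.symm.trans (Eq.trans ?_ β.2.1)
        refine sum_congr rfl fun l _ => ?_
        simp [l.2], by
        have := sum_off ty false Q (fun l => if h : l ∉ Q then β.1 ⟨l, h⟩ else 0)
          fun l hl => by simp [hl]
        rw [ite_false_eq]
        refine this.symm.trans (Eq.trans ?_ ((ite_false_eq _ _).symm.trans β.2.2))
        refine sum_congr rfl fun l _ => ?_
        simp [l.2]⟩, fun l hl => by simp [hl]⟩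
      left_inv := fun α => by
        apply Subtype.ext
        apply Subtype.ext
        funext l
        by_cases h : l ∈ Q
        · simp [h, α.2 l h]
        · simp [h]
      right_inv := fun β => by
        apply Subtype.ext
        funext l
        simp [l.2] }
  have h1 : (Zs ty a b ∅ Q).card = Fintype.card {α : Box ty a b // ∀ l ∈ Q, α.1 l = 0} := by
    rw [Fintype.card_subtype, Zs]
    congr 1
    ext α
    simp
  rw [h1, Fintype.card_congr e, card_box]
  congr 2
  · exact card_off ty true Q
  · exact card_off ty false Q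

theorem card_Zs {a b : ℕ} {P Q : Finset L} (hPQ : Disjoint P Q) (ha : ct ty true P ≤ a)
    (hb : ct ty false P ≤ b) :
    (Zs ty a b P Q).card = (nU ty - ct ty true Q).multichoose (a - ct ty true P) *
      (nV ty - ct ty false Q).multichoose (b - ct ty false P) := by
  rw [← card_Zs_empty]
  have hdn : ∀ (t : Bool) (α : L → ℕ), (∀ l ∈ P, 1 ≤ α l) →
      (∑ l, if ty l = t then (if l ∈ P then α l - 1 else α l) else 0) + ct ty t P =
        ∑ l, if ty l = t then α l else 0 := by
    intro t α hα
    rw [← sum_shift]
    refine sum_congr rfl fun l _ => ?_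
    by_cases h1 : ty l = t
    · rw [if_pos h1, if_pos h1]
      by_cases h2 : l ∈ P
      · have := hα l h2
        rw [if_pos h2, if_pos h2]
        omega
      · rw [if_neg h2, if_neg h2]
    · rw [if_neg h1, if_neg h1]
  refine card_bij'
    (fun α hα => (⟨fun l => if l ∈ P then α.1 l - 1 else α.1 l, by
      have h1 := (mem_filter.1 hα).2
      have h2 := hdn true α.1 h1.1
      have h3 := α.2.1
      exact Nat.eq_sub_of_add_eq (h2.trans h3), by
      have h1 := (mem_filter.1 hα).2
      have h2 := hdn false α.1 h1.1
      have h3 := (ite_false_eq ty α.1).symm.trans α.2.2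
      rw [ite_false_eq]
      exact Nat.eq_sub_of_add_eq (h2.trans h3)⟩ :
        Box ty (a - ct ty true P) (b - ct ty false P)))
    (fun β _ => (⟨fun l => if l ∈ P then β.1 l + 1 else β.1 l, by
      have h2 := sum_shift ty true P β.1
      refine h2.trans ?_
      have h3 : (∑ l, if ty l = true then β.1 l else 0) = a - ct ty true P := β.2.1
      omega, by
      have h2 := sum_shift ty false P β.1
      rw [ite_false_eq]
      refine h2.trans ?_
      have h3 : (∑ l, if ty l = false then β.1 l else 0) = b - ct ty false P :=
        (ite_false_eq ty β.1).symm.trans β.2.2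
      omega⟩ : Box ty a b)) ?_ ?_ ?_ ?_
  · intro α hα
    have h1 := (mem_filter.1 hα).2
    refine mem_filter.2 ⟨mem_univ _, fun l hl => absurd hl (notMem_empty _), fun l hl => ?_⟩
    have h2 : l ∉ P := fun h => (disjoint_left.1 hPQ h) hl
    simp only [if_neg h2]
    exact h1.2 l hl
  · intro β hβ
    have h1 := (mem_filter.1 hβ).2
    refine mem_filter.2 ⟨mem_univ _, fun l hl => ?_, fun l hl => ?_⟩
    · simp only [if_pos hl]
      omega
    · have h2 : l ∉ P := fun h => (disjoint_left.1 hPQ h) hl
      simp only [if_neg h2]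
      exact h1.2 l hl
  · intro α hα
    have h1 := (mem_filter.1 hα).2
    apply Subtype.ext
    funext l
    by_cases h2 : l ∈ P
    · have := h1.1 l h2
      simp only [if_pos h2]
      omega
    · simp only [if_neg h2]
  · intro β _
    apply Subtype.ext
    funext l
    by_cases h2 : l ∈ P
    · simp only [if_pos h2]
      omega
    · simp only [if_neg h2]

/-- a test splits the exponent vectors -/
theorem card_Zs_split {a b : ℕ} (P Q : Finset L) (l : L) (S : Finset (Box ty a b)) :
    (Zs ty a b P Q ∩ S).card = (Zs ty a b (insert l P) Q ∩ S).card +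
      (Zs ty a b P (insert l Q) ∩ S).card := by
  rw [← card_union_of_disjoint]
  · congr 1
    ext α
    simp only [Zs, mem_union, mem_inter, mem_filter, mem_univ, true_and, mem_insert,
      forall_eq_or_imp]
    rcases Nat.eq_zero_or_pos (α.1 l) with h | h
    · simp only [h]
      tauto
    · have h' : α.1 l ≠ 0 := by omega
      simp only [h', Nat.one_le_iff_ne_zero]
      tauto
  · rw [disjoint_left]
    intro α h1 h2
    simp only [Zs, mem_inter, mem_filter, mem_univ, true_and, mem_insert,
      forall_eq_or_imp] at h1 h2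
    have h3 := h1.1.1.1
    have h4 := h2.1.2.1
    omega

end count

end Pool.XDB
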