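import Pool.Agent.QPIT.CircW
import Pool.Agent.CDep.Assembly

/-!
# Two-parameter form: sums of products of gates of small circuits
-/

set_option autoImplicit false

namespace Pool.XDB

open Finset MvPolynomial

/-- from sums of products of members of the class to sums of products of gates of circuits -/
theorem two_par {C : ℝ} (hC : 1 ≤ C) {K : Type} [Field K] {n k e : ℕ}
    (Q : MvPolynomial (Fin n × Fin n) K → Prop)
    (h : ∀ (T S w : ℕ) (f : Fin T → Fin S → MvPolynomial (Fin n × Fin n) K), 2 ≤ S → 1 ≤ w →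
      (∀ i j, f i j ∈ Pool.Agent.Helper41.CD.Cls w w S k) → Q (∑ i, ∏ j, f i j) →
      (n : ℝ) ≤ C * Real.log (2 * n * T) *
        (C * (Real.log S + (w + w) * Real.log (2 * n))) ^ e)
    {D : ℝ} (hD : 4 * C ≤ D) {w s T S : ℕ} (hw : 1 ≤ w) (hS : 1 ≤ S)
    (f : Fin T → Fin S → MvPolynomial (Fin n × Fin n) K)
    (hf : ∀ i j, ∃ P : Fin s → MvPolynomial (Fin n × Fin n) K,
      Pool.QPIT.IsCircuitW k w P ∧ ∃ g, P g = f i j)
    (hF : Q (∑ i, ∏ j, f i j)) :
    (n : ℝ) ≤ D * Real.log (2 * n * T) *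
      (D * (Real.log (S + s) + w * Real.log (2 * n))) ^ e := by
  rcases Nat.eq_zero_or_pos n with rfl | hn
  · simp
  have hC0 : 0 < C := by linarith
  have hn2 : 1 ≤ n ^ 2 := Nat.one_le_pow _ _ hn
  have hmem : ∀ i j, f i j ∈ Pool.Agent.Helper41.CD.Cls w w (S + (s + n ^ 2 + 1)) k := by
    intro i j
    obtain ⟨P, hP, g, hg⟩ := hf i j
    obtain ⟨lev, H⟩ := hP
    rw [← hg]
    exact (Pool.QPIT.gate_memW hw (by
      rw [Fintype.card_prod, Fintype.card_fin]
      nlinarith) H k).1 g (H g).1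
  have h4 := h T (S + (s + n ^ 2 + 1)) w (fun i => Fin.append (f i) fun _ => 1) (by omega) hw
    (fun i j => by
      refine Fin.addCases (fun j => ?_) (fun j => ?_) j
      · rw [Fin.append_left]
        exact hmem i j
      · rw [Fin.append_right]
        exact Pool.QPIT.one_mem' w w _ k)
    (by
      simp only [Fin.prod_univ_add, Fin.append_left, Fin.append_right, prod_const_one, mul_one]
      exact hF)
  have hn1 : (1 : ℝ) ≤ n := by exact_mod_cast hn
  have hS1 : (1 : ℝ) ≤ S := by exact_mod_cast hS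
  have hs0 : (0 : ℝ) ≤ s := Nat.cast_nonneg s
  have hw1 : (1 : ℝ) ≤ w := by exact_mod_cast hw
  rcases Nat.eq_zero_or_pos T with rfl | hT
  · simp only [Nat.cast_zero, mul_zero, Real.log_zero, zero_mul] at h4
    linarith
  have hT1 : (1 : ℝ) ≤ T := by exact_mod_cast hT
  have e0 : 0 ≤ Real.log (2 * (n : ℝ)) := Real.log_nonneg (by linarith)
  have e1 : Real.log ((S + (s + n ^ 2 + 1) : ℕ) : ℝ) ≤
      Real.log (S + s) + 2 * Real.log (2 * n) := by
    have h5 : Real.log ((S : ℝ) + s) + 2 * Real.log (2 * n) =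
        Real.log (((S : ℝ) + s) * (2 * n) ^ 2) := by
      have h6 : Real.log ((2 * (n : ℝ)) ^ 2) = 2 * Real.log (2 * n) := by
        rw [Real.log_pow, Nat.cast_ofNat]
      rw [Real.log_mul (show ((S : ℝ) + s) ≠ 0 by positivity)
        (show (2 * (n : ℝ)) ^ 2 ≠ 0 by positivity), h6]
    rw [h5]
    push_cast
    refine Real.log_le_log (by positivity) ?_
    have h7 : (1 : ℝ) ≤ (n : ℝ) ^ 2 := one_le_pow₀ hn1
    have h8 : 0 ≤ ((S : ℝ) + s - 1) * (n : ℝ) ^ 2 :=
      mul_nonneg (by linarith) (by positivity)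
    nlinarith
  have e2 : 0 ≤ Real.log ((S : ℝ) + s) := Real.log_nonneg (by linarith)
  have e3 : 0 ≤ Real.log (2 * (n : ℝ) * T) := Real.log_nonneg (by nlinarith)
  have e4 : Real.log ((S + (s + n ^ 2 + 1) : ℕ) : ℝ) + (w + w) * Real.log (2 * n) ≤
      4 * (Real.log (S + s) + w * Real.log (2 * n)) := by
    nlinarith
  have e5 : 0 ≤ Real.log ((S + (s + n ^ 2 + 1) : ℕ) : ℝ) + (w + w) * Real.log (2 * n) := by
    have : 0 ≤ Real.log ((S + (s + n ^ 2 + 1) : ℕ) : ℝ) := Real.log_natCast_nonneg _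
    positivity
  calc (n : ℝ) ≤ C * Real.log (2 * n * T) *
        (C * (Real.log ((S + (s + n ^ 2 + 1) : ℕ) : ℝ) + (w + w) * Real.log (2 * n))) ^ e := h4
    _ ≤ _ := by
      refine mul_le_mul (mul_le_mul_of_nonneg_right (by linarith) e3)
        (pow_le_pow_left₀ (by positivity) ?_ _) (by positivity)
        (mul_nonneg (by linarith) e3)
      calc C * (Real.log ((S + (s + n ^ 2 + 1) : ℕ) : ℝ) + (w + w) * Real.log (2 * n)) ≤
          C * (4 * (Real.log (S + s) + w * Real.log (2 * n))) :=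
            mul_le_mul_of_nonneg_left e4 hC0.le
        _ = 4 * C * (Real.log (S + s) + w * Real.log (2 * n)) := by ring
        _ ≤ _ := mul_le_mul_of_nonneg_right hD (by positivity)

end Pool.XDB
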